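import Pool.Agent.Work.MP_fef182_gt.FLf

/-!
Flat spaces: the space is the quotient of Euclidean space by a discrete group.
-/

open Set Metric Filter Topology MeasureTheory Measure

namespace Pool.Agent.Work.MP_fef182_gt

variable {n : ℕ} {X : Type*} [MetricSpace X]

/-- The metric is the length metric of `R`: two points of `R` are joined in `R` by curves whose
length is arbitrarily close to their distance. -/
def LengthOn (R : Set X) : Prop :=
  ∀ x ∈ R, ∀ y ∈ R, ∀ η > 0, ∃ γ : ℝ → X, ContinuousOn γ (Icc 0 1) ∧ γ 0 = x ∧ γ 1 = y ∧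
    (∀ t ∈ Icc (0 : ℝ) 1, γ t ∈ R) ∧
    eVariationOn γ (Icc 0 1) ≤ ENNReal.ofReal (dist x y + η)

theorem FlatAt.mono {R : Set X} {x : X} {δ δ' : ℝ} (h : FlatAt n R x δ) (h0 : 0 < δ')
    (hle : δ' ≤ δ) : FlatAt n R x δ' := by
  obtain ⟨ψ, h1, h2⟩ := h
  exact ⟨ψ, h1, h2.mono h0 hle⟩

theorem FlatAt.near {R : Set X} {x x' : X} {δ : ℝ} (hδ : 0 < δ) (h : FlatAt n R x δ)
    (hx : x' ∈ ball x (δ / 2)) : FlatAt n R x' (δ / 2) := by
  obtain ⟨ψ, h1, h2⟩ := h
  have hx' : x' ∈ ψ '' ball 0 δ := by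
    rw [h2.2.1, h1]
    exact ball_subset_ball (by linarith) hx
  obtain ⟨a, ha, rfl⟩ := hx'
  have had : dist a 0 < δ / 2 := by
    rw [← h2.1 a ha 0 (mem_ball_self hδ), h1]
    exact hx
  have h3 : IsoAt R ψ a (δ / 2) := h2.sub (by linarith) (by linarith)
  refine ⟨fun z => ψ (AffineIsometryEquiv.constVAdd ℝ (E n) a z), by simp, ?_⟩
  apply IsoAt.comp_affine
  simpa using h3

theorem flat_uniform {R : Set X} (hflat : ∀ x ∈ R, ∃ δ > 0, FlatAt n R x δ) {K : Set X}
    (hK : IsCompact K) (hKR : K ⊆ R) : ∃ δ > 0, ∀ x ∈ K, FlatAt n R x δ := by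
  refine hK.induction_on (p := fun K => ∃ δ > 0, ∀ x ∈ K, FlatAt n R x δ) ?_ ?_ ?_ ?_
  · exact ⟨1, one_pos, by simp⟩
  · rintro s t hst ⟨δ, hδ, h⟩
    exact ⟨δ, hδ, fun x hx => h x (hst hx)⟩
  · rintro s t ⟨δ, hδ, h⟩ ⟨δ', hδ', h'⟩
    refine ⟨min δ δ', lt_min hδ hδ', ?_⟩
    rintro x (hx | hx)
    · exact (h x hx).mono (lt_min hδ hδ') (min_le_left _ _)
    · exact (h' x hx).mono (lt_min hδ hδ') (min_le_right _ _)
  · intro x hx
    obtain ⟨δ, hδ, h⟩ := hflat x (hKR hx)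
    refine ⟨ball x (δ / 2), mem_nhdsWithin_of_mem_nhds (ball_mem_nhds x (by linarith)),
      δ / 2, by linarith, fun x' hx' => h.near hδ hx'⟩

/-- Lifting of curves. -/
theorem lift_curve {R : Set X} (hflat : ∀ x ∈ R, ∃ δ > 0, FlatAt n R x δ) {F : E n → X}
    (hiso : ∀ y δ, 0 < δ → FlatAt n R (F y) δ → IsoAt R F y δ) {γ : ℝ → X}
    (hγ : ContinuousOn γ (Icc 0 1)) (hγR : ∀ t ∈ Icc (0 : ℝ) 1, γ t ∈ R)
    {L : ℝ} (hL : 0 ≤ L) (hlen : eVariationOn γ (Icc 0 1) ≤ ENNReal.ofReal L)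
    {y : E n} (hy : F y = γ 0) :
    ∃ y', F y' = γ 1 ∧ dist y y' ≤ L := by
  have hK : IsCompact (γ '' Icc 0 1) := isCompact_Icc.image_of_continuousOn hγ
  obtain ⟨δ, hδ, hfl⟩ := flat_uniform hflat hK (by rintro _ ⟨t, ht, rfl⟩; exact hγR t ht)
  have huc := isCompact_Icc.uniformContinuousOn_of_continuous hγ
  rw [Metric.uniformContinuousOn_iff] at huc
  obtain ⟨η, hη, huc⟩ := huc δ hδ
  obtain ⟨N, hN⟩ := exists_nat_gt (1 / η)
  have hN0 : (0 : ℝ) < N := lt_trans (by positivity) hN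
  have hN1 : 1 / (N : ℝ) < η := by
    rw [div_lt_iff₀ hN0]
    rw [div_lt_iff₀ hη] at hN
    linarith
  set u : ℕ → ℝ := fun i => min ((i : ℝ) / N) 1 with hu
  have hum : Monotone u := by
    intro i j hij
    apply min_le_min_right
    have : (i : ℝ) ≤ j := by exact_mod_cast hij
    exact div_le_div_of_nonneg_right this hN0.le
  have hu01 : ∀ i, u i ∈ Icc (0 : ℝ) 1 := fun i => ⟨le_min (by positivity) zero_le_one,
    min_le_right _ _⟩
  have hstep : ∀ i, dist (u i) (u (i + 1)) < η := by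
    intro i
    have h1 : u i ≤ u (i + 1) := hum (Nat.le_succ i)
    rw [dist_comm, Real.dist_eq, abs_of_nonneg (by linarith)]
    have h2 : u (i + 1) ≤ u i + 1 / N := by
      simp only [hu]
      rcases le_total ((i : ℝ) / N) 1 with h | h
      · rw [min_eq_left h]
        refine (min_le_left _ _).trans ?_
        push_cast
        rw [add_div]
      · rw [min_eq_right h]
        have : 0 ≤ 1 / (N : ℝ) := by positivity
        linarith [min_le_right (((i + 1 : ℕ) : ℝ) / N) 1]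
    linarith
  -- inductive lifting
  have hind : ∀ k : ℕ, ∃ y' : E n, F y' = γ (u k) ∧
      dist y y' ≤ ∑ i ∈ Finset.range k, dist (γ (u i)) (γ (u (i + 1))) := by
    intro k
    induction k with
    | zero =>
      refine ⟨y, ?_, by simp⟩
      simp [hu, hy]
    | succ k ih =>
      obtain ⟨z, hz1, hz2⟩ := ih
      have hi := hiso z δ hδ (by rw [hz1]; exact hfl _ ⟨_, hu01 k, rfl⟩)
      have hd : dist (γ (u (k + 1))) (F z) < δ := by
        rw [hz1, dist_comm]
        exact huc _ (hu01 k) _ (hu01 (k + 1)) (hstep k)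
      have hm : γ (u (k + 1)) ∈ F '' ball z δ := by
        rw [hi.2.1]; exact hd
      obtain ⟨w, hw, hw2⟩ := hm
      refine ⟨w, hw2, ?_⟩
      rw [Finset.sum_range_succ]
      have h1 : dist z w = dist (γ (u k)) (γ (u (k + 1))) := by
        rw [← hi.1 z (mem_ball_self hδ) w hw, hz1, hw2]
      calc dist y w ≤ dist y z + dist z w := dist_triangle _ _ _
        _ ≤ _ := by rw [h1]; linarith
  obtain ⟨y', hy1, hy2⟩ := hind N
  have huN : u N = 1 := by
    simp only [hu]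
    rw [div_self hN0.ne', min_self]
  rw [huN] at hy1
  refine ⟨y', hy1, hy2.trans ?_⟩
  have h1 := eVariationOn.sum_le (f := γ) (s := Icc 0 1) (n := N) hum hu01
  have h2 : ∑ i ∈ Finset.range N, edist (γ (u (i + 1))) (γ (u i)) =
      ENNReal.ofReal (∑ i ∈ Finset.range N, dist (γ (u i)) (γ (u (i + 1)))) := by
    rw [ENNReal.ofReal_sum_of_nonneg (fun i _ => dist_nonneg)]
    refine Finset.sum_congr rfl fun i _ => ?_
    rw [edist_comm, edist_dist]
  rw [h2] at h1
  have h3 := h1.trans hlen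
  exact (ENNReal.ofReal_le_ofReal_iff hL).1 h3

/-- The properties of the developed map. -/
structure Dev (R : Set X) (F : E n → X) : Prop where
  lip : ∀ y y', dist (F y) (F y') ≤ dist y y'
  iso : ∀ y δ, 0 < δ → FlatAt n R (F y) δ → IsoAt R F y δ
  seg : ∀ᵐ ab ∂((μH[(n : ℝ)] : Measure (E n)).prod μH[(n : ℝ)]),
        ∀ z ∈ segment ℝ ab.1 ab.2, F z ∈ R

theorem Dev.continuous {R : Set X} {F : E n → X} (h : Dev R F) : Continuous F :=
  (LipschitzWith.of_dist_le_mul (K := 1) (fun a b => by simpa using h.lip a b)).continuous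

theorem Dev.dense_seg {R : Set X} {F : E n → X} (h : Dev R F) :
    Dense {ab : E n × E n | ∀ z ∈ segment ℝ ab.1 ab.2, F z ∈ R} :=
  Measure.dense_of_ae h.seg

theorem Dev.dense {R : Set X} {F : E n → X} (h : Dev R F) : Dense {y : E n | F y ∈ R} := by
  intro y
  rw [mem_closure_iff_nhds]
  intro N hN
  have h1 : Prod.fst ⁻¹' N ∈ 𝓝 ((y, y) : E n × E n) := continuous_fst.continuousAt hN
  obtain ⟨ab, hab1, hab2⟩ := (mem_closure_iff_nhds.1 (h.dense_seg (y, y))) _ h1
  exact ⟨ab.1, hab1, hab2 _ (left_mem_segment ℝ _ _)⟩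

theorem Dev.exists_near {R : Set X} {F : E n → X} (h : Dev R F) (y : E n) {ε : ℝ} (hε : 0 < ε) :
    ∃ z, dist y z < ε ∧ F z ∈ R := by
  obtain ⟨z, hz, hz2⟩ := Metric.dense_iff.1 h.dense y ε hε
  exact ⟨z, by rw [dist_comm]; exact hz, hz2⟩

/-- Submetry over `R`. -/
theorem Dev.lift {R : Set X} {F : E n → X} (h : Dev R F)
    (hflat : ∀ x ∈ R, ∃ δ > 0, FlatAt n R x δ) (hlen : LengthOn R) {y : E n} (hy : F y ∈ R)
    {x' : X} (hx' : x' ∈ R) {η : ℝ} (hη : 0 < η) :
    ∃ y', F y' = x' ∧ dist y y' ≤ dist (F y) x' + η := by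
  obtain ⟨γ, h1, h2, h3, h4, h5⟩ := hlen _ hy _ hx' η hη
  obtain ⟨y', hy', hd⟩ := lift_curve hflat h.iso h1 h4
    (add_nonneg dist_nonneg hη.le) h5 (y := y) h2.symm
  exact ⟨y', by rw [hy', h3], hd⟩

/-- The developed map is a submetry. -/
theorem Dev.submetry {R : Set X} {F : E n → X} (h : Dev R F)
    (hflat : ∀ x ∈ R, ∃ δ > 0, FlatAt n R x δ) (hlen : LengthOn R) (hdense : Dense R)
    (y : E n) (x' : X) : ∃ y', F y' = x' ∧ dist y y' ≤ dist (F y) x' := by
  have hk : ∀ k : ℕ, ∃ y1 y2 : E n, dist y y1 < 1 / ((k : ℝ) + 1) ∧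
      dist (F y2) x' < 1 / ((k : ℝ) + 1) ∧
      dist y1 y2 ≤ dist (F y1) (F y2) + 1 / ((k : ℝ) + 1) := by
    intro k
    have hpos : 0 < 1 / ((k : ℝ) + 1) := by positivity
    obtain ⟨y1, h1, h2⟩ := h.exists_near y hpos
    obtain ⟨x1, h3, h4⟩ := Metric.dense_iff.1 hdense x' _ hpos
    obtain ⟨y2, h5, h6⟩ := h.lift hflat hlen h2 h4 hpos
    refine ⟨y1, y2, h1, ?_, ?_⟩
    · rw [h5]; exact h3
    · rw [h5]; exact h6
  choose y1 y2 h1 h2 h3 using hk
  have hlim0 : Tendsto (fun k : ℕ => 1 / ((k : ℝ) + 1)) atTop (𝓝 0) :=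
    tendsto_one_div_add_atTop_nhds_zero_nat
  have hle1 : ∀ k : ℕ, 1 / ((k : ℝ) + 1) ≤ 1 := by
    intro k
    rw [div_le_one (by positivity)]
    have : (0 : ℝ) ≤ k := Nat.cast_nonneg k
    linarith
  have hy1 : Tendsto y1 atTop (𝓝 y) := by
    rw [tendsto_iff_dist_tendsto_zero]
    refine squeeze_zero (fun _ => dist_nonneg) (fun k => ?_) hlim0
    rw [dist_comm]
    exact (h1 k).le
  have hFy2 : Tendsto (fun k => F (y2 k)) atTop (𝓝 x') := by
    rw [tendsto_iff_dist_tendsto_zero]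
    exact squeeze_zero (fun _ => dist_nonneg) (fun k => (h2 k).le) hlim0
  have hbdd : ∀ k, y2 k ∈ closedBall y (dist (F y) x' + 4) := by
    intro k
    rw [mem_closedBall, dist_comm]
    have e1 : dist (F (y1 k)) (F y) ≤ dist (y1 k) y := h.lip _ _
    have e2 : dist (F (y1 k)) (F (y2 k)) ≤
        dist (F (y1 k)) (F y) + dist (F y) x' + dist x' (F (y2 k)) := by
      have := dist_triangle4 (F (y1 k)) (F y) x' (F (y2 k))
      linarith
    have e3 := dist_triangle y (y1 k) (y2 k)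
    have e4 := h1 k
    have e5 := h2 k
    have e6 := h3 k
    have e7 := hle1 k
    rw [dist_comm] at e5
    rw [dist_comm (y1 k) y] at e1
    linarith
  obtain ⟨y', _, φ, hφ, hlim⟩ := (isCompact_closedBall y (dist (F y) x' + 4)).tendsto_subseq hbdd
  refine ⟨y', ?_, ?_⟩
  · have e1 : Tendsto (fun k => F (y2 (φ k))) atTop (𝓝 (F y')) :=
      (h.continuous.tendsto y').comp hlim
    exact tendsto_nhds_unique e1 (hFy2.comp hφ.tendsto_atTop)
  · have e1 : Tendsto (fun k => dist (y1 (φ k)) (y2 (φ k))) atTop (𝓝 (dist y y')) :=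
      (hy1.comp hφ.tendsto_atTop).dist hlim
    have e2 : Tendsto (fun k => dist (F (y1 (φ k))) (F (y2 (φ k))) + 1 / (((φ k : ℕ) : ℝ) + 1))
        atTop (𝓝 (dist (F y) x' + 0)) := by
      refine Tendsto.add (Tendsto.dist ?_ ?_) ?_
      · exact (h.continuous.tendsto y).comp (hy1.comp hφ.tendsto_atTop)
      · exact hFy2.comp hφ.tendsto_atTop
      · exact hlim0.comp hφ.tendsto_atTop
    have := le_of_tendsto_of_tendsto' e1 e2 (fun k => h3 (φ k))
    rwa [add_zero] at this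

/-- A motion that preserves the developed map near one point of a segment in the flat part
preserves it near all points of the segment. -/
theorem Dev.agree {R : Set X} {F : E n → X} (h : Dev R F)
    (hflat : ∀ x ∈ R, ∃ δ > 0, FlatAt n R x δ) {A : E n ≃ᵃⁱ[ℝ] E n} {C : Set (E n)}
    (hC : IsPreconnected C) (hCR : ∀ z ∈ C, F z ∈ R) {a : E n} (ha : a ∈ C)
    (haA : (fun z => F (A z)) =ᶠ[𝓝 a] F) : ∀ z ∈ C, (fun z => F (A z)) =ᶠ[𝓝 z] F := by
  have hFc := h.continuous
  have hFAc : Continuous fun z => F (A z) := hFc.comp A.continuous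
  have key : C ⊆ {z | (fun z => F (A z)) =ᶠ[𝓝 z] F} := by
    refine hC.subset_of_closure_inter_subset isOpen_setOfPred_eventually_nhds ⟨a, ha, haA⟩ ?_
    rintro z ⟨hz, hzC⟩
    have hcl : IsClosed {z | F (A z) = F z} := isClosed_eq hFAc hFc
    have hsub : {z | (fun z => F (A z)) =ᶠ[𝓝 z] F} ⊆ {z | F (A z) = F z} := by
      intro w hw
      exact Filter.Eventually.self_of_nhds (p := fun v => F (A v) = F v) hw
    have hzz : F (A z) = F z := (closure_minimal hsub hcl) hz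
    obtain ⟨δ, hδ, hfl⟩ := hflat _ (hCR z hzC)
    have h1 : IsoAt R F z δ := h.iso z δ hδ hfl
    have h2 : IsoAt R (fun z => F (A z)) z δ := by
      apply IsoAt.comp_affine
      exact h.iso _ δ hδ (by rw [hzz]; exact hfl)
    rw [Metric.mem_closure_iff] at hz
    obtain ⟨w, hw, hzw⟩ := hz δ hδ
    have hLI : ∀ G : E n → X, IsoAt R G z δ → ∀ v ∈ ball z δ, LI R G v := by
      intro G hG v hv
      have hv' : dist v z < δ := hv
      exact ⟨δ - dist v z, by linarith, hG.sub (by linarith) (by linarith)⟩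
    exact unique_of_local (convex_ball z δ).isPreconnected (hLI _ h2) (hLI _ h1)
      (u := w) (by rw [mem_ball, dist_comm]; exact hzw) hw z (mem_ball_self hδ)
  exact key

/-- The group of the developed map. -/
def devGroup (F : E n → X) : Subgroup (E n ≃ᵢ E n) where
  carrier := {g | ∀ y, F (g y) = F y}
  mul_mem' := by
    intro g h hg hh y
    rw [IsometryEquiv.mul_apply, hg, hh]
  one_mem' := by
    intro y
    rfl
  inv_mem' := by
    intro g hg y
    have := hg (g⁻¹ y)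
    rw [← this, IsometryEquiv.apply_inv_self]

theorem mem_devGroup {F : E n → X} {g : E n ≃ᵢ E n} : g ∈ devGroup F ↔ ∀ y, F (g y) = F y :=
  Iff.rfl

theorem Dev.trans_reg {R : Set X} {F : E n → X} (h : Dev R F)
    (hflat : ∀ x ∈ R, ∃ δ > 0, FlatAt n R x δ) {y y' : E n} (hy : F y ∈ R) (hyy : F y = F y') :
    ∃ g ∈ devGroup F, g y = y' := by
  obtain ⟨δ, hδ, hfl⟩ := hflat _ hy
  obtain ⟨A, hA1, hA2⟩ := compare hδ (h.iso y δ hδ hfl)
    (h.iso y' δ hδ (by rw [← hyy]; exact hfl)) hyy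
  have hFAc : Continuous fun z => F (A z) := h.continuous.comp A.continuous
  refine ⟨A.toIsometryEquiv, ?_, hA1⟩
  intro z'
  change F (A z') = F z'
  have hcl : IsClosed {z | F (A z) = F z} := isClosed_eq hFAc h.continuous
  have hd : Dense {z | F (A z) = F z} := by
    intro z0
    rw [mem_closure_iff_nhds]
    intro N hN
    have h1 : ball y δ ×ˢ N ∈ 𝓝 ((y, z0) : E n × E n) :=
      prod_mem_nhds (ball_mem_nhds y hδ) hN
    obtain ⟨ab, hab1, hab2⟩ := (mem_closure_iff_nhds.1 (h.dense_seg (y, z0))) _ h1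
    refine ⟨ab.2, hab1.2, ?_⟩
    have hev : (fun z => F (A z)) =ᶠ[𝓝 ab.1] F := by
      filter_upwards [isOpen_ball.mem_nhds hab1.1] with v hv
      exact (hA2 v hv).symm
    have := h.agree hflat (C := segment ℝ ab.1 ab.2)
      (convex_segment _ _).isPreconnected hab2 (left_mem_segment ℝ _ _) hev ab.2
      (right_mem_segment ℝ _ _)
    exact Filter.Eventually.self_of_nhds (p := fun v => F (A v) = F v) this
  exact hcl.closure_subset_iff.2 subset_rfl (hd z')

theorem Dev.free {R : Set X} {F : E n → X} (h : Dev R F)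
    (hflat : ∀ x ∈ R, ∃ δ > 0, FlatAt n R x δ) {y : E n} (hy : F y ∈ R) {g g' : E n ≃ᵢ E n}
    (hg : g ∈ devGroup F) (hg' : g' ∈ devGroup F) (he : g y = g' y) : g = g' := by
  obtain ⟨δ, hδ, hfl⟩ := hflat _ hy
  have h1 : IsoAt R F (g y) δ := h.iso _ δ hδ (by rw [hg y]; exact hfl)
  have h2 : ∀ z ∈ ball y δ, g z = g' z := by
    intro z hz
    refine h1.injOn ?_ ?_ ?_
    · rw [mem_ball, g.dist_eq]; exact hz
    · rw [mem_ball, he, g'.dist_eq]; exact hz
    · rw [hg z, hg' z]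
  have h3 : g.toRealAffineIsometryEquiv = g'.toRealAffineIsometryEquiv :=
    affine_ext isOpen_ball ⟨y, mem_ball_self hδ⟩ (fun z hz => h2 z hz)
  ext1 z
  have := congrArg (fun A : E n ≃ᵃⁱ[ℝ] E n => A z) h3
  exact this

theorem Dev.finite {R : Set X} {F : E n → X} (h : Dev R F)
    (hflat : ∀ x ∈ R, ∃ δ > 0, FlatAt n R x δ) (z : E n) (r : ℝ) :
    {g : E n ≃ᵢ E n | g ∈ devGroup F ∧ dist (g z) z ≤ r}.Finite := by
  obtain ⟨y, _, hy⟩ := h.exists_near z one_pos
  obtain ⟨δ, hδ, hfl⟩ := hflat _ hy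
  set r' := dist y z + r with hr'
  -- the fibre is finite in bounded sets
  have hfib : ({w : E n | F w = F y} ∩ closedBall z r').Finite := by
    obtain ⟨t, _, htf, hcov⟩ := (isCompact_closedBall z r').finite_cover_balls (e := δ / 2)
      (by linarith)
    have hsub : {w : E n | F w = F y} ∩ closedBall z r' ⊆
        ⋃ x ∈ t, ({w : E n | F w = F y} ∩ ball x (δ / 2)) := by
      rintro w ⟨hw1, hw2⟩
      have := hcov hw2
      simp only [mem_iUnion] at this ⊢
      obtain ⟨x, hx, hwx⟩ := this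
      exact ⟨x, hx, hw1, hwx⟩
    refine (htf.biUnion fun x _ => ?_).subset hsub
    apply Set.Subsingleton.finite
    rintro p ⟨hp1, hp2⟩ q ⟨hq1, hq2⟩
    have hp1' : F p = F y := hp1
    have hq1' : F q = F y := hq1
    have hi := h.iso p δ hδ (by rw [hp1']; exact hfl)
    refine hi.injOn (mem_ball_self hδ) ?_ (by rw [hp1', hq1'])
    rw [mem_ball] at hp2 hq2 ⊢
    calc dist q p ≤ dist q x + dist p x := dist_triangle_right _ _ _
      _ < δ := by linarith
  refine Set.Finite.of_finite_image (f := fun g : E n ≃ᵢ E n => g y) (hfib.subset ?_) ?_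
  · rintro _ ⟨g, ⟨hg1, hg2⟩, rfl⟩
    refine ⟨hg1 y, ?_⟩
    rw [mem_closedBall]
    calc dist (g y) z ≤ dist (g y) (g z) + dist (g z) z := dist_triangle _ _ _
      _ ≤ r' := by rw [g.dist_eq]; linarith
  · rintro g ⟨hg, _⟩ g' ⟨hg', _⟩ he
    exact h.free hflat hy hg hg' he

theorem Dev.trans {R : Set X} {F : E n → X} (h : Dev R F)
    (hflat : ∀ x ∈ R, ∃ δ > 0, FlatAt n R x δ) (hlen : LengthOn R) (hdense : Dense R)
    {y y' : E n} (hyy : F y = F y') : ∃ g ∈ devGroup F, g y = y' := by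
  by_contra hcon
  push Not at hcon
  set T : Set (E n ≃ᵢ E n) := {g | g ∈ devGroup F ∧ dist (g y) y ≤ dist y' y + 1} with hT
  have hTf : T.Finite := h.finite hflat y _
  have hm : ∃ m > 0, ∀ g ∈ T, m ≤ dist (g y) y' := by
    rcases T.eq_empty_or_nonempty with h0 | h0
    · exact ⟨1, one_pos, by simp [h0]⟩
    · obtain ⟨g0, hg0, hmin⟩ := hTf.exists_minimalFor (fun g : E n ≃ᵢ E n => dist (g y) y') T h0
      refine ⟨dist (g0 y) y', dist_pos.2 (hcon g0 hg0.1), fun g hg => ?_⟩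
      by_contra hlt
      push Not at hlt
      exact absurd (hmin hg hlt.le) (not_le.2 hlt)
  obtain ⟨m, hm0, hm⟩ := hm
  obtain ⟨y1, hy1, hy1R⟩ := h.exists_near y (ε := min m 1 / 4) (by positivity)
  obtain ⟨y2, hy2, hd2⟩ := h.submetry hflat hlen hdense y' (F y1)
  obtain ⟨g, hg, hgy⟩ := h.trans_reg hflat hy1R hy2.symm
  have hd3 : dist y' y2 ≤ dist y y1 := hd2.trans (by rw [← hyy]; exact h.lip _ _)
  have hd4 : dist (g y) y' ≤ 2 * dist y y1 := by
    calc dist (g y) y' ≤ dist (g y) (g y1) + dist (g y1) y' := dist_triangle _ _ _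
      _ ≤ dist y y1 + dist y y1 := by
          rw [g.dist_eq, hgy, dist_comm y2]
          linarith
      _ = 2 * dist y y1 := by ring
  have hmin1 : min m 1 ≤ 1 := min_le_right _ _
  have hmin2 : min m 1 ≤ m := min_le_left _ _
  have hgT : g ∈ T := by
    refine ⟨hg, ?_⟩
    calc dist (g y) y ≤ dist (g y) y' + dist y' y := dist_triangle _ _ _
      _ ≤ dist y' y + 1 := by linarith
  have := hm g hgT
  linarith

theorem Dev.min {R : Set X} {F : E n → X} (h : Dev R F)
    (hflat : ∀ x ∈ R, ∃ δ > 0, FlatAt n R x δ) (hlen : LengthOn R) (hdense : Dense R)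
    (y y' : E n) : ∃ g ∈ devGroup F, dist (g y) y' = dist (F y) (F y') := by
  obtain ⟨y2, h1, h2⟩ := h.submetry hflat hlen hdense y' (F y)
  obtain ⟨g, hg, hgy⟩ := h.trans hflat hlen hdense h1.symm
  refine ⟨g, hg, le_antisymm ?_ ?_⟩
  · rw [hgy, dist_comm, dist_comm (F y)]
    exact h2
  · have := h.lip (g y) y'
    rw [hg y] at this
    exact this

end Pool.Agent.Work.MP_fef182_gt
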