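import Mathlib

/-!
Flat spaces with singularities of codimension more than two: charts, rigidity, star domains.
-/

open Set Metric Filter Topology

namespace Pool.Agent.Work.MP_fef182_gt

/-- Euclidean space of dimension `n`. -/
abbrev E (n : ℕ) := EuclideanSpace ℝ (Fin n)

variable {n : ℕ} {X : Type*} [MetricSpace X]

/-- `F` is an isometry of the ball of radius `δ` about `y` onto the ball of radius `δ` about
`F y`, and that ball lies in `R`. -/
def IsoAt (R : Set X) (F : E n → X) (y : E n) (δ : ℝ) : Prop :=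
  (∀ a ∈ ball y δ, ∀ b ∈ ball y δ, dist (F a) (F b) = dist a b) ∧
    F '' ball y δ = ball (F y) δ ∧ ball (F y) δ ⊆ R

/-- `F` is a local isometry into `R` at `y`. -/
def LI (R : Set X) (F : E n → X) (y : E n) : Prop := ∃ δ > 0, IsoAt R F y δ

/-- `R` is flat of dimension `n` at `x` with radius `δ`. -/
def FlatAt (n : ℕ) (R : Set X) (x : X) (δ : ℝ) : Prop :=
  ∃ ψ : E n → X, ψ 0 = x ∧ IsoAt R ψ 0 δ

theorem affine_of_iso {f : E n → E n} {y : E n} {δ : ℝ} (hδ : 0 < δ)
    (h : ∀ a ∈ ball y δ, ∀ b ∈ ball y δ, dist (f a) (f b) = dist a b) :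
    ∃ A : E n ≃ᵃⁱ[ℝ] E n, ∀ z ∈ ball y δ, f z = A z := by
  classical
  set g : E n → E n := fun v => f (y + v) - f y with hg
  have hyy : y ∈ ball y δ := mem_ball_self hδ
  have hmem : ∀ v : E n, ‖v‖ < δ → y + v ∈ ball y δ := by
    intro v hv
    rw [mem_ball, dist_eq_norm]
    simpa using hv
  have hnorm : ∀ v : E n, ‖v‖ < δ → ‖g v‖ = ‖v‖ := by
    intro v hv
    have := h (y + v) (hmem v hv) y hyy
    rw [dist_eq_norm, dist_eq_norm] at this
    simpa [hg] using this
  have hsub : ∀ v w : E n, ‖v‖ < δ → ‖w‖ < δ → ‖g v - g w‖ = ‖v - w‖ := by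
    intro v w hv hw
    have := h (y + v) (hmem v hv) (y + w) (hmem w hw)
    rw [dist_eq_norm, dist_eq_norm] at this
    simpa [hg] using this
  have hinner : ∀ v w : E n, ‖v‖ < δ → ‖w‖ < δ → inner ℝ (g v) (g w) = inner ℝ v w := by
    intro v w hv hw
    rw [real_inner_eq_norm_mul_self_add_norm_mul_self_sub_norm_sub_mul_self_div_two,
      real_inner_eq_norm_mul_self_add_norm_mul_self_sub_norm_sub_mul_self_div_two,
      hsub v w hv hw, hnorm v hv, hnorm w hw]
  set e := EuclideanSpace.basisFun (Fin n) ℝ with he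
  set c : ℝ := δ / 2 with hc
  have hc0 : 0 < c := by positivity
  have hce : ∀ i, ‖c • e i‖ < δ := by
    intro i
    rw [norm_smul, e.norm_eq_one, Real.norm_of_nonneg hc0.le, mul_one, hc]
    linarith
  set b : Fin n → E n := fun i => c⁻¹ • g (c • e i) with hb
  have hbo : Orthonormal ℝ b := by
    rw [orthonormal_iff_ite]
    intro i j
    simp only [hb]
    rw [real_inner_smul_left, real_inner_smul_right, hinner _ _ (hce i) (hce j),
      real_inner_smul_left, real_inner_smul_right, (orthonormal_iff_ite.1 e.orthonormal) i j]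
    by_cases hij : i = j
    · simp [hij]; field_simp
    · simp [hij]
  obtain ⟨b', hb'⟩ := Orthonormal.exists_orthonormalBasis_extension_of_card_eq
    (𝕜 := ℝ) (E := E n) (ι := Fin n) (by simp) (v := b) (s := univ)
    (by
      have := hbo.comp (fun i : (univ : Set (Fin n)) => (i : Fin n)) Subtype.val_injective
      exact this)
  have hb'' : ∀ i, b' i = b i := fun i => hb' i (mem_univ i)
  set L : E n ≃ₗᵢ[ℝ] E n := e.equiv b' (Equiv.refl _) with hL
  have hLe : ∀ i, L (e i) = b' i := by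
    intro i
    simp [hL]
  have hgL : ∀ v : E n, ‖v‖ < δ → g v = L v := by
    intro v hv
    refine InnerProductSpace.ext_inner_right_basis b'.toBasis ?_
    intro i
    rw [OrthonormalBasis.coe_toBasis, ← hLe i, L.inner_map_map, hLe i, hb'' i]
    simp only [hb]
    rw [real_inner_smul_right, hinner v _ hv (hce i), real_inner_smul_right]
    field_simp
  refine ⟨AffineIsometryEquiv.mk' (fun z => L (z - y) + f y) L y (by
    intro p'
    simp), ?_⟩
  intro z hz
  have hz' : ‖z - y‖ < δ := by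
    rw [mem_ball, dist_eq_norm] at hz
    exact hz
  have := hgL (z - y) hz'
  simp only [hg] at this
  rw [add_sub_cancel] at this
  simp only [AffineIsometryEquiv.coe_mk']
  rw [← this]
  abel

theorem affine_ext {A B : E n ≃ᵃⁱ[ℝ] E n} {U : Set (E n)} (hU : IsOpen U) (hne : U.Nonempty)
    (h : ∀ z ∈ U, A z = B z) : A = B := by
  have h1 : (A.toAffineEquiv : E n →ᵃ[ℝ] E n) = (B.toAffineEquiv : E n →ᵃ[ℝ] E n) := by
    refine AffineMap.ext_on (s := U) (hU.affineSpan_eq_top hne) ?_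
    intro z hz
    exact h z hz
  ext1 z
  exact congrArg (fun f : E n →ᵃ[ℝ] E n => f z) h1


theorem IsoAt.mono {R : Set X} {F : E n → X} {y : E n} {δ δ' : ℝ} (h : IsoAt R F y δ)
    (h0 : 0 < δ') (hle : δ' ≤ δ) : IsoAt R F y δ' := by
  obtain ⟨h1, h2, h3⟩ := h
  have hsub : ball y δ' ⊆ ball y δ := ball_subset_ball hle
  have hy : y ∈ ball y δ := mem_ball_self (lt_of_lt_of_le h0 hle)
  refine ⟨fun a ha b hb => h1 a (hsub ha) b (hsub hb), ?_, (ball_subset_ball hle).trans h3⟩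
  apply Subset.antisymm
  · rintro _ ⟨a, ha, rfl⟩
    rw [mem_ball, h1 a (hsub ha) y hy]
    exact ha
  · intro z hz
    have hz' : z ∈ F '' ball y δ := by rw [h2]; exact ball_subset_ball hle hz
    obtain ⟨a, ha, rfl⟩ := hz'
    refine ⟨a, ?_, rfl⟩
    rw [mem_ball, ← h1 a ha y hy]
    exact hz

theorem IsoAt.sub {R : Set X} {F : E n → X} {y a : E n} {δ δ' : ℝ} (h : IsoAt R F y δ)
    (h0 : 0 < δ') (hle : dist a y + δ' ≤ δ) : IsoAt R F a δ' := by
  obtain ⟨h1, h2, h3⟩ := h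
  have hδ : 0 < δ := by
    have := dist_nonneg (x := a) (y := y)
    linarith
  have hsub : ball a δ' ⊆ ball y δ := ball_subset_ball' (by linarith)
  have hy : y ∈ ball y δ := mem_ball_self hδ
  have ha : a ∈ ball y δ := hsub (mem_ball_self h0)
  have hsubX : ball (F a) δ' ⊆ ball (F y) δ := by
    apply ball_subset_ball'
    rw [h1 a ha y hy]
    linarith
  refine ⟨fun b hb c hc => h1 b (hsub hb) c (hsub hc), ?_, hsubX.trans h3⟩
  apply Subset.antisymm
  · rintro _ ⟨b, hb, rfl⟩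
    rw [mem_ball, h1 b (hsub hb) a ha]
    exact hb
  · intro z hz
    have hz' : z ∈ F '' ball y δ := by rw [h2]; exact hsubX hz
    obtain ⟨b, hb, rfl⟩ := hz'
    refine ⟨b, ?_, rfl⟩
    rw [mem_ball, ← h1 b hb a ha]
    exact hz

theorem IsoAt.congr {R : Set X} {F F' : E n → X} {y : E n} {δ : ℝ} (h : IsoAt R F y δ)
    (h0 : 0 < δ) (he : ∀ z ∈ ball y δ, F' z = F z) : IsoAt R F' y δ := by
  obtain ⟨h1, h2, h3⟩ := h
  have hy : y ∈ ball y δ := mem_ball_self h0
  refine ⟨?_, ?_, ?_⟩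
  · intro a ha b hb
    rw [he a ha, he b hb, h1 a ha b hb]
  · rw [he y hy, ← h2]
    exact image_congr he
  · rw [he y hy]
    exact h3

theorem LI.nhds {R : Set X} {F : E n → X} {y : E n} (h : LI R F y) :
    ∀ᶠ z in 𝓝 y, LI R F z := by
  obtain ⟨δ, hδ, h⟩ := h
  filter_upwards [ball_mem_nhds y (half_pos hδ)] with z hz
  refine ⟨δ / 2, half_pos hδ, h.sub (half_pos hδ) ?_⟩
  rw [mem_ball] at hz
  linarith

theorem LI.congr {R : Set X} {F F' : E n → X} {y : E n} (h : LI R F y)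
    (he : F' =ᶠ[𝓝 y] F) : LI R F' y := by
  obtain ⟨δ, hδ, h⟩ := h
  obtain ⟨ε, hε, he⟩ := Metric.eventually_nhds_iff_ball.1 he
  refine ⟨min δ ε, lt_min hδ hε, ?_⟩
  refine (h.mono (lt_min hδ hε) (min_le_left _ _)).congr (lt_min hδ hε) ?_
  intro z hz
  exact he z (ball_subset_ball (min_le_right _ _) hz)

theorem IsoAt.continuousAt {R : Set X} {F : E n → X} {y : E n} {δ : ℝ} (h : IsoAt R F y δ)
    (h0 : 0 < δ) : ContinuousAt F y := by
  rw [Metric.continuousAt_iff]
  intro ε hε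
  refine ⟨min δ ε, lt_min h0 hε, ?_⟩
  intro z hz
  rw [h.1 z (lt_of_lt_of_le hz (min_le_left _ _)) y (mem_ball_self h0)]
  exact lt_of_lt_of_le hz (min_le_right _ _)

theorem LI.continuousAt {R : Set X} {F : E n → X} {y : E n} (h : LI R F y) :
    ContinuousAt F y := by
  obtain ⟨δ, hδ, h⟩ := h
  exact h.continuousAt hδ

theorem LI.mem {R : Set X} {F : E n → X} {y : E n} (h : LI R F y) : F y ∈ R := by
  obtain ⟨δ, hδ, h⟩ := h
  exact h.2.2 (mem_ball_self hδ)

theorem IsoAt.injOn {R : Set X} {F : E n → X} {y a b : E n} {δ : ℝ} (h : IsoAt R F y δ)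
    (ha : a ∈ ball y δ) (hb : b ∈ ball y δ) (hab : F a = F b) : a = b := by
  rw [← dist_eq_zero, ← h.1 a ha b hb, hab, dist_self]

theorem compare {R R' : Set X} {F F' : E n → X} {y y' : E n} {δ : ℝ} (h0 : 0 < δ)
    (h : IsoAt R F y δ) (h' : IsoAt R' F' y' δ) (he : F y = F' y') :
    ∃ A : E n ≃ᵃⁱ[ℝ] E n, A y = y' ∧ ∀ z ∈ ball y δ, F z = F' (A z) := by
  have hex : ∀ z : E n, ∃ w : E n, z ∈ ball y δ → w ∈ ball y' δ ∧ F' w = F z := by
    intro z
    by_cases hz : z ∈ ball y δ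
    · have : F z ∈ F' '' ball y' δ := by
        rw [h'.2.1, ← he, ← h.2.1]
        exact mem_image_of_mem _ hz
      obtain ⟨w, hw, hw'⟩ := this
      exact ⟨w, fun _ => ⟨hw, hw'⟩⟩
    · exact ⟨0, fun hz' => absurd hz' hz⟩
  choose f hf using hex
  obtain ⟨A, hA⟩ := affine_of_iso (f := f) (y := y) h0 (by
    intro a ha b hb
    rw [← h'.1 _ (hf a ha).1 _ (hf b hb).1, (hf a ha).2, (hf b hb).2, h.1 a ha b hb])
  have hy : y ∈ ball y δ := mem_ball_self h0
  refine ⟨A, ?_, ?_⟩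
  · rw [← hA y hy]
    refine h'.injOn (hf y hy).1 (mem_ball_self h0) ?_
    rw [(hf y hy).2, he]
  · intro z hz
    rw [← hA z hz, (hf z hz).2]

theorem LI_ne_nhds {R : Set X} {F F' : E n → X} {z : E n}
    (hF : LI R F z) (hF' : LI R F' z) (hne : F z ≠ F' z) : ∀ᶠ w in 𝓝 z, F w ≠ F' w := by
  have h := (hF.continuousAt.prodMk hF'.continuousAt)
  have h2 : {p : X × X | p.1 ≠ p.2} ∈ 𝓝 (F z, F' z) :=
    (isClosed_diagonal.isOpen_compl).mem_nhds (by simpa [diagonal] using hne)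
  exact h h2

/-- Rigidity: two local isometries agreeing near a point agree. -/
theorem unique_of_local {R : Set X} {F F' : E n → X} {C : Set (E n)}
    (hC : IsPreconnected C) (hF : ∀ z ∈ C, LI R F z) (hF' : ∀ z ∈ C, LI R F' z) {u : E n}
    (hu : u ∈ C) (he : F =ᶠ[𝓝 u] F') : ∀ z ∈ C, F =ᶠ[𝓝 z] F' := by
  have key : C ⊆ {z | F =ᶠ[𝓝 z] F'} := by
    refine hC.subset_of_closure_inter_subset isOpen_setOfPred_eventually_nhds ⟨u, hu, he⟩ ?_
    rintro z ⟨hz, hzC⟩
    obtain ⟨δ, hδ, h⟩ := hF z hzC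
    obtain ⟨δ', hδ', h'⟩ := hF' z hzC
    have hm : 0 < min δ δ' := lt_min hδ hδ'
    have h1 := h.mono hm (min_le_left _ _)
    have h2 := h'.mono hm (min_le_right _ _)
    have hzz : F z = F' z := by
      by_contra hne
      have hev : ∀ᶠ w in 𝓝 z, F w ≠ F' w :=
        LI_ne_nhds (hF z hzC) (hF' z hzC) hne
      rw [mem_closure_iff_frequently] at hz
      obtain ⟨w, hw1, hw2⟩ := (hz.and_eventually hev).exists
      exact hw2 (Filter.Eventually.self_of_nhds (p := fun v => F v = F' v) hw1)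
    obtain ⟨A, hA1, hA2⟩ := compare hm h1 h2 hzz
    rw [Metric.mem_closure_iff] at hz
    obtain ⟨w, hw, hzw⟩ := hz (min δ δ' / 2) (half_pos hm)
    have hww : ∀ᶠ v in 𝓝 w, A v = v := by
      have hball : ball z (min δ δ') ∈ 𝓝 w := isOpen_ball.mem_nhds (by
        rw [mem_ball, dist_comm]; linarith)
      have hAb : ∀ v ∈ ball z (min δ δ'), A v ∈ ball z (min δ δ') := by
        intro v hv
        have h3 : dist (A v) (A z) = dist v z := A.dist_map v z
        rw [hA1] at h3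
        rw [mem_ball, h3]
        exact hv
      filter_upwards [hball, (hw : ∀ᶠ v in 𝓝 w, F v = F' v)] with v hv hv'
      refine h2.injOn (hAb v hv) hv ?_
      rw [← hA2 v hv, hv']
    have hAid : A = AffineIsometryEquiv.refl ℝ (E n) := by
      obtain ⟨U, hU, hUo, hwU⟩ := _root_.eventually_nhds_iff.1 hww
      exact affine_ext hUo ⟨w, hwU⟩ (fun v hv => hU v hv)
    have hgoal : ∀ᶠ v in 𝓝 z, F v = F' v := by
      filter_upwards [ball_mem_nhds z hm] with v hv
      rw [hA2 v hv, hAid]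
      rfl
    exact hgoal
  exact key

end Pool.Agent.Work.MP_fef182_gt
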