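import Pool.Agent.Work.MP_fef182_gt.Strata
import Pool.Agent.Work.MP_fef182_gt.FLa

/-!
Flat spaces: the singular set of the local models.
-/

open Set Metric Filter Topology

namespace Pool.Agent.Work.MP_fef182_gt

open Pool.Agent.FEF

/-- A ball about `x` is isometric to a Euclidean ball of dimension `n`. -/
def Regular (n : ℕ) {X : Type*} [MetricSpace X] (x : X) : Prop :=
  ∃ ρ : ℝ, 0 < ρ ∧ ∃ ψ : E n → X, ψ 0 = x ∧ ψ '' ball 0 ρ = ball x ρ ∧
    ∀ a ∈ ball (0 : E n) ρ, ∀ b ∈ ball (0 : E n) ρ, dist (ψ a) (ψ b) = dist a b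

variable {n : ℕ} {X : Type*} [MetricSpace X]

/-- The chart of a local model. -/
structure ModelChart (n : ℕ) {X : Type*} [MetricSpace X] (x : X) (ρ : ℝ)
    (G : Subgroup (E 4 ≃ₗᵢ[ℝ] E 4)) (φ : E (n - 4) × E 4 → X) : Prop where
  pos : 0 < ρ
  fin : Finite G
  free : ∀ γ ∈ G, γ ≠ 1 → ∀ z, γ z = z → z = 0
  base : φ (0, 0) = x
  img : φ '' {p | ‖p.1‖ ^ 2 + ‖p.2‖ ^ 2 < ρ ^ 2} = ball x ρ
  le : ∀ p q, ‖p.1‖ ^ 2 + ‖p.2‖ ^ 2 < ρ ^ 2 → ‖q.1‖ ^ 2 + ‖q.2‖ ^ 2 < ρ ^ 2 →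
    ∀ γ ∈ G, dist (φ p) (φ q) ^ 2 ≤ ‖p.1 - q.1‖ ^ 2 + ‖γ p.2 - q.2‖ ^ 2
  ex : ∀ p q, ‖p.1‖ ^ 2 + ‖p.2‖ ^ 2 < ρ ^ 2 → ‖q.1‖ ^ 2 + ‖q.2‖ ^ 2 < ρ ^ 2 →
    ∃ γ ∈ G, dist (φ p) (φ q) ^ 2 = ‖p.1 - q.1‖ ^ 2 + ‖γ p.2 - q.2‖ ^ 2

theorem model_chart {x : X} (h : Model n x) :
    ∃ ρ G φ, ModelChart n x ρ G φ := by
  obtain ⟨ρ, hρ, G, hG, hfree, φ, h0, himg, hd⟩ := h
  exact ⟨ρ, G, φ, hρ, hG, hfree, h0, himg, fun p q hp hq => (hd p q hp hq).1,
    fun p q hp hq => (hd p q hp hq).2⟩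

theorem ModelChart.dist_base {x : X} {ρ : ℝ} {G : Subgroup (E 4 ≃ₗᵢ[ℝ] E 4)}
    {φ : E (n - 4) × E 4 → X} (h : ModelChart n x ρ G φ) (s : E (n - 4)) (q : E (n - 4) × E 4)
    (hs : ‖s‖ ^ 2 < ρ ^ 2) (hq : ‖q.1‖ ^ 2 + ‖q.2‖ ^ 2 < ρ ^ 2) :
    dist (φ (s, 0)) (φ q) ^ 2 = ‖s - q.1‖ ^ 2 + ‖q.2‖ ^ 2 := by
  obtain ⟨γ, _, hγ⟩ := h.ex (s, 0) q (by simpa using hs) hq
  rw [hγ]
  simp

theorem ModelChart.dist_center {x : X} {ρ : ℝ} {G : Subgroup (E 4 ≃ₗᵢ[ℝ] E 4)}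
    {φ : E (n - 4) × E 4 → X} (h : ModelChart n x ρ G φ) (q : E (n - 4) × E 4)
    (hq : ‖q.1‖ ^ 2 + ‖q.2‖ ^ 2 < ρ ^ 2) :
    dist x (φ q) ^ 2 = ‖q.1‖ ^ 2 + ‖q.2‖ ^ 2 := by
  have h1 := h.dist_base 0 q (by simpa using pow_pos h.pos 2) hq
  rw [h.base] at h1
  rw [h1]
  simp

theorem ModelChart.regular {x : X} {ρ : ℝ} {G : Subgroup (E 4 ≃ₗᵢ[ℝ] E 4)}
    {φ : E (n - 4) × E 4 → X} (h : ModelChart n x ρ G φ) (hn : 4 ≤ n) (p : E (n - 4) × E 4)
    (hp : ‖p.1‖ ^ 2 + ‖p.2‖ ^ 2 < ρ ^ 2) (hG : G = ⊥ ∨ p.2 ≠ 0) : Regular n (φ p) := by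
  classical
  -- separation of the orbit
  have hδ : ∃ δ > 0, ∀ γ ∈ G, γ ≠ 1 → δ ≤ ‖γ p.2 - p.2‖ := by
    rcases hG with hG | hG
    · refine ⟨1, one_pos, fun γ hγ h1 => ?_⟩
      rw [hG] at hγ
      exact absurd (Subgroup.mem_bot.1 hγ) h1
    · have := h.fin
      have hfin : (G : Set (E 4 ≃ₗᵢ[ℝ] E 4)).Finite := Set.toFinite _
      have hfin' : ((G : Set (E 4 ≃ₗᵢ[ℝ] E 4)) \ {1}).Finite := hfin.subset sdiff_subset
      rcases ((G : Set (E 4 ≃ₗᵢ[ℝ] E 4)) \ {1}).eq_empty_or_nonempty with h0 | h0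
      · refine ⟨1, one_pos, fun γ hγ h1 => ?_⟩
        exact absurd (h0 ▸ (⟨hγ, h1⟩ : γ ∈ (G : Set (E 4 ≃ₗᵢ[ℝ] E 4)) \ {1}))
          (notMem_empty γ)
      · obtain ⟨g, hg, hmin⟩ := hfin'.exists_minimalFor
          (fun γ : E 4 ≃ₗᵢ[ℝ] E 4 => ‖γ p.2 - p.2‖) _ h0
        refine ⟨‖g p.2 - p.2‖, ?_, fun γ hγ h1 => ?_⟩
        · rw [gt_iff_lt, norm_pos_iff, sub_ne_zero]
          exact fun h2 => hG (h.free g hg.1 hg.2 _ h2)
        · by_contra hlt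
          push Not at hlt
          exact absurd (hmin ⟨hγ, h1⟩ hlt.le) (not_le.2 hlt)
  obtain ⟨δ, hδ, hsep⟩ := hδ
  set P := WithLp 2 (E (n - 4) × E 4) with hP
  have hrank : Module.finrank ℝ P = n := by
    have h2 : Module.finrank ℝ P = Module.finrank ℝ (E (n - 4) × E 4) :=
      LinearEquiv.finrank_eq (WithLp.linearEquiv 2 ℝ (E (n - 4) × E 4))
    rw [h2, Module.finrank_prod]
    simp
    omega
  let e : E n ≃ₗᵢ[ℝ] P := ((stdOrthonormalBasis ℝ P).reindex (finCongr hrank)).repr.symm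
  have hsq : ∀ q : P, ‖q‖ ^ 2 = ‖q.fst‖ ^ 2 + ‖q.snd‖ ^ 2 := fun q =>
    WithLp.prod_norm_sq_eq_of_L2 q
  set p0 : P := WithLp.toLp 2 p with hp0
  have hp0f : p0.fst = p.1 := rfl
  have hp0s : p0.snd = p.2 := rfl
  have hp0n : ‖p0‖ < ρ := by
    have : ‖p0‖ ^ 2 < ρ ^ 2 := by rw [hsq, hp0f, hp0s]; exact hp
    exact lt_of_pow_lt_pow_left₀ 2 h.pos.le this
  have hdom : ∀ q : P, ‖q‖ < ρ → ‖q.fst‖ ^ 2 + ‖q.snd‖ ^ 2 < ρ ^ 2 := by
    intro q hq
    rw [← hsq]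
    exact pow_lt_pow_left₀ hq (norm_nonneg q) two_ne_zero
  set r := min (ρ - ‖p0‖) (δ / 4) with hr
  have hr0 : 0 < r := lt_min (by linarith) (by positivity)
  have hrρ : r ≤ ρ - ‖p0‖ := min_le_left _ _
  have hrδ : r ≤ δ / 4 := min_le_right _ _
  set Φ : P → X := fun q => φ (q.fst, q.snd) with hΦ
  -- isometric near `p0`
  have hiso : ∀ a : P, ‖a - p0‖ < r → ∀ b : P, ‖b - p0‖ < r → dist (Φ a) (Φ b) = ‖a - b‖ := by
    intro a ha b hb
    have ha' : ‖a‖ < ρ := by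
      have := norm_le_norm_add_norm_sub' a p0
      linarith
    have hb' : ‖b‖ < ρ := by
      have := norm_le_norm_add_norm_sub' b p0
      linarith
    have h1 := h.le (a.fst, a.snd) (b.fst, b.snd) (hdom a ha') (hdom b hb') 1 (one_mem G)
    obtain ⟨γ, hγ, h2⟩ := h.ex (a.fst, a.snd) (b.fst, b.snd) (hdom a ha') (hdom b hb')
    have hab : ‖a - b‖ ^ 2 = ‖a.fst - b.fst‖ ^ 2 + ‖a.snd - b.snd‖ ^ 2 := by
      rw [hsq]; rfl
    simp only [LinearIsometryEquiv.coe_one, id] at h1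
    have hsnd : ∀ c : P, ‖c.snd - p.2‖ ≤ ‖c - p0‖ := by
      intro c
      have e1 : ‖c - p0‖ ^ 2 = ‖c.fst - p.1‖ ^ 2 + ‖c.snd - p.2‖ ^ 2 := by
        rw [hsq]; rfl
      refine (sq_le_sq₀ (norm_nonneg _) (norm_nonneg _)).1 ?_
      rw [e1]
      nlinarith [sq_nonneg ‖c.fst - p.1‖]
    have hkey : dist (Φ a) (Φ b) ^ 2 = ‖a - b‖ ^ 2 := by
      rw [hab]
      by_cases hγ1 : γ = 1
      · rw [hγ1] at h2
        exact h2
      · exfalso
        have e1 := hsep γ hγ hγ1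
        have e2 : ‖γ p.2 - p.2‖ ≤ ‖γ a.snd - b.snd‖ + ‖a.snd - p.2‖ + ‖b.snd - p.2‖ := by
          have e3 : γ p.2 - p.2 = (γ a.snd - b.snd) - γ (a.snd - p.2) + (b.snd - p.2) := by
            rw [map_sub]; abel
          rw [e3]
          refine (norm_add_le _ _).trans ?_
          have e4 := norm_sub_le (γ a.snd - b.snd) (γ (a.snd - p.2))
          rw [γ.norm_map] at e4
          linarith
        have e5 := hsnd a
        have e6 := hsnd b
        have e7 : ‖a.snd - b.snd‖ ≤ ‖a.snd - p.2‖ + ‖b.snd - p.2‖ := by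
          have : a.snd - b.snd = (a.snd - p.2) - (b.snd - p.2) := by abel
          rw [this]
          exact norm_sub_le _ _
        have e8 : ‖a.snd - b.snd‖ < ‖γ a.snd - b.snd‖ := by linarith
        have e9 : ‖a.snd - b.snd‖ ^ 2 < ‖γ a.snd - b.snd‖ ^ 2 :=
          pow_lt_pow_left₀ e8 (norm_nonneg _) two_ne_zero
        have h2' : dist (φ (a.fst, a.snd)) (φ (b.fst, b.snd)) ^ 2 =
          ‖a.fst - b.fst‖ ^ 2 + ‖γ a.snd - b.snd‖ ^ 2 := h2
        linarith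
    exact (pow_left_inj₀ dist_nonneg (norm_nonneg _) two_ne_zero).1 hkey
  refine ⟨r, hr0, fun a => Φ (p0 + e a), ?_, ?_, ?_⟩
  · simp only [map_zero, add_zero]
    rfl
  · apply Subset.antisymm
    · rintro _ ⟨a, ha, rfl⟩
      rw [mem_ball, dist_comm]
      have ha' : ‖a‖ < r := by simpa using ha
      have h1 := hiso p0 (by simpa using hr0) (p0 + e a) (by
        rw [add_sub_cancel_left, e.norm_map]; exact ha')
      have h2 : ‖p0 - (p0 + e a)‖ = ‖a‖ := by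
        rw [sub_add_cancel_left, norm_neg, e.norm_map]
      have h3 : Φ p0 = φ p := rfl
      rw [← h3, h1, h2]
      exact ha'
    · intro y hy
      have hxp : dist (φ p) x ≤ ‖p0‖ := by
        have h1 := h.dist_center p hp
        rw [← hp0f, ← hp0s, ← hsq] at h1
        rw [dist_comm]
        exact ((pow_left_inj₀ dist_nonneg (norm_nonneg _) two_ne_zero).1 h1).le
      have hyx : y ∈ ball x ρ := by
        rw [mem_ball] at hy ⊢
        calc dist y x ≤ dist y (φ p) + dist (φ p) x := dist_triangle _ _ _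
          _ < ρ := by linarith
      rw [← h.img] at hyx
      obtain ⟨q, hq, rfl⟩ := hyx
      obtain ⟨γ, hγ, h2⟩ := h.ex p q hp hq
      have hγq : ‖γ⁻¹ q.2‖ = ‖q.2‖ := (γ⁻¹).norm_map _
      have hγγ : γ (γ⁻¹ q.2) = q.2 := by
        have : (γ * γ⁻¹) q.2 = q.2 := by rw [mul_inv_cancel]; rfl
        exact this
      have hq' : ‖((q.1, γ⁻¹ q.2) : E (n - 4) × E 4).1‖ ^ 2 +
          ‖((q.1, γ⁻¹ q.2) : E (n - 4) × E 4).2‖ ^ 2 < ρ ^ 2 := by
        simp only [hγq]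
        exact hq
      have h3 : φ (q.1, γ⁻¹ q.2) = φ q := by
        have h4 := h.le (q.1, γ⁻¹ q.2) q hq' hq γ hγ
        simp only [hγγ, sub_self, norm_zero] at h4
        have h5 : dist (φ (q.1, γ⁻¹ q.2)) (φ q) ^ 2 ≤ 0 := by simpa using h4
        have h6 : dist (φ (q.1, γ⁻¹ q.2)) (φ q) = 0 := by
          have := le_antisymm h5 (sq_nonneg _)
          exact pow_eq_zero_iff two_ne_zero |>.1 this
        exact dist_eq_zero.1 h6
      set q' : P := WithLp.toLp 2 (q.1, γ⁻¹ q.2) with hq'def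
      have h7 : ‖q' - p0‖ ^ 2 = dist (φ p) (φ q) ^ 2 := by
        rw [h2, hsq]
        have e1 : (q' - p0).fst = q.1 - p.1 := rfl
        have e2 : (q' - p0).snd = γ⁻¹ q.2 - p.2 := rfl
        rw [e1, e2, norm_sub_rev q.1, ← γ.norm_map (γ⁻¹ q.2 - p.2), map_sub, hγγ,
          norm_sub_rev q.2]
      have h8 : ‖q' - p0‖ < r := by
        have h9 : ‖q' - p0‖ = dist (φ p) (φ q) :=
          (pow_left_inj₀ (norm_nonneg _) dist_nonneg two_ne_zero).1 h7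
        rw [h9, dist_comm]
        exact hy
      refine ⟨e.symm (q' - p0), ?_, ?_⟩
      · rw [mem_ball_zero_iff, e.symm.norm_map]
        exact h8
      · simp only [e.apply_symm_apply, add_sub_cancel]
        exact h3
  · intro a ha b hb
    have ha' : ‖a‖ < r := by simpa using ha
    have hb' : ‖b‖ < r := by simpa using hb
    rw [hiso (p0 + e a) (by rw [add_sub_cancel_left, e.norm_map]; exact ha') (p0 + e b)
      (by rw [add_sub_cancel_left, e.norm_map]; exact hb'), add_sub_add_left_eq_sub, ← map_sub,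
      e.norm_map, dist_eq_norm]

theorem ModelChart.singular {x : X} {ρ : ℝ} {G : Subgroup (E 4 ≃ₗᵢ[ℝ] E 4)}
    {φ : E (n - 4) × E 4 → X} (h : ModelChart n x ρ G φ) (hG : G ≠ ⊥) (s : E (n - 4))
    (hs : ‖s‖ < ρ) : ¬ Regular n (φ (s, 0)) := by
  rintro ⟨ρ', hρ', ψ, hψ0, hψimg, hψ⟩
  have hs2 : ‖s‖ ^ 2 < ρ ^ 2 := pow_lt_pow_left₀ hs (norm_nonneg s) two_ne_zero
  set t := min (ρ' / 2) ((ρ - ‖s‖) / 2) with ht
  have ht0 : 0 < t := lt_min (by linarith) (by linarith)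
  have ht1 : t < ρ' := lt_of_le_of_lt (min_le_left _ _) (by linarith)
  have ht2 : ‖s‖ + t < ρ := by
    have : t ≤ (ρ - ‖s‖) / 2 := min_le_right _ _
    linarith
  have ht3 : ‖s‖ ^ 2 + t ^ 2 < ρ ^ 2 := by
    have := norm_nonneg s
    nlinarith
  set z : E 4 := t • EuclideanSpace.single (0 : Fin 4) (1 : ℝ) with hz
  have hzn : ‖z‖ = t := by
    rw [hz, norm_smul]
    simp [abs_of_pos ht0]
  have hzne : z ≠ 0 := by
    intro h0
    rw [h0, norm_zero] at hzn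
    exact ht0.ne hzn
  have hzdom : ‖((s, z) : E (n - 4) × E 4).1‖ ^ 2 + ‖((s, z) : E (n - 4) × E 4).2‖ ^ 2 <
      ρ ^ 2 := by
    simp only [hzn]
    exact ht3
  have hd1 : dist (φ (s, 0)) (φ (s, z)) = t := by
    have h1 := h.dist_base s (s, z) hs2 hzdom
    simp only [sub_self, norm_zero, hzn] at h1
    have h2 : dist (φ (s, 0)) (φ (s, z)) ^ 2 = t ^ 2 := by simpa using h1
    exact (pow_left_inj₀ dist_nonneg ht0.le two_ne_zero).1 h2
  -- the antipode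
  obtain ⟨v, hv, hvz⟩ : φ (s, z) ∈ ψ '' ball 0 ρ' := by
    rw [hψimg, mem_ball, dist_comm, hd1]
    exact ht1
  have h0mem : (0 : E n) ∈ ball (0 : E n) ρ' := mem_ball_self hρ'
  have hvn : ‖v‖ = t := by
    have h1 := hψ 0 h0mem v hv
    rw [hψ0, hvz, hd1, dist_zero_left] at h1
    exact h1.symm
  have hnv : -v ∈ ball (0 : E n) ρ' := by
    rw [mem_ball_zero_iff, norm_neg, hvn]; exact ht1
  have hd2 : dist (φ (s, 0)) (ψ (-v)) = t := by
    have h1 := hψ 0 h0mem (-v) hnv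
    rw [hψ0, dist_zero_left, norm_neg, hvn] at h1
    exact h1
  have hd3 : dist (φ (s, z)) (ψ (-v)) = 2 * t := by
    have h1 := hψ v hv (-v) hnv
    rw [hvz, dist_eq_norm, sub_neg_eq_add, ← two_smul ℝ v, norm_smul, hvn] at h1
    simpa using h1
  have hxs : dist x (φ (s, 0)) = ‖s‖ := by
    have h1 := h.dist_center (s, 0) (by simpa using hs2)
    have h2 : dist x (φ (s, 0)) ^ 2 = ‖s‖ ^ 2 := by simpa using h1
    exact (pow_left_inj₀ dist_nonneg (norm_nonneg _) two_ne_zero).1 h2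
  obtain ⟨q, hq, hqψ⟩ : ψ (-v) ∈ φ '' {p | ‖p.1‖ ^ 2 + ‖p.2‖ ^ 2 < ρ ^ 2} := by
    rw [h.img, mem_ball, dist_comm]
    calc dist x (ψ (-v)) ≤ dist x (φ (s, 0)) + dist (φ (s, 0)) (ψ (-v)) := dist_triangle _ _ _
      _ < ρ := by rw [hxs, hd2]; exact ht2
  have e1 : t ^ 2 = ‖s - q.1‖ ^ 2 + ‖q.2‖ ^ 2 := by
    have h1 := h.dist_base s q hs2 hq
    rw [hqψ, hd2] at h1
    exact h1
  have e2 : ∀ γ ∈ G, (2 * t) ^ 2 ≤ ‖s - q.1‖ ^ 2 + ‖γ z - q.2‖ ^ 2 := by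
    intro γ hγ
    have h1 := h.le (s, z) q hzdom hq γ hγ
    rw [hqψ, hd3] at h1
    exact h1
  have hfix : ∀ γ ∈ G, γ z = -q.2 := by
    intro γ hγ
    have h1 := e2 γ hγ
    have h2 : ‖γ z - q.2‖ ^ 2 = ‖γ z‖ ^ 2 - 2 * inner ℝ (γ z) q.2 + ‖q.2‖ ^ 2 :=
      norm_sub_sq_real _ _
    have h3 : ‖γ z + q.2‖ ^ 2 = ‖γ z‖ ^ 2 + 2 * inner ℝ (γ z) q.2 + ‖q.2‖ ^ 2 :=
      norm_add_sq_real _ _
    have h4 : ‖γ z‖ = t := by rw [γ.norm_map, hzn]
    rw [h4] at h2 h3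
    have h5 : 0 ≤ ‖γ z + q.2‖ ^ 2 := sq_nonneg _
    have h6 : ‖γ z + q.2‖ ^ 2 ≤ 0 := by
      rw [h3]
      nlinarith [sq_nonneg ‖s - q.1‖, sq_nonneg ‖q.2‖]
    have h7 : ‖γ z + q.2‖ = 0 := by
      have := le_antisymm h6 h5
      exact (pow_eq_zero_iff two_ne_zero).1 this
    rw [norm_eq_zero] at h7
    exact eq_neg_of_add_eq_zero_left h7
  apply hG
  rw [Subgroup.eq_bot_iff_forall]
  intro γ hγ
  by_contra hne
  have h1 : γ z = z := by
    have h2 := hfix γ hγ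
    have h3 := hfix 1 (one_mem G)
    simp only [LinearIsometryEquiv.coe_one, id] at h3
    rw [h2, ← h3]
  exact hzne (h.free γ hγ hne z h1)

/-- The singular points of an open set of model points form a countable union of isometric copies
of balls of dimension `n - 4`. -/
theorem singular_pieces [Nonempty X] [SecondCountableTopology X] (hn : 4 ≤ n) {U : Set X} (hU : IsOpen U)
    (hmod : ∀ x ∈ U, Model n x) :
    ∃ (T : ℕ → E (n - 4) → X) (r : ℕ → ℝ),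
      (∀ k, ∀ a ∈ ball (0 : E (n - 4)) (r k), ∀ b ∈ ball (0 : E (n - 4)) (r k),
        dist (T k a) (T k b) = dist a b) ∧
      {x | x ∈ U ∧ ¬ Regular n x} = ⋃ k, T k '' ball 0 (r k) := by
  classical
  -- local statement
  have hloc : ∀ x : X, ∃ (N : Set X) (T : E (n - 4) → X) (r : ℝ), x ∈ U → (IsOpen N ∧ x ∈ N ∧
      (∀ a ∈ ball (0 : E (n - 4)) r, ∀ b ∈ ball (0 : E (n - 4)) r,
        dist (T a) (T b) = dist a b) ∧
      {y | y ∈ N ∧ ¬ Regular n y} = T '' ball 0 r ∧ N ⊆ U) := by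
    intro x
    by_cases hx : x ∈ U
    swap
    · exact ⟨∅, fun _ => x, 0, fun h => absurd h hx⟩
    obtain ⟨ρ, G, φ, h⟩ := model_chart (hmod x hx)
    obtain ⟨ε, hε, hεU⟩ := Metric.isOpen_iff.1 hU x hx
    set ρ' := min ρ ε with hρ'
    have hρ'0 : 0 < ρ' := lt_min h.pos hε
    have hρ'ρ : ρ' ≤ ρ := min_le_left _ _
    refine ⟨ball x ρ', fun s => φ (s, 0), if G = ⊥ then 0 else ρ', fun _ => ⟨isOpen_ball,
      mem_ball_self hρ'0, ?_, ?_, (ball_subset_ball (min_le_right _ _)).trans hεU⟩⟩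
    · intro a ha b hb
      by_cases hG : G = ⊥
      · rw [if_pos hG, ball_zero] at ha
        exact absurd ha (notMem_empty a)
      · rw [if_neg hG, mem_ball_zero_iff] at ha hb
        have ha2 : ‖a‖ ^ 2 < ρ ^ 2 :=
          pow_lt_pow_left₀ (lt_of_lt_of_le ha hρ'ρ) (norm_nonneg a) two_ne_zero
        have hb2 : ‖b‖ ^ 2 < ρ ^ 2 :=
          pow_lt_pow_left₀ (lt_of_lt_of_le hb hρ'ρ) (norm_nonneg b) two_ne_zero
        have h1 := h.dist_base a (b, 0) ha2 (by simpa using hb2)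
        have h2 : dist (φ (a, 0)) (φ (b, 0)) ^ 2 = dist a b ^ 2 := by
          rw [h1, dist_eq_norm]
          simp
        exact (pow_left_inj₀ dist_nonneg dist_nonneg two_ne_zero).1 h2
    · apply Subset.antisymm
      · rintro y ⟨hy, hyr⟩
        have hyρ : y ∈ ball x ρ := ball_subset_ball hρ'ρ hy
        rw [← h.img] at hyρ
        obtain ⟨p, hp, rfl⟩ := hyρ
        have hnot : ¬ (G = ⊥ ∨ p.2 ≠ 0) := fun hc => hyr (h.regular hn p hp hc)
        push Not at hnot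
        obtain ⟨hG, hp2⟩ := hnot
        rw [if_neg hG]
        refine ⟨p.1, ?_, ?_⟩
        · rw [mem_ball_zero_iff]
          have h1 := h.dist_center p hp
          rw [hp2, norm_zero] at h1
          have h2 : dist x (φ p) ^ 2 = ‖p.1‖ ^ 2 := by simpa using h1
          have h3 := (pow_left_inj₀ dist_nonneg (norm_nonneg _) two_ne_zero).1 h2
          rw [← h3, dist_comm]
          exact hy
        · have : p = (p.1, 0) := Prod.ext rfl hp2
          change φ (p.1, 0) = φ p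
          rw [← this]
      · rintro _ ⟨s, hs, rfl⟩
        by_cases hG : G = ⊥
        · rw [if_pos hG, ball_zero] at hs
          exact absurd hs (notMem_empty s)
        · rw [if_neg hG, mem_ball_zero_iff] at hs
          have hsρ : ‖s‖ < ρ := lt_of_lt_of_le hs hρ'ρ
          have hs2 : ‖s‖ ^ 2 < ρ ^ 2 := pow_lt_pow_left₀ hsρ (norm_nonneg s) two_ne_zero
          refine ⟨?_, h.singular hG s hsρ⟩
          have h1 := h.dist_center (s, 0) (by simpa using hs2)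
          have h2 : dist x (φ (s, 0)) ^ 2 = ‖s‖ ^ 2 := by simpa using h1
          have h3 := (pow_left_inj₀ dist_nonneg (norm_nonneg _) two_ne_zero).1 h2
          rw [mem_ball, dist_comm, h3]
          exact hs
  choose N T r hN using hloc
  rcases U.eq_empty_or_nonempty with hU0 | hU0
  · obtain ⟨x0⟩ := (inferInstance : Nonempty X)
    refine ⟨fun _ _ => x0, fun _ => 0, ?_, ?_⟩
    · intro k a ha
      rw [ball_zero] at ha
      exact absurd ha (notMem_empty a)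
    · simp [hU0]
  obtain ⟨t, htU, htc, hcov⟩ := TopologicalSpace.countable_cover_nhdsWithin (s := U) (f := N)
    (fun x hx => mem_nhdsWithin_of_mem_nhds ((hN x hx).1.mem_nhds (hN x hx).2.1))
  have htne : t.Nonempty := by
    obtain ⟨x, hx⟩ := hU0
    have := hcov hx
    simp only [mem_iUnion] at this
    obtain ⟨q, hq, _⟩ := this
    exact ⟨q, hq⟩
  obtain ⟨f, hf⟩ := htc.exists_eq_range htne
  have hfU : ∀ k, f k ∈ U := fun k => htU (by rw [hf]; exact mem_range_self k)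
  refine ⟨fun k => T (f k), fun k => r (f k), fun k => (hN _ (hfU k)).2.2.1, ?_⟩
  apply Subset.antisymm
  · rintro x ⟨hx, hxr⟩
    have := hcov hx
    simp only [mem_iUnion] at this
    obtain ⟨q, hq, hxq⟩ := this
    rw [hf] at hq
    obtain ⟨k, rfl⟩ := hq
    rw [mem_iUnion]
    refine ⟨k, ?_⟩
    rw [← (hN _ (hfU k)).2.2.2.1]
    exact ⟨hxq, hxr⟩
  · apply iUnion_subset
    intro k
    rw [← (hN _ (hfU k)).2.2.2.1]
    rintro x ⟨hx, hxr⟩
    exact ⟨(hN _ (hfU k)).2.2.2.2 hx, hxr⟩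

end Pool.Agent.Work.MP_fef182_gt
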