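import Mathlib

/-!
# Finite groups of isometries of a five-dimensional space, all of whose nontrivial elements fix at
most a line

Such a group preserves a line, acts on it by the determinant, and acts freely on the unit sphere of
the orthogonal complement.
-/

set_option autoImplicit false

open Module

namespace Pool.Agent.FEF

section

variable {V : Type*} [NormedAddCommGroup V] [InnerProductSpace ℝ V]

/-- the fixed space -/
def sfx (g : V ≃ₗᵢ[ℝ] V) : Submodule ℝ V where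
  carrier := {v | g v = v}
  add_mem' := by
    intro a b ha hb
    change g (a + b) = a + b
    rw [map_add, show g a = a from ha, show g b = b from hb]
  zero_mem' := map_zero g
  smul_mem' := by
    intro c a ha
    change g (c • a) = c • a
    rw [map_smul, show g a = a from ha]

theorem mem_sfx {g : V ≃ₗᵢ[ℝ] V} {v : V} : v ∈ sfx g ↔ g v = v := Iff.rfl

/-- the determinant -/
noncomputable def sdt (g : V ≃ₗᵢ[ℝ] V) : ℝ := LinearMap.det (g.toLinearEquiv : V →ₗ[ℝ] V)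

theorem sdt_mul (g h : V ≃ₗᵢ[ℝ] V) : sdt (g * h) = sdt g * sdt h := by
  unfold sdt
  rw [← LinearMap.det_comp]
  rfl

theorem sdt_one : sdt (1 : V ≃ₗᵢ[ℝ] V) = 1 := by
  unfold sdt
  exact LinearMap.det_id

theorem s_mul_apply (g h : V ≃ₗᵢ[ℝ] V) (v : V) : (g * h) v = g (h v) := rfl

theorem s_inv_mul (g : V ≃ₗᵢ[ℝ] V) (v : V) : g⁻¹ (g v) = v := g.symm_apply_apply v

theorem s_mul_inv (g : V ≃ₗᵢ[ℝ] V) (v : V) : g (g⁻¹ v) = v := g.apply_symm_apply v

theorem s_inv_eq {g : V ≃ₗᵢ[ℝ] V} {v w : V} (h : g v = w) : g⁻¹ w = v := by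
  rw [← h, s_inv_mul]

theorem mem_sfx_conj {g n : V ≃ₗᵢ[ℝ] V} {v : V} (hv : v ∈ sfx n) : g v ∈ sfx (g * n * g⁻¹) := by
  rw [mem_sfx] at hv ⊢
  rw [s_mul_apply, s_mul_apply, s_inv_mul, hv]

theorem inner_anti {g : V ≃ₗᵢ[ℝ] V} {v w : V} (hv : g v = v) (hw : g w = -w) :
    inner ℝ v w = 0 := by
  have h1 := g.inner_map_map v w
  rw [hv, hw, inner_neg_right] at h1
  linarith

/-- two orthogonal nonzero fixed vectors -/
theorem finrank_two [FiniteDimensional ℝ V] {W : Submodule ℝ V} (hW : finrank ℝ W ≤ 1) {v w : V}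
    (hv : v ∈ W) (hw : w ∈ W) (hv0 : v ≠ 0) (hvw : inner ℝ v w = 0) : w = 0 := by
  have h1 : finrank ℝ W = 1 := by
    refine le_antisymm hW ?_
    rw [Nat.one_le_iff_ne_zero]
    intro h0
    have h2 := Submodule.finrank_eq_zero.1 h0
    rw [h2, Submodule.mem_bot] at hv
    exact hv0 hv
  have h2 := (finrank_eq_one_iff_of_nonzero' (⟨v, hv⟩ : W) (fun h => hv0 (congrArg Subtype.val h))).1
    h1 ⟨w, hw⟩
  obtain ⟨c, hc⟩ := h2
  have hc' : c • v = w := congrArg Subtype.val hc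
  rw [← hc', inner_smul_right] at hvw
  rcases mul_eq_zero.1 hvw with h | h
  · rw [← hc', h, zero_smul]
  · exact absurd (inner_self_eq_zero.1 h) hv0

theorem mem_line [FiniteDimensional ℝ V] {W : Submodule ℝ V} (hW : finrank ℝ W ≤ 1) {v w : V}
    (hv : v ∈ W) (hw : w ∈ W) (hv0 : v ≠ 0) : ∃ c : ℝ, w = c • v := by
  have h1 : finrank ℝ W = 1 := by
    refine le_antisymm hW ?_
    rw [Nat.one_le_iff_ne_zero]
    intro h0
    have h2 := Submodule.finrank_eq_zero.1 h0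
    rw [h2, Submodule.mem_bot] at hv
    exact hv0 hv
  obtain ⟨c, hc⟩ := (finrank_eq_one_iff_of_nonzero' (⟨v, hv⟩ : W)
    (fun h => hv0 (congrArg Subtype.val h))).1 h1 ⟨w, hw⟩
  exact ⟨c, (congrArg Subtype.val hc).symm⟩

theorem line_eq_of [FiniteDimensional ℝ V] {W W' : Submodule ℝ V} (hW : finrank ℝ W ≤ 1)
    (hW' : finrank ℝ W' ≤ 1) {v : V} (hv : v ∈ W) (hv' : v ∈ W') (hv0 : v ≠ 0) : W = W' := by
  ext w
  constructor
  · intro hw
    obtain ⟨c, rfl⟩ := mem_line hW hv hw hv0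
    exact W'.smul_mem c hv'
  · intro hw
    obtain ⟨c, rfl⟩ := mem_line hW' hv' hw hv0
    exact W.smul_mem c hv

theorem pm_of_norm {g : V ≃ₗᵢ[ℝ] V} {v : V} (hv0 : v ≠ 0) {c : ℝ} (hc : g v = c • v) :
    g v = v ∨ g v = -v := by
  have h1 := g.norm_map v
  rw [hc, norm_smul, Real.norm_eq_abs] at h1
  have h2 : |c| = 1 := by
    have h3 : ‖v‖ ≠ 0 := norm_ne_zero_iff.2 hv0
    field_simp at h1
    exact h1
  rcases eq_or_eq_neg_of_abs_eq h2 with h | h
  · left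
    rw [hc, h, one_smul]
  · right
    rw [hc, h, neg_smul, one_smul]

variable [FiniteDimensional ℝ V]

theorem det_adj (f : V →ₗ[ℝ] V) : LinearMap.det (LinearMap.adjoint f) = LinearMap.det f := by
  let b := stdOrthonormalBasis ℝ V
  have h1 := LinearMap.toMatrix_adjoint b b f
  have h2 := LinearMap.det_toMatrix b.toBasis (LinearMap.adjoint f)
  rw [← h2, h1, Matrix.det_conjTranspose, LinearMap.det_toMatrix]
  rfl

theorem adj_symm (g : V ≃ₗᵢ[ℝ] V) : LinearMap.adjoint (g.toLinearEquiv : V →ₗ[ℝ] V) =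
    (g⁻¹.toLinearEquiv : V →ₗ[ℝ] V) := by
  symm
  rw [LinearMap.eq_adjoint_iff]
  intro x y
  change inner ℝ (g⁻¹ x) y = inner ℝ x (g y)
  rw [← g.inner_map_map, s_mul_inv]

theorem sdt_sq (g : V ≃ₗᵢ[ℝ] V) : sdt g * sdt g = 1 := by
  have h1 : sdt g⁻¹ = sdt g := by
    unfold sdt
    rw [← adj_symm, det_adj]
  have h2 := sdt_mul g g⁻¹
  rw [mul_inv_cancel, sdt_one, h1] at h2
  exact h2.symm

theorem sdt_inv (g : V ≃ₗᵢ[ℝ] V) : sdt g⁻¹ = sdt g := by
  unfold sdt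
  rw [← adj_symm, det_adj]

theorem sdt_pm (g : V ≃ₗᵢ[ℝ] V) : sdt g = 1 ∨ sdt g = -1 := by
  have h := sdt_sq g
  have h2 : (sdt g - 1) * (sdt g + 1) = 0 := by ring_nf; linarith
  rcases mul_eq_zero.1 h2 with h3 | h3
  · left; linarith
  · right; linarith

/-- an isometry with `det g (-1)^n = -1` has a fixed vector -/
theorem exists_fixed {g : V ≃ₗᵢ[ℝ] V} (hg : sdt g * (-1) ^ finrank ℝ V = -1) :
    ∃ v, v ≠ 0 ∧ g v = v := by
  set A : V →ₗ[ℝ] V := (g.toLinearEquiv : V →ₗ[ℝ] V) with hA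
  have h1 : LinearMap.adjoint A * (A - 1) = LinearMap.adjoint (1 - A) * 1 := by
    rw [hA, map_sub, adj_symm, mul_sub, mul_one, mul_one]
    congr 1
    · ext v
      change g⁻¹ (g v) = _
      rw [s_inv_mul]
      simp
  have h2 : sdt g * LinearMap.det (A - 1) = LinearMap.det (1 - A) := by
    have := congrArg LinearMap.det h1
    rw [LinearMap.det.map_mul, LinearMap.det.map_mul, det_adj, det_adj, map_one, mul_one] at this
    rw [← this]
    rfl
  have h3 : LinearMap.det (A - 1) = 0 := by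
    have h4 : 1 - A = (-1 : ℝ) • (A - 1) := by
      rw [neg_smul, one_smul, neg_sub]
    have h5 := LinearMap.det_smul (-1 : ℝ) (A - 1)
    rw [← h4, ← h2] at h5
    have h6 : sdt g * (sdt g * LinearMap.det (A - 1)) =
        -LinearMap.det (A - 1) := by
      rw [h5, ← mul_assoc, hg]
      ring
    rw [← mul_assoc, sdt_sq] at h6
    linarith
  have h4 := LinearMap.bot_lt_ker_of_det_eq_zero h3
  obtain ⟨v, hv, hv0⟩ := Submodule.exists_mem_ne_zero_of_ne_bot h4.ne'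
  refine ⟨v, hv0, ?_⟩
  have h5 : A v - v = 0 := hv
  exact sub_eq_zero.1 h5

theorem sdt_refl (K : Submodule ℝ V) : sdt K.reflection = (-1) ^ finrank ℝ Kᗮ := K.det_reflection

/-- the fixed vector may be taken orthogonal to a subspace of codimension five -/
theorem exists_fixed' {U : Submodule ℝ V} (hU : finrank ℝ Uᗮ = 5) {g : V ≃ₗᵢ[ℝ] V}
    (hgU : ∀ u ∈ U, g u = u) (hg : sdt g = 1) : ∃ v ∈ Uᗮ, v ≠ 0 ∧ g v = v := by
  have h0 := Submodule.finrank_add_finrank_orthogonal U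
  have h1 : sdt (g * Uᗮ.reflection) * (-1) ^ finrank ℝ V = -1 := by
    rw [sdt_mul, hg, sdt_refl, Submodule.orthogonal_orthogonal, ← h0, hU, one_mul, ← pow_add,
      ← add_assoc, ← two_mul, pow_add, pow_mul]
    norm_num
  obtain ⟨v, hv0, hv⟩ := exists_fixed h1
  have h2 : v ∈ Uᗮ := by
    intro u hu
    have h3 : Uᗮ.reflection u = -u := by
      apply Submodule.reflection_mem_subspace_orthogonalComplement_eq_neg
      rw [Submodule.orthogonal_orthogonal]
      exact hu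
    have h4 : (g * Uᗮ.reflection) u = -u := by
      rw [s_mul_apply, h3, map_neg, hgU u hu]
    have h5 := inner_anti hv h4
    rw [real_inner_comm]
    exact h5
  refine ⟨v, h2, hv0, ?_⟩
  rw [s_mul_apply, Submodule.reflection_mem_subspace_eq_self h2] at hv
  exact hv

/-- an isometry with the determinant `-1` and a fixed vector has a second one -/
theorem exists_second {U : Submodule ℝ V} (hU : finrank ℝ Uᗮ = 5) {g : V ≃ₗᵢ[ℝ] V}
    (hgU : ∀ u ∈ U, g u = u) (hg : sdt g = -1) {v : V} (hvU : v ∈ Uᗮ)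
    (hv0 : v ≠ 0) (hv : g v = v) : ∃ w ∈ Uᗮ, w ≠ 0 ∧ g w = w ∧ inner ℝ v w = 0 := by
  set K := (Submodule.span ℝ {v})ᗮ with hK
  have h1 : sdt (g * K.reflection) = 1 := by
    rw [sdt_mul, hg, sdt_refl, hK, Submodule.orthogonal_orthogonal, finrank_span_singleton hv0]
    norm_num
  have hKm : ∀ w, inner ℝ v w = 0 → K.reflection w = w := by
    intro w hw
    apply Submodule.reflection_mem_subspace_eq_self
    rw [hK, Submodule.mem_orthogonal_singleton_iff_inner_right]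
    exact hw
  obtain ⟨w, hwU, hw0, hw⟩ := exists_fixed' hU (g := g * K.reflection) (by
    intro u hu
    rw [s_mul_apply, hKm u, hgU u hu]
    rw [real_inner_comm]
    exact hvU u hu) h1
  have h2 : K.reflection v = -v := by
    apply Submodule.reflection_mem_subspace_orthogonalComplement_eq_neg
    rw [hK, Submodule.orthogonal_orthogonal]
    exact Submodule.mem_span_singleton_self v
  have h3 : (g * K.reflection) v = -v := by
    rw [s_mul_apply, h2, map_neg, hv]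
  have h4 := inner_anti hw h3
  rw [real_inner_comm] at h4
  refine ⟨w, hwU, hw0, ?_, h4⟩
  rw [s_mul_apply, hKm w h4] at hw
  exact hw

/-- the dimension count -/
theorem count_dim {U : Submodule ℝ V} (hU : finrank ℝ Uᗮ = 5) {l0 : V} (hl0 : l0 ≠ 0)
    (hl0U : l0 ∈ Uᗮ) {W W' : Submodule ℝ V}
    (hW : finrank ℝ W ≤ 1) (hW' : finrank ℝ W' ≤ 1) (T : V →ₗ[ℝ] V)
    (h1 : ∀ w ∈ Uᗮ, inner ℝ l0 w = 0 → T w ∈ W)
    (h2 : ∀ w ∈ Uᗮ, inner ℝ l0 w = 0 → T w = 0 → w ∈ W') : False := by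
  set P := (U ⊔ Submodule.span ℝ {l0})ᗮ with hP
  have hPr : finrank ℝ P = 4 := by
    have h3 := Submodule.finrank_add_finrank_orthogonal (U ⊔ Submodule.span ℝ {l0})
    have h4 := Submodule.finrank_add_finrank_orthogonal U
    have h5 := Submodule.finrank_sup_add_finrank_inf_eq U (Submodule.span ℝ {l0})
    have h6 : U ⊓ Submodule.span ℝ {l0} = ⊥ := by
      rw [eq_bot_iff]
      rintro x ⟨hx, hx'⟩
      obtain ⟨c, rfl⟩ := Submodule.mem_span_singleton.1 hx'
      have h7 := hl0U _ hx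
      rw [real_inner_smul_left] at h7
      rcases mul_eq_zero.1 h7 with h8 | h8
      · rw [h8, zero_smul]
        exact Submodule.zero_mem _
      · exact absurd (inner_self_eq_zero.1 h8) hl0
    rw [h6, finrank_bot, finrank_span_singleton hl0] at h5
    change _ + finrank ℝ P = _ at h3
    omega
  have hPU : ∀ w : P, (w : V) ∈ Uᗮ := fun w =>
    Submodule.orthogonal_le (le_sup_left : U ≤ U ⊔ Submodule.span ℝ {l0}) w.2
  have hPm : ∀ w : P, inner ℝ l0 (w : V) = 0 := fun w =>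
    Submodule.mem_orthogonal_singleton_iff_inner_right.1
      (Submodule.orthogonal_le (le_sup_right : Submodule.span ℝ {l0} ≤ U ⊔ Submodule.span ℝ {l0})
        w.2)
  let T' : P →ₗ[ℝ] V := T.comp P.subtype
  have h3 := LinearMap.finrank_range_add_finrank_ker T'
  have h4 : finrank ℝ (LinearMap.range T') ≤ 1 := by
    refine le_trans (Submodule.finrank_mono ?_) hW
    rintro _ ⟨w, rfl⟩
    exact h1 _ (hPU w) (hPm w)
  have h5 : finrank ℝ (LinearMap.ker T') ≤ 1 := by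
    rw [← Submodule.finrank_map_subtype_eq P (LinearMap.ker T')]
    refine le_trans (Submodule.finrank_mono ?_) hW'
    rintro _ ⟨w, hw, rfl⟩
    exact h2 _ (hPU w) (hPm w) hw
  omega

/-- the standing hypotheses -/
structure SFive (H : Subgroup (V ≃ₗᵢ[ℝ] V)) (U : Submodule ℝ V) : Prop where
  fin : Finite H
  dim : finrank ℝ Uᗮ = 5
  fixU : ∀ h ∈ H, ∀ u ∈ U, h u = u
  line : ∀ h ∈ H, h ≠ 1 → finrank ℝ (sfx h ⊓ Uᗮ : Submodule ℝ V) ≤ 1

variable {H : Subgroup (V ≃ₗᵢ[ℝ] V)} {U : Submodule ℝ V}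

theorem SFive.memU (hH : SFive H U) {h : V ≃ₗᵢ[ℝ] V} (hh : h ∈ H) {v : V} (hv : v ∈ Uᗮ) :
    h v ∈ Uᗮ := by
  intro u hu
  rw [← hH.fixU h hh u hu, h.inner_map_map]
  exact hv u hu

theorem SFive.zero (hH : SFive H U) {h : V ≃ₗᵢ[ℝ] V} (hh : h ∈ H) (h1 : h ≠ 1) {v w : V}
    (hvU : v ∈ Uᗮ) (hwU : w ∈ Uᗮ) (hv : h v = v) (hw : h w = w) (hv0 : v ≠ 0)
    (hvw : inner ℝ v w = 0) : w = 0 :=
  finrank_two (hH.line h hh h1) ⟨hv, hvU⟩ ⟨hw, hwU⟩ hv0 hvw

/-- no element of a group of determinant one reverses a line fixed by another one -/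
theorem SFive.no_rev (hH : SFive H U) (hdet : ∀ h ∈ H, sdt h = 1) {g n : V ≃ₗᵢ[ℝ] V} (hg : g ∈ H)
    (hn : n ∈ H) (hn1 : n ≠ 1) {l0 : V} (hl0 : l0 ≠ 0) (hlU : l0 ∈ Uᗮ) (hnl : n l0 = l0)
    (hgl : g l0 = -l0) : False := by
  classical
  have hginv : g⁻¹ l0 = -l0 := by
    apply s_inv_eq
    rw [map_neg, hgl, neg_neg]
  have hg1 : g ≠ 1 := by
    rintro rfl
    have h1 : l0 = -l0 := hgl
    have h2 : (2 : ℝ) • l0 = 0 := by
      rw [two_smul]
      nth_rewrite 2 [h1]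
      rw [add_neg_cancel]
    rcases smul_eq_zero.1 h2 with h | h
    · norm_num at h
    · exact hl0 h
  obtain ⟨y, hyU, hy0, hy⟩ := exists_fixed' hH.dim (hH.fixU g hg) (hdet g hg)
  have hyl : inner ℝ l0 y = 0 := by
    rw [real_inner_comm]
    exact inner_anti hy hgl
  have horth : ∀ w, inner ℝ l0 w = 0 → inner ℝ l0 (g w) = 0 := by
    intro w hw
    have h1 := g.inner_map_map l0 w
    rw [hgl, inner_neg_left, hw] at h1
    linarith
  -- elements fixing l0 have no fixed vector orthogonal to l0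
  have hK : ∀ k ∈ H, k ≠ 1 → k l0 = l0 → ∀ w ∈ Uᗮ, inner ℝ l0 w = 0 → k w = w → w = 0 :=
    fun k hk hk1 hkl w hwU hw hkw => hH.zero hk hk1 hlU hwU hkl hkw hl0 hw
  -- step 1
  have hcomm : ∀ k ∈ H, k ≠ 1 → k l0 = l0 → g * k ≠ k * g := by
    intro k hk hk1 hkl hgk
    have h1 : g (k y) = k y := by
      have := congrArg (fun f : V ≃ₗᵢ[ℝ] V => f y) hgk
      change g (k y) = k (g y) at this
      rw [this, hy]
    obtain ⟨c, hc⟩ := mem_line (hH.line g hg hg1) (v := y) (w := k y) ⟨hy, hyU⟩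
      ⟨h1, hH.memU hk hyU⟩ hy0
    have hkky : k (k y) = y := by
      rcases pm_of_norm hy0 hc with h | h
      · rw [h, h]
      · rw [h, map_neg, h, neg_neg]
    have hkk : k * k = 1 := by
      by_contra hne
      exact hy0 (hK (k * k) (H.mul_mem hk hk) hne (by rw [s_mul_apply, hkl, hkl]) y hyU hyl hkky)
    have hgg : g * g = 1 := by
      by_contra hne
      exact hy0 (hK (g * g) (H.mul_mem hg hg) hne
        (by rw [s_mul_apply, hgl, map_neg, hgl, neg_neg]) y hyU hyl (by rw [s_mul_apply, hy, hy]))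
    have hkneg : ∀ w ∈ Uᗮ, inner ℝ l0 w = 0 → k w = -w := by
      intro w hwU hw
      have h2 : w + k w = 0 := by
        refine hK k hk hk1 hkl _ (Submodule.add_mem _ hwU (hH.memU hk hwU)) ?_ ?_
        · rw [inner_add_right, hw, zero_add]
          have h3 := k.inner_map_map l0 w
          rw [hkl, hw] at h3
          exact h3
        · rw [map_add]
          have h3 : k (k w) = w := by
            rw [← s_mul_apply, hkk]
            rfl
          rw [h3, add_comm]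
      exact (neg_eq_of_add_eq_zero_right h2).symm
    have hgk1 : g * k ≠ 1 := by
      intro h2
      have h3 := congrArg (fun f : V ≃ₗᵢ[ℝ] V => f l0) h2
      change g (k l0) = l0 at h3
      rw [hkl, hgl] at h3
      apply hg1
      have h4 : (2 : ℝ) • l0 = 0 := by
        rw [two_smul]
        nth_rewrite 1 [← h3]
        rw [neg_add_cancel]
      rcases smul_eq_zero.1 h4 with h | h
      · norm_num at h
      · exact absurd h hl0
    refine count_dim hH.dim hl0 hlU (hH.line (g * k) (H.mul_mem hg hk) hgk1)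
      (hH.line g hg hg1) (LinearMap.id - (g.toLinearEquiv : V →ₗ[ℝ] V)) ?_ ?_
    · intro w hwU hw
      change w - g w ∈ _
      have hm : w - g w ∈ Uᗮ := Submodule.sub_mem _ hwU (hH.memU hg hwU)
      refine ⟨?_, hm⟩
      change g (k (w - g w)) = w - g w
      rw [hkneg _ hm (by rw [inner_sub_right, hw, horth w hw, sub_zero]), map_neg, map_sub]
      have h3 : g (g w) = w := by
        rw [← s_mul_apply, hgg]
        rfl
      rw [h3]
      abel
    · intro w hwU hw hT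
      have h3 : w - g w = 0 := hT
      exact ⟨(sub_eq_zero.1 h3).symm, hwU⟩
  -- step 2
  have hgg : g * g = 1 := by
    by_contra hne
    exact hcomm (g * g) (H.mul_mem hg hg) hne (by rw [s_mul_apply, hgl, map_neg, hgl, neg_neg])
      (by rw [mul_assoc])
  -- step 3
  let K : Subgroup (V ≃ₗᵢ[ℝ] V) :=
    { carrier := {k | k ∈ H ∧ k l0 = l0}
      mul_mem' := by
        rintro a b ⟨ha, ha'⟩ ⟨hb, hb'⟩
        exact ⟨H.mul_mem ha hb, by rw [s_mul_apply, hb', ha']⟩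
      one_mem' := ⟨H.one_mem, rfl⟩
      inv_mem' := by
        rintro a ⟨ha, ha'⟩
        exact ⟨H.inv_mem ha, s_inv_eq ha'⟩ }
  have hKfin : Finite K := by
    have := hH.fin
    exact Finite.of_injective (fun k : K => (⟨k, k.2.1⟩ : H)) fun a b hab =>
      Subtype.ext (congrArg (fun x : H => (x : V ≃ₗᵢ[ℝ] V)) hab)
  have hconj : ∀ k ∈ K, g * k * g⁻¹ ∈ K := by
    rintro k ⟨hk, hkl⟩
    refine ⟨H.mul_mem (H.mul_mem hg hk) (H.inv_mem hg), ?_⟩
    rw [s_mul_apply, s_mul_apply, hginv, map_neg, hkl, map_neg, hgl, neg_neg]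
  let f : K → K := fun k => ⟨(k : V ≃ₗᵢ[ℝ] V)⁻¹ * (g * k * g⁻¹),
    K.mul_mem (K.inv_mem k.2) (hconj k k.2)⟩
  have hfinj : Function.Injective f := by
    intro a b hab
    have h1 : (a : V ≃ₗᵢ[ℝ] V)⁻¹ * (g * a * g⁻¹) = (b : V ≃ₗᵢ[ℝ] V)⁻¹ * (g * b * g⁻¹) :=
      congrArg Subtype.val hab
    by_contra hne
    have h2 : (b : V ≃ₗᵢ[ℝ] V) * (a : V ≃ₗᵢ[ℝ] V)⁻¹ ≠ 1 := by
      intro h3
      exact hne (Subtype.ext (mul_inv_eq_one.1 h3).symm)
    refine hcomm (b * (a : V ≃ₗᵢ[ℝ] V)⁻¹) (K.mul_mem b.2 (K.inv_mem a.2)).1 h2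
      (K.mul_mem b.2 (K.inv_mem a.2)).2 ?_
    have h4 : (b : V ≃ₗᵢ[ℝ] V) * (a : V ≃ₗᵢ[ℝ] V)⁻¹ = (g * b * g⁻¹) * (g * a * g⁻¹)⁻¹ := by
      have h5 : (b : V ≃ₗᵢ[ℝ] V) * ((a : V ≃ₗᵢ[ℝ] V)⁻¹ * (g * a * g⁻¹)) = g * b * g⁻¹ := by
        rw [h1, mul_inv_cancel_left]
      rw [← h5]
      group
    calc g * (b * (a : V ≃ₗᵢ[ℝ] V)⁻¹) = ((g * b * g⁻¹) * (g * a * g⁻¹)⁻¹) * g := by group
      _ = b * (a : V ≃ₗᵢ[ℝ] V)⁻¹ * g := by rw [← h4]
  have hfsurj := Finite.surjective_of_injective hfinj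
  obtain ⟨m, hm⟩ := hfsurj ⟨n, hn, hnl⟩
  have hm' : (m : V ≃ₗᵢ[ℝ] V)⁻¹ * (g * m * g⁻¹) = n := congrArg Subtype.val hm
  have hginv2 : g⁻¹ = g := inv_eq_of_mul_eq_one_left hgg
  have hinv : g * n * g⁻¹ = n⁻¹ := by
    rw [← hm']
    calc g * ((m : V ≃ₗᵢ[ℝ] V)⁻¹ * (g * m * g⁻¹)) * g⁻¹
        = g * (m : V ≃ₗᵢ[ℝ] V)⁻¹ * (g * m) * (g⁻¹ * g⁻¹) := by group
      _ = g * (m : V ≃ₗᵢ[ℝ] V)⁻¹ * (g * m) := by
          rw [hginv2, hgg, mul_one]
      _ = g * (m : V ≃ₗᵢ[ℝ] V)⁻¹ * (g⁻¹ * m) := by rw [hginv2]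
      _ = ((m : V ≃ₗᵢ[ℝ] V)⁻¹ * (g * m * g⁻¹))⁻¹ := by group
  have hnn : n * n ≠ 1 := by
    intro h1
    have h2 : n⁻¹ = n := inv_eq_of_mul_eq_one_left h1
    rw [h2] at hinv
    have h3 : g * n = n * g := by
      calc g * n = g * n * g⁻¹ * g := by group
        _ = n * g := by rw [hinv]
    exact hcomm n hn hn1 hnl h3
  have hgn : ∀ z, g (n z) = n⁻¹ (g z) := by
    intro z
    have h1 : g * n = n⁻¹ * g := by
      rw [← hinv]
      group
    have h2 := congrArg (fun f : V ≃ₗᵢ[ℝ] V => f z) h1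
    exact h2
  have hgn' : ∀ z, g (n⁻¹ z) = n (g z) := by
    intro z
    have h1 : g * n⁻¹ = n * g := by
      have h3 : g * n⁻¹ * g⁻¹ = n := by
        have h4 : (g * n * g⁻¹)⁻¹ = n := by rw [hinv, inv_inv]
        calc g * n⁻¹ * g⁻¹ = (g * n * g⁻¹)⁻¹ := by group
          _ = n := h4
      calc g * n⁻¹ = g * n⁻¹ * g⁻¹ * g := by group
        _ = n * g := by rw [h3]
    have h2 := congrArg (fun f : V ≃ₗᵢ[ℝ] V => f z) h1
    exact h2
  refine count_dim hH.dim hl0 hlU (hH.line g hg hg1) (hH.line g hg hg1)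
    (((n.toLinearEquiv : V →ₗ[ℝ] V) - (n⁻¹.toLinearEquiv : V →ₗ[ℝ] V)).comp
      (LinearMap.id - (g.toLinearEquiv : V →ₗ[ℝ] V))) ?_ ?_
  · intro w hwU hw
    change n (w - g w) - n⁻¹ (w - g w) ∈ _
    have hm : w - g w ∈ Uᗮ := Submodule.sub_mem _ hwU (hH.memU hg hwU)
    have hz : g (w - g w) = -(w - g w) := by
      rw [map_sub]
      have h3 : g (g w) = w := by
        rw [← s_mul_apply, hgg]
        rfl
      rw [h3]
      abel
    refine ⟨?_, Submodule.sub_mem _ (hH.memU hn hm) (hH.memU (H.inv_mem hn) hm)⟩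
    change g (n (w - g w) - n⁻¹ (w - g w)) = n (w - g w) - n⁻¹ (w - g w)
    rw [map_sub, hgn, hgn', hz, map_neg, map_neg]
    abel
  · intro w hwU hw hT
    have h3 : n (w - g w) - n⁻¹ (w - g w) = 0 := hT
    have h4 : (n * n) (w - g w) = w - g w := by
      rw [s_mul_apply, sub_eq_zero.1 h3, s_mul_inv]
    have hm : w - g w ∈ Uᗮ := Submodule.sub_mem _ hwU (hH.memU hg hwU)
    have h5 := hK (n * n) (H.mul_mem hn hn) hnn (by rw [s_mul_apply, hnl, hnl]) _ hm
      (by rw [inner_sub_right, hw, horth w hw, sub_zero]) h4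
    exact ⟨(sub_eq_zero.1 h5).symm, hwU⟩

/-- the line of a nontrivial element of a group of determinant one -/
theorem SFive.exists_vec (hH : SFive H U) (hdet : ∀ h ∈ H, sdt h = 1) {h : V ≃ₗᵢ[ℝ] V}
    (hh : h ∈ H) : ∃ v ∈ (sfx h ⊓ Uᗮ : Submodule ℝ V), v ≠ 0 := by
  obtain ⟨v, hvU, hv0, hv⟩ := exists_fixed' hH.dim (hH.fixU h hh) (hdet h hh)
  exact ⟨v, ⟨hv, hvU⟩, hv0⟩

/-- an element preserving the line of a nontrivial element has the same line -/
theorem SFive.same_line (hH : SFive H U) (hdet : ∀ h ∈ H, sdt h = 1) {h n : V ≃ₗᵢ[ℝ] V}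
    (hh : h ∈ H) (hh1 : h ≠ 1) (hn : n ∈ H) (hn1 : n ≠ 1)
    (hmap : ∀ v ∈ (sfx n ⊓ Uᗮ : Submodule ℝ V), h v ∈ (sfx n ⊓ Uᗮ : Submodule ℝ V)) :
    (sfx n ⊓ Uᗮ : Submodule ℝ V) = sfx h ⊓ Uᗮ := by
  obtain ⟨v, hv, hv0⟩ := hH.exists_vec hdet hn
  obtain ⟨c, hc⟩ := mem_line (hH.line n hn hn1) hv (hmap v hv) hv0
  rcases pm_of_norm hv0 hc with h1 | h1
  · exact line_eq_of (hH.line n hn hn1) (hH.line h hh hh1) hv ⟨h1, hv.2⟩ hv0
  · exact absurd (hH.no_rev hdet hh hn hn1 hv0 hv.2 hv.1 h1) id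

/-- all nontrivial elements of a group of determinant one have the same line -/
theorem SFive.one_line (hH : SFive H U) (hdet : ∀ h ∈ H, sdt h = 1) {n n' : V ≃ₗᵢ[ℝ] V}
    (hn : n ∈ H) (hn1 : n ≠ 1) (hn' : n' ∈ H) (hn'1 : n' ≠ 1) :
    (sfx n ⊓ Uᗮ : Submodule ℝ V) = sfx n' ⊓ Uᗮ := by
  classical
  have := hH.fin
  let L := {W : Submodule ℝ V // ∃ n ∈ H, n ≠ 1 ∧ W = sfx n ⊓ Uᗮ}
  have hmapeq : ∀ h ∈ H, ∀ n : V ≃ₗᵢ[ℝ] V,
      (sfx n ⊓ Uᗮ).map (h.toLinearEquiv : V →ₗ[ℝ] V) = sfx (h * n * h⁻¹) ⊓ Uᗮ := by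
    intro h hh n
    ext w
    constructor
    · rintro ⟨v, hv, rfl⟩
      exact ⟨mem_sfx_conj hv.1, hH.memU hh hv.2⟩
    · intro hw
      refine ⟨h⁻¹ w, ⟨?_, hH.memU (H.inv_mem hh) hw.2⟩, s_mul_inv h w⟩
      have h1 := mem_sfx_conj (g := h⁻¹) hw.1
      have h2 : h⁻¹ * (h * n * h⁻¹) * h⁻¹⁻¹ = n := by group
      rw [h2] at h1
      exact h1
  let act : MulAction H L :=
    { smul := fun h W => ⟨W.1.map ((h : V ≃ₗᵢ[ℝ] V).toLinearEquiv : V →ₗ[ℝ] V), by
        obtain ⟨n, hn, hn1, hW⟩ := W.2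
        refine ⟨h * n * (h : V ≃ₗᵢ[ℝ] V)⁻¹, H.mul_mem (H.mul_mem h.2 hn) (H.inv_mem h.2), ?_, ?_⟩
        · intro h3
          apply hn1
          have h4 := congrArg (fun x => (h : V ≃ₗᵢ[ℝ] V)⁻¹ * x * h) h3
          simp only [mul_one] at h4
          rw [inv_mul_cancel] at h4
          rw [← h4]
          group
        · rw [hW]
          exact hmapeq h h.2 n⟩
      one_smul := by
        intro W
        apply Subtype.ext
        exact Submodule.map_id _
      mul_smul := by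
        intro a b W
        apply Subtype.ext
        exact Submodule.map_comp _ _ _ }
  have hsm : ∀ (h : H) (W : L), ((h • W : L) : Submodule ℝ V) =
      (W : Submodule ℝ V).map ((h : V ≃ₗᵢ[ℝ] V).toLinearEquiv : V →ₗ[ℝ] V) := fun h W => rfl
  let T := {h : H // h ≠ 1}
  let g : T → L := fun h => ⟨sfx (h : H).1 ⊓ Uᗮ, (h : H).1, (h : H).2, fun h1 =>
    h.2 (Subtype.ext h1), rfl⟩
  have hgs : Function.Surjective g := by
    rintro ⟨W, n, hn, hn1, rfl⟩
    exact ⟨⟨⟨n, hn⟩, fun h1 => hn1 (congrArg Subtype.val h1)⟩, rfl⟩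
  have hLfin : Finite L := Finite.of_surjective g hgs
  let _ : Fintype H := Fintype.ofFinite H
  let _ : Fintype L := Fintype.ofFinite L
  let _ : Fintype T := Fintype.ofFinite T
  let _ : ∀ h : H, Fintype (MulAction.fixedBy L h) := fun h => Fintype.ofFinite _
  let _ : Fintype (Quotient (MulAction.orbitRel H L)) := Fintype.ofFinite _
  have hb := MulAction.sum_card_fixedBy_eq_card_orbits_mul_card_group H L
  have hT : Fintype.card T = Fintype.card H - 1 := by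
    have := Fintype.card_subtype_compl (fun h : H => h = 1)
    rw [Fintype.card_subtype_eq] at this
    rw [← this]
  have hLc : Fintype.card L ≤ Fintype.card H - 1 := by
    rw [← hT]
    exact Fintype.card_le_of_surjective g hgs
  have h1 : Fintype.card (MulAction.fixedBy L (1 : H)) = Fintype.card L := by
    apply Fintype.card_congr
    exact (Equiv.subtypeUnivEquiv fun W => one_smul H W)
  have h2 : ∀ h : H, h ≠ 1 → Fintype.card (MulAction.fixedBy L h) = 1 := by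
    intro h hh
    rw [Fintype.card_eq_one_iff]
    have hh' : (h : V ≃ₗᵢ[ℝ] V) ≠ 1 := fun h1 => hh (Subtype.ext h1)
    refine ⟨⟨⟨sfx (h : V ≃ₗᵢ[ℝ] V) ⊓ Uᗮ, h, h.2, hh', rfl⟩, ?_⟩, ?_⟩
    · apply Subtype.ext
      rw [hsm]
      change (sfx (h : V ≃ₗᵢ[ℝ] V) ⊓ Uᗮ).map _ = sfx (h : V ≃ₗᵢ[ℝ] V) ⊓ Uᗮ
      rw [hmapeq h h.2]
      congr 2
      group
    · rintro ⟨⟨W, n, hn, hn1, rfl⟩, hW⟩
      apply Subtype.ext
      apply Subtype.ext
      refine hH.same_line hdet h.2 hh' hn hn1 fun v hv => ?_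
      have h3 : (sfx n ⊓ Uᗮ).map ((h : V ≃ₗᵢ[ℝ] V).toLinearEquiv : V →ₗ[ℝ] V) = sfx n ⊓ Uᗮ :=
        congrArg Subtype.val hW
      rw [← h3]
      exact ⟨v, hv, rfl⟩
  have h3 : ∑ h : H, Fintype.card (MulAction.fixedBy L h) =
      Fintype.card L + (Fintype.card H - 1) := by
    rw [← Finset.add_sum_erase _ _ (Finset.mem_univ (1 : H)), h1]
    congr 1
    rw [Finset.sum_congr rfl fun h hh => h2 h (Finset.ne_of_mem_erase hh), Finset.sum_const,
      Finset.card_erase_of_mem (Finset.mem_univ _), smul_eq_mul, mul_one, Finset.card_univ]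
  rw [h3] at hb
  have h4 : 1 ≤ Fintype.card H := Fintype.card_pos
  have h5 : Fintype.card (Quotient (MulAction.orbitRel H L)) < 2 := by
    by_contra hcon
    push Not at hcon
    have := Nat.mul_le_mul_right (Fintype.card H) hcon
    omega
  have h6 : Fintype.card L ≤ 1 := by
    have h7 : Fintype.card (Quotient (MulAction.orbitRel H L)) * Fintype.card H ≤
        1 * Fintype.card H := Nat.mul_le_mul_right _ (by omega)
    omega
  rw [Fintype.card_le_one_iff] at h6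
  exact congrArg Subtype.val (h6 ⟨sfx n ⊓ Uᗮ, n, hn, hn1, rfl⟩ ⟨sfx n' ⊓ Uᗮ, n', hn', hn'1, rfl⟩)

/-- **The structure of the group**: it preserves a line, acts on it by the determinant, and acts
freely on the sphere of the complement. -/
theorem SFive.main (hH : SFive H U) : ∃ e ∈ Uᗮ, ‖e‖ = 1 ∧ ∀ h ∈ H, h e = sdt h • e ∧
    (h ≠ 1 → ∀ v ∈ Uᗮ, inner ℝ e v = 0 → h v = v → v = 0) := by
  classical
  -- it is enough to find a nonzero vector
  suffices hs : ∃ e ∈ Uᗮ, e ≠ 0 ∧ ∀ h ∈ H, h e = sdt h • e ∧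
      (h ≠ 1 → ∀ v ∈ Uᗮ, inner ℝ e v = 0 → h v = v → v = 0) by
    obtain ⟨e, heU, he0, he⟩ := hs
    have hn : ‖e‖ ≠ 0 := norm_ne_zero_iff.2 he0
    refine ⟨‖e‖⁻¹ • e, Uᗮ.smul_mem _ heU, ?_, fun h hh => ⟨?_, fun h1 v hvU hv hfix => ?_⟩⟩
    · rw [norm_smul, norm_inv, norm_norm, inv_mul_cancel₀ hn]
    · rw [map_smul, (he h hh).1, smul_comm]
    · refine (he h hh).2 h1 v hvU ?_ hfix
      rw [real_inner_smul_left] at hv
      rcases mul_eq_zero.1 hv with h2 | h2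
      · exact absurd h2 (inv_ne_zero hn)
      · exact h2
  -- elements of determinant -1 have no fixed vectors
  have hneg : ∀ h ∈ H, sdt h = -1 → ∀ v ∈ Uᗮ, h v = v → v = 0 := by
    intro h hh hd v hvU hv
    by_contra hv0
    have h1 : h ≠ 1 := by
      rintro rfl
      rw [sdt_one] at hd
      norm_num at hd
    obtain ⟨w, hwU, hw0, hw, hvw⟩ := exists_second hH.dim (hH.fixU h hh) hd hvU hv0 hv
    exact hw0 (hH.zero hh h1 hvU hwU hv hw hv0 hvw)
  let P : Subgroup (V ≃ₗᵢ[ℝ] V) :=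
    { carrier := {h | h ∈ H ∧ sdt h = 1}
      mul_mem' := by
        rintro a b ⟨ha, ha'⟩ ⟨hb, hb'⟩
        exact ⟨H.mul_mem ha hb, by rw [sdt_mul, ha', hb', mul_one]⟩
      one_mem' := ⟨H.one_mem, sdt_one⟩
      inv_mem' := by
        rintro a ⟨ha, ha'⟩
        exact ⟨H.inv_mem ha, by rw [sdt_inv, ha']⟩ }
  have hP : SFive P U := by
    refine ⟨?_, hH.dim, fun h hh => hH.fixU h hh.1, fun h hh => hH.line h hh.1⟩
    have := hH.fin
    exact Finite.of_injective (fun k : P => (⟨k, k.2.1⟩ : H)) fun a b hab =>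
      Subtype.ext (congrArg (fun x : H => (x : V ≃ₗᵢ[ℝ] V)) hab)
  have hPd : ∀ h ∈ P, sdt h = 1 := fun h hh => hh.2
  by_cases hne : ∃ n ∈ P, n ≠ 1
  · obtain ⟨n, hn, hn1⟩ := hne
    obtain ⟨e, he, he0⟩ := hP.exists_vec hPd hn
    refine ⟨e, he.2, he0, fun h hh => ?_⟩
    have hline : ∀ k ∈ P, k ≠ 1 → (sfx n ⊓ Uᗮ : Submodule ℝ V) = sfx k ⊓ Uᗮ :=
      fun k hk hk1 => hP.one_line hPd hn hn1 hk hk1
    rcases sdt_pm h with hd | hd
    · rw [hd, one_smul]
      by_cases h1 : h = 1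
      · rw [h1]
        exact ⟨rfl, fun hcon => absurd rfl hcon⟩
      · have h2 := hline h ⟨hh, hd⟩ h1
        have h3 : e ∈ (sfx h ⊓ Uᗮ : Submodule ℝ V) := by rw [← h2]; exact he
        exact ⟨h3.1, fun _ v hvU hv hfix => hH.zero hh h1 he.2 hvU h3.1 hfix he0 hv⟩
    · rw [hd, neg_smul, one_smul]
      have hc : h * n * h⁻¹ ∈ P := by
        refine ⟨H.mul_mem (H.mul_mem hh hn.1) (H.inv_mem hh), ?_⟩
        rw [sdt_mul, sdt_mul, sdt_inv, hn.2, hd]
        norm_num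
      have hc1 : h * n * h⁻¹ ≠ 1 := by
        intro h3
        apply hn1
        have h4 := congrArg (fun x => h⁻¹ * x * h) h3
        simp only [mul_one] at h4
        rw [inv_mul_cancel] at h4
        rw [← h4]
        group
      have h2 := hline _ hc hc1
      have h3 : h e ∈ (sfx n ⊓ Uᗮ : Submodule ℝ V) := by
        rw [h2]
        exact ⟨mem_sfx_conj he.1, hH.memU hh he.2⟩
      obtain ⟨c, hc'⟩ := mem_line (hP.line n hn hn1) he h3 he0
      refine ⟨?_, fun _ v hvU _ hfix => hneg h hh hd v hvU hfix⟩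
      rcases pm_of_norm he0 hc' with h4 | h4
      · exact absurd (hneg h hh hd e he.2 h4) he0
      · exact h4
  · push Not at hne
    have hex : ∃ e ∈ Uᗮ, e ≠ 0 := by
      apply Submodule.exists_mem_ne_zero_of_ne_bot
      intro h0
      have := hH.dim
      rw [h0, finrank_bot] at this
      norm_num at this
    obtain ⟨e, heU, he0⟩ := hex
    refine ⟨e, heU, he0, fun h hh => ?_⟩
    rcases sdt_pm h with hd | hd
    · rw [hne h ⟨hh, hd⟩, sdt_one, one_smul]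
      exact ⟨rfl, fun hcon => absurd rfl hcon⟩
    · rw [hd, neg_smul, one_smul]
      refine ⟨?_, fun _ v hvU _ hfix => hneg h hh hd v hvU hfix⟩
      have hhh : h * h = 1 := hne (h * h) ⟨H.mul_mem hh hh, by rw [sdt_mul, hd]; norm_num⟩
      have h2 : e + h e = 0 := by
        refine hneg h hh hd _ (Submodule.add_mem _ heU (hH.memU hh heU)) ?_
        rw [map_add]
        have h3 : h (h e) = e := by
          rw [← s_mul_apply, hhh]
          rfl
        rw [h3, add_comm]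
      exact (neg_eq_of_add_eq_zero_right h2).symm

end

end Pool.Agent.FEF
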