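import Pool.Agent.Work.MP_fef182_gt.Strata
import Pool.Agent.Work.MP_fef182_gt.So5

/-!
# Flat limits: the bad set is a countable union of Lipschitz pieces; the oriented case
-/

set_option autoImplicit false

open Set Metric Module
open scoped NNReal ENNReal Topology

namespace Pool.Agent.FEF

section

variable {V : Type*} [NormedAddCommGroup V] [InnerProductSpace ℝ V] [FiniteDimensional ℝ V]

/-- a subspace of dimension at most `k` is a Lipschitz image of Euclidean space of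
dimension `k` -/
theorem s2_lip_onto (W : Submodule ℝ V) {k : ℕ} (hk : finrank ℝ W ≤ k) (y : V) :
    ∃ L : EuclideanSpace ℝ (Fin k) → V, LipschitzWith 1 L ∧ ∀ w ∈ W, w + y ∈ range L := by
  have h1 : finrank ℝ W ≤ finrank ℝ (⊤ : Submodule ℝ (EuclideanSpace ℝ (Fin k))) := by
    rw [finrank_top, finrank_euclideanSpace_fin]
    exact hk
  obtain ⟨W', _, hW'⟩ := fld_exists_sub h1
  obtain ⟨α⟩ := fld_onb hW'
  obtain ⟨β⟩ := fld_onb (rfl : finrank ℝ W = finrank ℝ W)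
  let e : W' ≃ₗᵢ[ℝ] W := α.symm.trans β
  refine ⟨fun v => (e (W'.orthogonalProjectionOnto v) : V) + y, ?_, ?_⟩
  · refine LipschitzWith.mk_one fun a b => ?_
    rw [dist_add_right, dist_eq_norm, dist_eq_norm]
    have h2 : ((e (W'.orthogonalProjectionOnto a) : W) : V) - (e (W'.orthogonalProjectionOnto b) : V) =
        ((e (W'.orthogonalProjectionOnto (a - b)) : W) : V) := by
      rw [map_sub, map_sub]
      rfl
    rw [h2]
    change ‖e (W'.orthogonalProjectionOnto (a - b))‖ ≤ _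
    rw [LinearIsometryEquiv.norm_map]
    exact W'.norm_orthogonalProjectionOnto_apply_le _
  · intro w hw
    refine ⟨(e.symm ⟨w, hw⟩ : W'), ?_⟩
    simp

variable {X : Type*} [MetricSpace X] {Γ : Subgroup (V ≃ᵢ V)} {F : V → X} {S : Set X}

theorem FldQ.bad_pieces (h : FldQ Γ F S) (k : ℕ) :
    ∃ L : ℕ → EuclideanSpace ℝ (Fin k) → V, (∀ i, LipschitzWith 1 (L i)) ∧
      fldBad Γ k ⊆ ⋃ i, range (L i) := by
  classical
  set 𝒯 : Set (Set (V ≃ᵢ V)) := {t : Set (V ≃ᵢ V) | t.Finite ∧ t ⊆ (Γ : Set (V ≃ᵢ V))} with h𝒯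
  have hc : 𝒯.Countable := countable_ofPred_finite_subset h.countable
  have h1 : fldBad Γ k ⊆ ⋃ t ∈ 𝒯, {y | (∀ g ∈ t, g y = y) ∧ finrank ℝ (fldW t) ≤ k} := by
    intro y hy
    refine mem_iUnion₂.2 ⟨(fldSt Γ y : Set (V ≃ᵢ V)), ⟨?_, fun g hg => hg.1⟩, fun g hg => hg.2, hy⟩
    have := h.finSt y
    exact Set.toFinite _
  have h2 : ∀ t : Set (V ≃ᵢ V), ∃ L : EuclideanSpace ℝ (Fin k) → V, LipschitzWith 1 L ∧
      {y | (∀ g ∈ t, g y = y) ∧ finrank ℝ (fldW t) ≤ k} ⊆ range L := by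
    intro t
    by_cases hne : {y | (∀ g ∈ t, g y = y) ∧ finrank ℝ (fldW t) ≤ k}.Nonempty
    · obtain ⟨y0, hy0, hk⟩ := hne
      obtain ⟨L, hL, hL2⟩ := s2_lip_onto (fldW t) hk y0
      refine ⟨L, hL, ?_⟩
      rintro y ⟨hy, -⟩
      have hmem : y - y0 ∈ fldW t := by
        intro g hg
        have h5 := fldL_add g (y - y0) y0
        rw [sub_add_cancel, hy g hg, hy0 g hg] at h5
        exact (sub_eq_of_eq_add h5).symm
      have := hL2 _ hmem
      rwa [sub_add_cancel] at this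
    · rw [Set.not_nonempty_iff_eq_empty] at hne
      exact ⟨fun _ => 0, LipschitzWith.const' 0, by rw [hne]; exact empty_subset _⟩
  choose L hL hL2 using h2
  have hne : 𝒯.Nonempty := ⟨∅, finite_empty, empty_subset _⟩
  obtain ⟨f, hf⟩ := hc.exists_eq_range hne
  refine ⟨fun i => L (f i), fun i => hL _, ?_⟩
  intro y hy
  obtain ⟨t, ht, hyt⟩ := mem_iUnion₂.1 (h1 hy)
  rw [hf] at ht
  obtain ⟨i, rfl⟩ := ht
  exact mem_iUnion.2 ⟨i, hL2 _ hyt⟩

/-- the linear part as a homomorphism -/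
noncomputable def fldLHom : (V ≃ᵢ V) →* (V ≃ₗᵢ[ℝ] V) where
  toFun := fldL
  map_one' := fldL_one
  map_mul' := fldL_mul

/-- there are no points of codimension five if all linear parts have determinant one -/
theorem FldQ.oriented (h : FldQ Γ F S) {n : ℕ} (hn : 5 ≤ n) (hV : finrank ℝ V = n)
    (hS : dimH S ≤ ((n - 4 : ℕ) : ℝ≥0∞)) (hor : ∀ g ∈ Γ, sdt (fldL g) = 1) (y : V) :
    finrank ℝ (fldW (fldSt Γ y : Set (V ≃ᵢ V))) ≠ n - 5 := by
  intro hdim
  set U := fldW (fldSt Γ y : Set (V ≃ᵢ V)) with hU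
  set H : Subgroup (V ≃ₗᵢ[ℝ] V) := (fldSt Γ y).map fldLHom with hH
  have hHmem : ∀ l ∈ H, ∃ g ∈ fldSt Γ y, fldL g = l := by
    rintro l ⟨g, hg, rfl⟩
    exact ⟨g, hg, rfl⟩
  have hS5 : SFive H U := by
    refine ⟨?_, ?_, ?_, ?_⟩
    · have := h.finSt y
      have h1 : ((fldSt Γ y : Subgroup (V ≃ᵢ V)) : Set (V ≃ᵢ V)).Finite := Set.toFinite _
      have h2 : (H : Set (V ≃ₗᵢ[ℝ] V)).Finite := by
        rw [hH, Subgroup.coe_map]
        exact h1.image _
      exact h2.to_subtype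
    · have := Submodule.finrank_add_finrank_orthogonal U
      omega
    · intro l hl u hu
      obtain ⟨g, hg, rfl⟩ := hHmem l hl
      exact hu g hg
    · intro l hl hl1
      obtain ⟨g, hg, rfl⟩ := hHmem l hl
      have hg1 : g ≠ 1 := by
        rintro rfl
        exact hl1 fldL_one
      have h1 := h.finrank_le hS hg.1 hg1 hg.2
      have h2 : sfx (fldL g) = fldW ({g} : Set (V ≃ᵢ V)) := by
        ext v
        rw [mem_sfx, mem_fldW]
        simp
      rw [← h2] at h1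
      have h3 : U ≤ sfx (fldL g) := fun u hu => hu g hg
      have h4 := Submodule.finrank_add_inf_finrank_orthogonal h3
      rw [inf_comm]
      omega
  obtain ⟨e, heU, hen, he⟩ := hS5.main
  have h1 : e ∈ U := by
    intro g hg
    have h2 : fldL g ∈ H := ⟨g, hg, rfl⟩
    have h3 := (he _ h2).1
    rw [hor g hg.1, one_smul] at h3
    exact h3
  have h2 : inner ℝ e e = (0 : ℝ) := heU e h1
  rw [inner_self_eq_zero] at h2
  rw [h2, norm_zero] at hen
  exact zero_ne_one hen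

end

/-- **The strata of the quotient**, with pieces and the oriented case. -/
theorem strata2 {n : ℕ} (hn : 5 ≤ n) {X : Type*} [MetricSpace X] {S : Set X}
    (hS : dimH S ≤ ((n - 4 : ℕ) : ℝ≥0∞))
    {Γ : Subgroup (EuclideanSpace ℝ (Fin n) ≃ᵢ EuclideanSpace ℝ (Fin n))}
    {F : EuclideanSpace ℝ (Fin n) → X} (hsurj : Function.Surjective F)
    (hinv : ∀ g ∈ Γ, ∀ y, F (g y) = F y)
    (hle : ∀ y y', dist (F y) (F y') ≤ dist y y')
    (hmin : ∀ y y', ∃ g ∈ Γ, dist (g y) y' = dist (F y) (F y'))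
    (hfin : ∀ (z : EuclideanSpace ℝ (Fin n)) (r : ℝ),
      {g : EuclideanSpace ℝ (Fin n) ≃ᵢ EuclideanSpace ℝ (Fin n) |
        g ∈ Γ ∧ dist (g z) z ≤ r}.Finite)
    (hfree : ∀ y, F y ∉ S → ∀ g ∈ Γ, g y = y → g = 1) :
    ∃ Sorb : Set X, IsClosed Sorb ∧ Sorb ⊆ S ∧ dimH Sorb ≤ ((n - 5 : ℕ) : ℝ≥0∞) ∧
      (∃ L : ℕ → EuclideanSpace ℝ (Fin (n - 5)) → X, (∀ i, LipschitzWith 1 (L i)) ∧
        Sorb ⊆ ⋃ i, range (L i)) ∧
      (∀ x ∉ Sorb, Model n x) ∧
      ((∀ g ∈ Γ, sdt (fldL g) = 1) → (n = 5 → Sorb = ∅) ∧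
        (6 ≤ n → dimH Sorb ≤ ((n - 6 : ℕ) : ℝ≥0∞) ∧
          ∃ L : ℕ → EuclideanSpace ℝ (Fin (n - 6)) → X, (∀ i, LipschitzWith 1 (L i)) ∧
            Sorb ⊆ ⋃ i, range (L i))) := by
  have h : FldQ Γ F S := ⟨hsurj, hinv, hle, hmin, hfin, hfree⟩
  have hV : finrank ℝ (EuclideanSpace ℝ (Fin n)) = n := by simp
  have h1 : LipschitzWith 1 F := LipschitzWith.mk_one hle
  have hpieces : ∀ k, ∃ L : ℕ → EuclideanSpace ℝ (Fin k) → X, (∀ i, LipschitzWith 1 (L i)) ∧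
      F '' fldBad Γ k ⊆ ⋃ i, range (L i) := by
    intro k
    obtain ⟨L, hL, hL2⟩ := h.bad_pieces k
    refine ⟨fun i => F ∘ L i, fun i => by simpa using h1.comp (hL i), ?_⟩
    rintro _ ⟨y, hy, rfl⟩
    obtain ⟨i, v, hv⟩ := mem_iUnion.1 (hL2 hy)
    exact mem_iUnion.2 ⟨i, v, congrArg F hv⟩
  refine ⟨F '' fldBad Γ (n - 5), h.isClosed _, ?_, (h1.dimH_image_le _).trans (h.dimH_bad _),
    hpieces _, ?_, ?_⟩
  · rintro _ ⟨y, hy, rfl⟩
    by_contra hcon
    have h1 : fldW (fldSt Γ y : Set (EuclideanSpace ℝ (Fin n) ≃ᵢ EuclideanSpace ℝ (Fin n))) = ⊤ := by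
      rw [eq_top_iff]
      rintro v - g hg
      rw [h.free y hcon g hg.1 hg.2, fldL_one]
      rfl
    have h2 : finrank ℝ (fldW (fldSt Γ y : Set (EuclideanSpace ℝ (Fin n) ≃ᵢ
      EuclideanSpace ℝ (Fin n)))) ≤ n - 5 := hy
    rw [h1, finrank_top, hV] at h2
    omega
  · intro x hx
    obtain ⟨y, rfl⟩ := h.surj x
    exact h.model hn hV hS fun hy => hx ⟨y, hy, rfl⟩
  · intro hor
    have hne := fun y => h.oriented hn hV hS hor y
    constructor
    · rintro rfl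
      rw [image_eq_empty, eq_empty_iff_forall_notMem]
      intro y hy
      have h2 : finrank ℝ (fldW (fldSt Γ y : Set (EuclideanSpace ℝ (Fin 5) ≃ᵢ
        EuclideanSpace ℝ (Fin 5)))) ≤ 5 - 5 := hy
      exact hne y (by omega)
    · intro h6
      have hsub : fldBad Γ (n - 5) ⊆ fldBad Γ (n - 6) := by
        intro y hy
        have h2 : finrank ℝ (fldW (fldSt Γ y : Set (EuclideanSpace ℝ (Fin n) ≃ᵢ
          EuclideanSpace ℝ (Fin n)))) ≤ n - 5 := hy
        have h3 := hne y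
        change finrank ℝ (fldW (fldSt Γ y : Set (EuclideanSpace ℝ (Fin n) ≃ᵢ
          EuclideanSpace ℝ (Fin n)))) ≤ n - 6
        omega
      refine ⟨(dimH_mono (image_mono hsub)).trans
        ((h1.dimH_image_le _).trans (h.dimH_bad _)), ?_⟩
      obtain ⟨L, hL, hL2⟩ := hpieces (n - 6)
      exact ⟨L, hL, (image_mono hsub).trans hL2⟩

end Pool.Agent.FEF
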