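import Pool.Agent.Work.MP_fef182_gt.FLa

/-!
Flat spaces: star domains of the development and the extension alternative.
-/

open Set Metric Filter Topology

namespace Pool.Agent.Work.MP_fef182_gt

variable {n : ℕ} {X : Type*} [MetricSpace X]

/-- The chart `ψ` near `u` extends to a local isometry on an open set that is star-shaped about
`u` and contains `y`. -/
def Ext (R : Set X) (ψ : E n → X) (u y : E n) : Prop :=
  ∃ (C : Set (E n)) (F : E n → X), IsOpen C ∧ StarConvex ℝ u C ∧ y ∈ C ∧
    (∀ z ∈ C, LI R F z) ∧ F =ᶠ[𝓝 u] ψ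

open Classical in
/-- The development of `ψ` from `u`. -/
noncomputable def dv (R : Set X) (ψ : E n → X) (u y : E n) : X :=
  if h : Ext R ψ u y then h.choose_spec.choose y else ψ y

theorem dv_eq {R : Set X} {ψ : E n → X} {u : E n} {C : Set (E n)} {F : E n → X}
    (hC : IsOpen C) (hs : StarConvex ℝ u C) (hF : ∀ z ∈ C, LI R F z) (he : F =ᶠ[𝓝 u] ψ)
    {y : E n} (hy : y ∈ C) : dv R ψ u y = F y := by
  have h : Ext R ψ u y := ⟨C, F, hC, hs, hy, hF, he⟩
  unfold dv
  rw [dif_pos h]
  obtain ⟨hC', hs', hy', hF', he'⟩ := h.choose_spec.choose_spec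
  set C' := h.choose
  set F' := h.choose_spec.choose
  have hsi := hs'.inter hs
  have hu : u ∈ C' ∩ C := by
    have := hsi.segment_subset ⟨hy', hy⟩
    exact this (left_mem_segment ℝ u y)
  have hpre : IsPreconnected (C' ∩ C) :=
    (hsi.isPathConnected hu).isConnected.isPreconnected
  have := unique_of_local hpre (fun z hz => hF' z hz.1) (fun z hz => hF z hz.2) hu
    (he'.trans he.symm) y ⟨hy', hy⟩
  exact this.self_of_nhds

theorem Ext.mem_nhds {R : Set X} {ψ : E n → X} {u y : E n} (h : Ext R ψ u y) :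
    ∀ᶠ z in 𝓝 y, Ext R ψ u z := by
  obtain ⟨C, F, hC, hs, hy, hF, he⟩ := h
  filter_upwards [hC.mem_nhds hy] with z hz
  exact ⟨C, F, hC, hs, hz, hF, he⟩

theorem isOpen_ext (R : Set X) (ψ : E n → X) (u : E n) : IsOpen {y | Ext R ψ u y} := by
  rw [isOpen_iff_mem_nhds]
  intro y hy
  exact Ext.mem_nhds hy

theorem starConvex_ext (R : Set X) (ψ : E n → X) (u : E n) :
    StarConvex ℝ u {y | Ext R ψ u y} := by
  rw [starConvex_iff_segment_subset]
  intro y hy z hz
  obtain ⟨C, F, hC, hs, hy, hF, he⟩ := hy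
  exact ⟨C, F, hC, hs, hs.segment_subset hy hz, hF, he⟩

theorem dv_eventuallyEq {R : Set X} {ψ : E n → X} {u : E n} {C : Set (E n)} {F : E n → X}
    (hC : IsOpen C) (hs : StarConvex ℝ u C) (hF : ∀ z ∈ C, LI R F z) (he : F =ᶠ[𝓝 u] ψ)
    {y : E n} (hy : y ∈ C) : dv R ψ u =ᶠ[𝓝 y] F := by
  filter_upwards [hC.mem_nhds hy] with z hz
  exact dv_eq hC hs hF he hz

theorem Ext.dv_LI {R : Set X} {ψ : E n → X} {u y : E n} (h : Ext R ψ u y) :
    LI R (dv R ψ u) y := by
  obtain ⟨C, F, hC, hs, hy, hF, he⟩ := h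
  exact (hF y hy).congr (dv_eventuallyEq hC hs hF he hy)

theorem Ext.base {R : Set X} {ψ : E n → X} {u y : E n} (h : Ext R ψ u y) :
    Ext R ψ u u := by
  obtain ⟨C, F, hC, hs, hy, hF, he⟩ := h
  exact ⟨C, F, hC, hs, hs.segment_subset hy (left_mem_segment ℝ u y), hF, he⟩

theorem ext_self {R : Set X} {ψ : E n → X} {u : E n} {δ : ℝ} (hδ : 0 < δ)
    (h : IsoAt R ψ u δ) {y : E n} (hy : y ∈ ball u δ) : Ext R ψ u y := by
  refine ⟨ball u δ, ψ, isOpen_ball, ?_, hy, ?_, EventuallyEq.rfl⟩
  · exact (convex_ball u δ).starConvex (mem_ball_self hδ)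
  · intro z hz
    rw [mem_ball] at hz
    exact ⟨δ - dist z u, by linarith, h.sub (by linarith) (by linarith)⟩

theorem dv_base {R : Set X} {ψ : E n → X} {u : E n} (h : Ext R ψ u u) :
    dv R ψ u =ᶠ[𝓝 u] ψ := by
  obtain ⟨C, F, hC, hs, hy, hF, he⟩ := h
  exact (dv_eventuallyEq hC hs hF he hy).trans he

/-- The development near a segment is given by one local isometry on a convex set. -/
theorem Ext.convex_nhds {R : Set X} {ψ : E n → X} {u y : E n} (h : Ext R ψ u y) :
    ∃ (A : Set (E n)) (F : E n → X), IsOpen A ∧ Convex ℝ A ∧ u ∈ A ∧ y ∈ A ∧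
      (∀ z ∈ A, LI R F z) ∧ F =ᶠ[𝓝 u] ψ := by
  obtain ⟨C, F, hC, hs, hy, hF, he⟩ := h
  have hseg : segment ℝ u y ⊆ C := hs.segment_subset hy
  have hcomp : IsCompact (segment ℝ u y) := by
    rw [segment_eq_image_lineMap]
    exact isCompact_Icc.image AffineMap.lineMap_continuous
  obtain ⟨δ, hδ, hsub⟩ := hcomp.exists_thickening_subset_open hC hseg
  refine ⟨thickening δ (segment ℝ u y), F, isOpen_thickening, (convex_segment u y).thickening δ,
    self_subset_thickening hδ _ (left_mem_segment ℝ u y),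
    self_subset_thickening hδ _ (right_mem_segment ℝ u y), fun z hz => hF z (hsub hz), he⟩

/-- A local isometry on a neighbourhood of a segment does not increase its length. -/
theorem dist_le_of_segment {R : Set X} {F : E n → X} {a b : E n}
    (h : ∀ z ∈ segment ℝ a b, LI R F z) : dist (F a) (F b) ≤ dist a b := by
  set γ : ℝ → E n := fun t => AffineMap.lineMap a b t with hγ
  have hγc : Continuous γ := AffineMap.lineMap_continuous
  have hγm : ∀ t ∈ Icc (0 : ℝ) 1, γ t ∈ segment ℝ a b := by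
    intro t ht
    rw [segment_eq_image_lineMap]
    exact ⟨t, ht, rfl⟩
  have hdist : ∀ s t : ℝ, dist (γ s) (γ t) = |s - t| * dist a b := by
    intro s t
    simp only [hγ]
    rw [dist_lineMap_lineMap, Real.dist_eq]
  set s : Set ℝ := {t | dist (F a) (F (γ t)) ≤ t * dist a b} with hs
  have hcont : ContinuousOn (fun t => dist (F a) (F (γ t)) - t * dist a b) (Icc 0 1) := by
    intro t ht
    have h1 : ContinuousAt F (γ t) := (h _ (hγm t ht)).continuousAt
    have h2 : ContinuousAt (fun t => F (γ t)) t :=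
      ContinuousAt.comp (f := γ) (g := F) h1 hγc.continuousAt
    have h3 : ContinuousAt (fun t => dist (F a) (F (γ t)) - t * dist a b) t :=
      (continuousAt_const.dist h2).sub (continuousAt_id.mul continuousAt_const)
    exact h3.continuousWithinAt
  have hclosed : IsClosed (s ∩ Icc 0 1) := by
    have := hcont.preimage_isClosed_of_isClosed isClosed_Icc (isClosed_Iic (a := (0:ℝ)))
    convert this using 1
    ext t
    simp only [hs, mem_inter_iff, mem_ofPred_eq, mem_preimage, mem_Iic, sub_nonpos]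
    tauto
  have key : Icc (0 : ℝ) 1 ⊆ s := by
    refine hclosed.Icc_subset_of_forall_exists_gt ?_ ?_
    · simp [hs, hγ]
    · rintro t ⟨ht, ht01⟩ z hz
      obtain ⟨δ, hδ, hiso⟩ := h _ (hγm t ⟨ht01.1, ht01.2.le⟩)
      have hpos : 0 < δ / (dist a b + 1) := by positivity
      set r := min (z - t) (δ / (2 * (dist a b + 1))) with hr
      have hr0 : 0 < r := lt_min (sub_pos.2 hz) (by positivity)
      refine ⟨t + r, ?_, by linarith, ?_⟩
      · have hd : dist (γ t) (γ (t + r)) = r * dist a b := by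
          rw [hdist, show t - (t + r) = -r by ring, abs_neg, abs_of_pos hr0]
        have hlt : r * dist a b < δ := by
          have h1 : r ≤ δ / (2 * (dist a b + 1)) := min_le_right _ _
          have h2 : r * dist a b ≤ δ / (2 * (dist a b + 1)) * (dist a b + 1) := by
            apply mul_le_mul h1 (by linarith) dist_nonneg (by positivity)
          have h3 : δ / (2 * (dist a b + 1)) * (dist a b + 1) = δ / 2 := by
            field_simp
          linarith
        have h1 := hiso.1 (γ t) (mem_ball_self hδ) (γ (t + r)) (by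
          rw [mem_ball, dist_comm, hd]; exact hlt)
        simp only [hs, mem_ofPred_eq] at ht ⊢
        calc dist (F a) (F (γ (t + r))) ≤ dist (F a) (F (γ t)) + dist (F (γ t)) (F (γ (t + r))) :=
              dist_triangle _ _ _
          _ ≤ t * dist a b + r * dist a b := by rw [h1, hd]; linarith
          _ = (t + r) * dist a b := by ring
      · have : r ≤ z - t := min_le_left _ _
        linarith
  have h1 := key (right_mem_Icc.2 zero_le_one)
  simpa [hs, hγ] using h1

theorem IsoAt.comp_affine {R : Set X} {F : E n → X} {y : E n} {δ : ℝ} (A : E n ≃ᵃⁱ[ℝ] E n)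
    (h : IsoAt R F (A y) δ) : IsoAt R (fun z => F (A z)) y δ := by
  obtain ⟨h1, h2, h3⟩ := h
  have himg : (A : E n → E n) '' ball y δ = ball (A y) δ := by
    have := A.toIsometryEquiv.image_ball y δ
    exact this
  refine ⟨?_, ?_, h3⟩
  · intro a ha b hb
    rw [h1 (A a) (by rw [← himg]; exact mem_image_of_mem _ ha) (A b)
      (by rw [← himg]; exact mem_image_of_mem _ hb), A.dist_map]
  · rw [← h2, ← himg, image_image]

/-- Extension alternative: at the first point where the development stops it tends to a point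
outside `R`. -/
theorem ext_or_limit [CompleteSpace X] {R : Set X}
    (hflat : ∀ x ∈ R, ∃ δ > 0, FlatAt n R x δ) {ψ : E n → X} {u y : E n}
    (hin : ∀ s ∈ Ico (0 : ℝ) 1, Ext R ψ u (u + s • (y - u))) (hout : ¬ Ext R ψ u y) :
    ∃ p, p ∉ R ∧ ∀ s ∈ Ico (0 : ℝ) 1,
      dist (dv R ψ u (u + s • (y - u))) p ≤ (1 - s) * ‖y - u‖ := by
  set L := ‖y - u‖ with hL
  have hL0 : 0 ≤ L := norm_nonneg _
  set γ : ℝ → E n := fun s => u + s • (y - u) with hγ
  set c : ℝ → X := fun s => dv R ψ u (γ s) with hc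
  have hγd : ∀ s t, dist (γ s) (γ t) = |s - t| * L := by
    intro s t
    rw [dist_eq_norm]
    have : γ s - γ t = (s - t) • (y - u) := by
      simp only [hγ]; module
    rw [this, norm_smul, Real.norm_eq_abs]
  have hseg : ∀ s ∈ Ico (0 : ℝ) 1, ∀ t ∈ Ico (0 : ℝ) 1, ∀ z ∈ segment ℝ (γ s) (γ t),
      LI R (dv R ψ u) z := by
    rintro s hs t ht z ⟨a, b, ha, hb, hab, rfl⟩
    have h1 : a • γ s + b • γ t = γ (a * s + b * t) := by
      have h2 : a • γ s + b • γ t = (a + b) • u + (a * s + b * t) • (y - u) := by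
        simp only [hγ]; module
      rw [h2, hab, one_smul]
    rw [h1]
    have hmem : a * s + b * t ∈ Ico (0 : ℝ) 1 := by
      have := (convex_Ico (0 : ℝ) 1) hs ht ha hb hab
      simpa using this
    exact (hin _ hmem).dv_LI
  have hcd : ∀ s ∈ Ico (0 : ℝ) 1, ∀ t ∈ Ico (0 : ℝ) 1, dist (c s) (c t) ≤ |s - t| * L := by
    intro s hs t ht
    have := dist_le_of_segment (hseg s hs t ht)
    rw [hγd] at this
    exact this
  -- the limit point
  set sk : ℕ → ℝ := fun k => 1 - 1 / ((k : ℝ) + 1) with hsk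
  have hskm : ∀ k, sk k ∈ Ico (0 : ℝ) 1 := by
    intro k
    have h1 : 0 < 1 / ((k : ℝ) + 1) := by positivity
    have h2 : 1 / ((k : ℝ) + 1) ≤ 1 := by
      rw [div_le_one (by positivity)]
      have : (0 : ℝ) ≤ k := Nat.cast_nonneg k
      linarith
    exact ⟨by simp only [hsk]; linarith, by simp only [hsk]; linarith⟩
  have hskt : Tendsto sk atTop (𝓝 1) := by
    have := tendsto_one_div_add_atTop_nhds_zero_nat (𝕜 := ℝ)
    simpa [hsk] using this.const_sub 1
  have hcauchy : CauchySeq (fun k => c (sk k)) := by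
    have hb : CauchySeq sk := hskt.cauchySeq
    rw [Metric.cauchySeq_iff] at hb ⊢
    intro ε hε
    obtain ⟨N, hN⟩ := hb (ε / (L + 1)) (by positivity)
    refine ⟨N, fun k hk l hl => ?_⟩
    have h1 := hN k hk l hl
    rw [Real.dist_eq] at h1
    calc dist (c (sk k)) (c (sk l)) ≤ |sk k - sk l| * L := hcd _ (hskm k) _ (hskm l)
      _ ≤ |sk k - sk l| * (L + 1) := by
          apply mul_le_mul_of_nonneg_left (by linarith) (abs_nonneg _)
      _ < ε / (L + 1) * (L + 1) := by
          apply mul_lt_mul_of_pos_right h1 (by linarith)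
      _ = ε := by field_simp
  obtain ⟨p, hp⟩ := cauchySeq_tendsto_of_complete hcauchy
  have hbound : ∀ s ∈ Ico (0 : ℝ) 1, dist (c s) p ≤ (1 - s) * L := by
    intro s hs
    have h1 : Tendsto (fun k => dist (c s) (c (sk k))) atTop (𝓝 (dist (c s) p)) :=
      tendsto_const_nhds.dist hp
    have h2 : Tendsto (fun k => |s - sk k| * L) atTop (𝓝 (|s - 1| * L)) :=
      ((tendsto_const_nhds.sub hskt).abs).mul tendsto_const_nhds
    have h3 := le_of_tendsto_of_tendsto' h1 h2 (fun k => hcd s hs _ (hskm k))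
    rw [abs_sub_comm, abs_of_pos (by linarith [hs.2])] at h3
    exact h3
  refine ⟨p, ?_, hbound⟩
  intro hpR
  apply hout
  obtain ⟨δ, hδ, φ, hφ0, hφ⟩ := hflat p hpR
  -- a point close to the end
  obtain ⟨s0, hs0, hs0L⟩ : ∃ s0 ∈ Ico (0 : ℝ) 1, (1 - s0) * L < δ / 4 := by
    refine ⟨max 0 (1 - δ / (8 * (L + 1))), ⟨le_max_left _ _, ?_⟩, ?_⟩
    · apply max_lt one_pos
      have : 0 < δ / (8 * (L + 1)) := by positivity
      linarith
    · have h1 : 1 - max 0 (1 - δ / (8 * (L + 1))) ≤ δ / (8 * (L + 1)) := by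
        have := le_max_right (0 : ℝ) (1 - δ / (8 * (L + 1)))
        linarith
      calc (1 - max 0 (1 - δ / (8 * (L + 1)))) * L ≤ δ / (8 * (L + 1)) * (L + 1) := by
            apply mul_le_mul h1 (by linarith) hL0 (by positivity)
        _ = δ / 8 := by field_simp
        _ < δ / 4 := by linarith
  set y0 := γ s0 with hy0
  have hx0 : dist (c s0) p < δ / 4 := lt_of_le_of_lt (hbound s0 hs0) hs0L
  have hext0 : Ext R ψ u y0 := hin s0 hs0
  obtain ⟨a, ha, hax⟩ : ∃ a ∈ ball (0 : E n) δ, φ a = c s0 := by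
    have : c s0 ∈ φ '' ball 0 δ := by
      rw [hφ.2.1, hφ0, mem_ball]
      linarith
    exact this
  have had : dist a 0 < δ / 4 := by
    rw [← hφ.1 a ha 0 (mem_ball_self hδ), hφ0, hax]
    exact hx0
  have hisoa : IsoAt R φ a (3 * δ / 4) := hφ.sub (by positivity) (by linarith)
  obtain ⟨η, hη, hdv⟩ := hext0.dv_LI
  have hη' : 0 < min η (3 * δ / 4) := lt_min hη (by positivity)
  obtain ⟨A, hA1, hA2⟩ := compare hη' (hdv.mono hη' (min_le_left _ _))
    (hisoa.mono hη' (min_le_right _ _)) (by rw [hax])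
  set FB : E n → X := fun z => φ (A z) with hFB
  have hFBiso : IsoAt R FB y0 (3 * δ / 4) := by
    apply IsoAt.comp_affine
    rw [hA1]
    exact hisoa
  have hFBdv : dv R ψ u =ᶠ[𝓝 y0] FB := by
    filter_upwards [ball_mem_nhds y0 hη'] with z hz
    exact hA2 z hz
  have hFBLI : ∀ z ∈ ball y0 (3 * δ / 4), LI R FB z := by
    intro z hz
    rw [mem_ball] at hz
    exact ⟨3 * δ / 4 - dist z y0, by linarith, hFBiso.sub (by linarith) (by linarith)⟩
  -- the tube around the first part
  have hsegG : segment ℝ u y0 ⊆ {z | Ext R ψ u z} := (starConvex_ext R ψ u).segment_subset hext0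
  have hcomp : IsCompact (segment ℝ u y0) := by
    rw [segment_eq_image_lineMap]
    exact isCompact_Icc.image AffineMap.lineMap_continuous
  obtain ⟨η1, hη1, hsub1⟩ := hcomp.exists_thickening_subset_open (isOpen_ext R ψ u) hsegG
  set A1 := thickening η1 (segment ℝ u y0) with hA1def
  have hA1c : Convex ℝ A1 := (convex_segment u y0).thickening η1
  have hA1o : IsOpen A1 := isOpen_thickening
  have hy0A1 : y0 ∈ A1 := self_subset_thickening hη1 _ (right_mem_segment ℝ u y0)
  have huA1 : u ∈ A1 := self_subset_thickening hη1 _ (left_mem_segment ℝ u y0)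
  have hagree : ∀ z ∈ A1 ∩ ball y0 (3 * δ / 4), dv R ψ u z = FB z := by
    intro z hz
    have hpre : IsPreconnected (A1 ∩ ball y0 (3 * δ / 4)) :=
      (hA1c.inter (convex_ball _ _)).isPreconnected
    have := unique_of_local hpre (fun w hw => (hsub1 hw.1 : Ext R ψ u w).dv_LI)
      (fun w hw => hFBLI w hw.2) ⟨hy0A1, mem_ball_self (by positivity)⟩ hFBdv z hz
    exact this.self_of_nhds
  set η2 := min η1 (δ / 2) with hη2
  have hη2p : 0 < η2 := lt_min hη1 (by positivity)
  set T := thickening η2 (segment ℝ u y) with hT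
  have hTc : Convex ℝ T := (convex_segment u y).thickening η2
  have hTo : IsOpen T := isOpen_thickening
  have hTu : u ∈ T := self_subset_thickening hη2p _ (left_mem_segment ℝ u y)
  have hTy : y ∈ T := self_subset_thickening hη2p _ (right_mem_segment ℝ u y)
  have hTsub : ∀ z ∈ T, z ∈ A1 ∨ z ∈ ball y0 (3 * δ / 4) := by
    intro z hz
    rw [hT, mem_thickening_iff] at hz
    obtain ⟨w, hw, hzw⟩ := hz
    rw [segment_eq_image_lineMap] at hw
    obtain ⟨τ, hτ, rfl⟩ := hw
    have hwγ : (AffineMap.lineMap u y : ℝ → E n) τ = γ τ := by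
      simp only [hγ, AffineMap.lineMap_apply, vsub_eq_sub, vadd_eq_add]
      abel
    rw [hwγ] at hzw
    rcases le_or_gt τ s0 with hle | hgt
    · left
      rw [hA1def, mem_thickening_iff]
      refine ⟨γ τ, ?_, lt_of_lt_of_le hzw (min_le_left _ _)⟩
      rcases eq_or_lt_of_le hs0.1 with h0 | h0
      · have : τ = 0 := le_antisymm (by linarith) hτ.1
        rw [this]
        simp only [hγ, zero_smul, add_zero]
        exact left_mem_segment ℝ u y0
      · refine ⟨1 - τ / s0, τ / s0, ?_, ?_, by ring, ?_⟩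
        · rw [sub_nonneg, div_le_one h0]; exact hle
        · exact div_nonneg hτ.1 h0.le
        · simp only [hy0, hγ]
          have : τ / s0 * s0 = τ := by field_simp
          rw [smul_add, smul_smul, this]
          module
    · right
      rw [mem_ball]
      have h1 : dist (γ τ) y0 = (τ - s0) * L := by
        rw [hy0, hγd, abs_of_pos (by linarith)]
      have h2 : (τ - s0) * L ≤ (1 - s0) * L := by
        apply mul_le_mul_of_nonneg_right _ hL0
        linarith [hτ.2]
      calc dist z y0 ≤ dist z (γ τ) + dist (γ τ) y0 := dist_triangle _ _ _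
        _ < η2 + δ / 4 := by linarith
        _ ≤ 3 * δ / 4 := by
            have : η2 ≤ δ / 2 := min_le_right _ _
            linarith
  classical
  refine ⟨T, fun z => if z ∈ A1 then dv R ψ u z else FB z, hTo, hTc.starConvex hTu, hTy, ?_, ?_⟩
  · intro z hz
    by_cases hzB : z ∈ ball y0 (3 * δ / 4)
    · refine (hFBLI z hzB).congr ?_
      filter_upwards [isOpen_ball.mem_nhds hzB] with w hw
      by_cases hwA : w ∈ A1
      · rw [if_pos hwA]
        exact hagree w ⟨hwA, hw⟩
      · rw [if_neg hwA]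
    · have hzA : z ∈ A1 := (hTsub z hz).resolve_right hzB
      refine ((hsub1 hzA : Ext R ψ u z).dv_LI).congr ?_
      filter_upwards [hA1o.mem_nhds hzA] with w hw
      rw [if_pos hw]
  · have h1 : ∀ᶠ z in 𝓝 u, z ∈ A1 := hA1o.mem_nhds huA1
    filter_upwards [h1, dv_base hext0.base] with z hz hz2
    rw [if_pos hz, hz2]

end Pool.Agent.Work.MP_fef182_gt
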