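import Pool.Agent.Work.MP_fef182_gt.FLb

/-!
Flat spaces: the measure of the set of starting data whose development ends in a given open set.
-/

open Set Metric Filter Topology MeasureTheory Measure

namespace Pool.Agent.Work.MP_fef182_gt

variable {n : ℕ} {X : Type*} [MetricSpace X]

instance haar_hausdorff (n : ℕ) : IsAddHaarMeasure (μH[(n : ℝ)] : Measure (E n)) := by
  simpa using MeasureTheory.isAddHaarMeasure_hausdorffMeasure (E := EuclideanSpace ℝ (Fin n))

/-- A map that is injective on `M` and locally equal to measure preserving embeddings does not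
decrease measure. -/
theorem measure_le_of_local {P : Type*} [TopologicalSpace P] [SecondCountableTopology P]
    [MeasurableSpace P] [BorelSpace P] (μ : Measure P) (Θ : P → P) (M T : Set P)
    (hM : MeasurableSet M) (hinj : InjOn Θ M) (hT : ∀ p ∈ M, Θ p ∈ T)
    (hloc : ∀ p ∈ M, ∃ A : P → P, MeasurableEmbedding A ∧ MeasurePreserving A μ μ ∧
      ∀ᶠ q in 𝓝 p, q ∈ M → Θ q = A q) : μ M ≤ μ T := by
  classical
  rcases M.eq_empty_or_nonempty with rfl | hne
  · simp
  choose! A hA1 hA2 hA3 using hloc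
  have hN : ∀ p ∈ M, ∃ N : Set P, IsOpen N ∧ p ∈ N ∧ ∀ q ∈ N, q ∈ M → Θ q = A p q := by
    intro p hp
    obtain ⟨N, hN, hNo, hpN⟩ := _root_.eventually_nhds_iff.1 (hA3 p hp)
    exact ⟨N, hNo, hpN, hN⟩
  choose! N hN1 hN2 hN3 using hN
  obtain ⟨t, htM, htc, hcov⟩ := TopologicalSpace.countable_cover_nhdsWithin (s := M) (f := N)
    (fun p hp => mem_nhdsWithin_of_mem_nhds ((hN1 p hp).mem_nhds (hN2 p hp)))
  have htne : t.Nonempty := by
    obtain ⟨p, hp⟩ := hne
    have := hcov hp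
    simp only [mem_iUnion] at this
    obtain ⟨q, hq, _⟩ := this
    exact ⟨q, hq⟩
  obtain ⟨f, hf⟩ := htc.exists_eq_range htne
  have hfM : ∀ k, f k ∈ M := fun k => htM (by rw [hf]; exact mem_range_self k)
  set D : ℕ → Set P := disjointed (fun k => N (f k)) with hD
  have hDm : ∀ k, MeasurableSet (D k) := by
    intro k
    exact MeasurableSet.disjointed (fun k => (hN1 _ (hfM k)).measurableSet) k
  have hDd : Pairwise (Function.onFun Disjoint D) := disjoint_disjointed _
  have hDU : M ⊆ ⋃ k, D k := by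
    rw [hD, iUnion_disjointed]
    intro p hp
    have := hcov hp
    simp only [mem_iUnion] at this ⊢
    obtain ⟨q, hq, hpq⟩ := this
    rw [hf] at hq
    obtain ⟨k, rfl⟩ := hq
    exact ⟨k, hpq⟩
  have hDsub : ∀ k, D k ⊆ N (f k) := fun k => disjointed_subset _ k
  have himg : ∀ k, Θ '' (M ∩ D k) = A (f k) '' (M ∩ D k) := by
    intro k
    apply image_congr
    intro q hq
    exact hN3 _ (hfM k) q (hDsub k hq.2) hq.1
  have hmeas : ∀ k, MeasurableSet (Θ '' (M ∩ D k)) := by
    intro k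
    rw [himg k]
    exact (hA1 _ (hfM k)).measurableSet_image' (hM.inter (hDm k))
  have hμ : ∀ k, μ (Θ '' (M ∩ D k)) = μ (M ∩ D k) := by
    intro k
    rw [himg k, ← (hA2 _ (hfM k)).measure_preimage_emb (hA1 _ (hfM k)),
      (hA1 _ (hfM k)).injective.preimage_image]
  have hdisj : Pairwise (Function.onFun Disjoint fun k => Θ '' (M ∩ D k)) := by
    intro k l hkl
    rw [Function.onFun, Set.disjoint_left]
    rintro _ ⟨p, hp, rfl⟩ ⟨q, hq, hqp⟩
    have : q = p := hinj hq.1 hp.1 hqp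
    subst this
    exact Set.disjoint_left.1 (hDd hkl) hp.2 hq.2
  calc μ M = μ (⋃ k, M ∩ D k) := by
        rw [← inter_iUnion, inter_eq_self_of_subset_left hDU]
    _ ≤ ∑' k, μ (M ∩ D k) := measure_iUnion_le _
    _ = ∑' k, μ (Θ '' (M ∩ D k)) := by simp_rw [hμ]
    _ = μ (⋃ k, Θ '' (M ∩ D k)) := (measure_iUnion hdisj hmeas).symm
    _ ≤ μ T := by
        apply measure_mono
        apply iUnion_subset
        rintro k _ ⟨p, hp, rfl⟩
        exact hT p hp.1

/-- The change of starting data produced by the Euclidean motion `h`. -/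
noncomputable def theta (σ θ : ℝ) (h : E n ≃ᵃⁱ[ℝ] E n) (p : (E n × E n) × E n) :
    (E n × E n) × E n :=
  ((h.linearIsometryEquiv p.1.1, h.linearIsometryEquiv p.1.2), h (p.2 + (σ • p.1.1 + θ • p.1.2)))

theorem theta_injective (σ θ : ℝ) (h : E n ≃ᵃⁱ[ℝ] E n) : Function.Injective (theta σ θ h) := by
  rintro ⟨⟨a, b⟩, u⟩ ⟨⟨a', b'⟩, u'⟩ hp
  simp only [theta, Prod.mk.injEq, EmbeddingLike.apply_eq_iff_eq] at hp
  obtain ⟨⟨rfl, rfl⟩, h2⟩ := hp
  have := add_right_cancel h2
  rw [this]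

theorem theta_continuous (σ θ : ℝ) (h : E n ≃ᵃⁱ[ℝ] E n) : Continuous (theta σ θ h) := by
  unfold theta
  have h1 := h.continuous
  have h2 := h.linearIsometryEquiv.continuous
  fun_prop

theorem theta_embedding (σ θ : ℝ) (h : E n ≃ᵃⁱ[ℝ] E n) : MeasurableEmbedding (theta σ θ h) :=
  (theta_continuous σ θ h).measurableEmbedding (theta_injective σ θ h)

/-- The product measure used for starting data. -/
noncomputable abbrev mu3 (n : ℕ) : Measure ((E n × E n) × E n) :=
  (((μH[(n : ℝ)] : Measure (E n)).prod (μH[(n : ℝ)] : Measure (E n))).prod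
    (μH[(n : ℝ)] : Measure (E n)))

theorem theta_preserving (σ θ : ℝ) (h : E n ≃ᵃⁱ[ℝ] E n) :
    MeasurePreserving (theta σ θ h) (mu3 n) (mu3 n) := by
  have hl : MeasurePreserving (fun a => h.linearIsometryEquiv a) (μH[(n : ℝ)] : Measure (E n))
      μH[(n : ℝ)] := h.linearIsometryEquiv.toIsometryEquiv.measurePreserving_hausdorffMeasure n
  have hh : MeasurePreserving (fun a => h a) (μH[(n : ℝ)] : Measure (E n))
      μH[(n : ℝ)] := h.toIsometryEquiv.measurePreserving_hausdorffMeasure n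
  have hp := hl.prod hl
  have := hp.skew_product (g := fun (ab : E n × E n) u => h (u + (σ • ab.1 + θ • ab.2)))
    (μc := (μH[(n : ℝ)] : Measure (E n))) (μd := (μH[(n : ℝ)] : Measure (E n))) ?_ ?_
  · exact this
  · apply Continuous.measurable
    have h1 := h.continuous
    unfold Function.uncurry
    fun_prop
  · refine Eventually.of_forall fun ab => ?_
    have h1 : MeasurePreserving (fun u => u + (σ • ab.1 + θ • ab.2))
      (μH[(n : ℝ)] : Measure (E n)) μH[(n : ℝ)] := measurePreserving_add_right _ _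
    exact (hh.comp h1).map_eq

theorem hausdorff_image_eq {Y Z : Type*} [MetricSpace Y] [MeasurableSpace Y] [BorelSpace Y]
    [MetricSpace Z] [MeasurableSpace Z] [BorelSpace Z] {f : Y → Z} {S : Set Y} {d : ℝ}
    (h : ∀ a ∈ S, ∀ b ∈ S, dist (f a) (f b) = dist a b) (hd : 0 ≤ d) :
    (μH[d] : Measure Z) (f '' S) = (μH[d] : Measure Y) S := by
  have h1 : Isometry (fun a : S => f a) := by
    refine Isometry.of_dist_eq fun a b => ?_
    exact h a a.2 b b.2
  have h2 : Isometry (fun a : S => (a : Y)) := isometry_subtype_coe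
  have e1 := h1.hausdorffMeasure_image (Or.inl hd) univ
  have e2 := h2.hausdorffMeasure_image (Or.inl hd) univ
  rw [image_univ] at e1 e2
  have r1 : range (fun a : S => f a) = f '' S := by
    ext z; constructor
    · rintro ⟨a, rfl⟩; exact ⟨a, a.2, rfl⟩
    · rintro ⟨a, ha, rfl⟩; exact ⟨⟨a, ha⟩, rfl⟩
  have r2 : range (fun a : S => (a : Y)) = S := Subtype.range_coe
  rw [r1] at e1
  rw [r2] at e2
  rw [e1, e2]

/-- The development depends on its starting point only through one local isometry. -/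
theorem Ext.joint {R : Set X} {ψ : E n → X} {u y : E n} (h : Ext R ψ u y) :
    ∃ F : E n → X, LI R F y ∧ F =ᶠ[𝓝 u] ψ ∧
      ∀ᶠ q in 𝓝 (u, y), Ext R ψ q.1 q.2 ∧ dv R ψ q.1 =ᶠ[𝓝 q.2] F := by
  obtain ⟨A, F, hA, hAc, hu, hy, hF, he⟩ := h.convex_nhds
  refine ⟨F, hF y hy, he, ?_⟩
  have h1 : ∀ᶠ q in 𝓝 (u, y), q.1 ∈ A :=
    continuous_fst.continuousAt.eventually (hA.mem_nhds hu)
  have h2 : ∀ᶠ q in 𝓝 (u, y), q.2 ∈ A :=
    continuous_snd.continuousAt.eventually (hA.mem_nhds hy)
  have h3 : ∀ᶠ q : E n × E n in 𝓝 (u, y), F =ᶠ[𝓝 q.1] ψ :=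
    (continuous_fst.continuousAt (x := (u, y))).eventually (eventually_eventually_nhds.2 he)
  filter_upwards [h1, h2, h3] with q hq1 hq2 hq3
  exact ⟨⟨A, F, hA, hAc.starConvex hq1, hq2, hF, hq3⟩,
    dv_eventuallyEq hA (hAc.starConvex hq1) hF hq3 hq2⟩

/-- The end point of the starting datum `p`. -/
noncomputable def ep (σ θ : ℝ) (p : (E n × E n) × E n) : E n :=
  p.2 + (σ • p.1.1 + θ • p.1.2)

theorem ep_continuous (σ θ : ℝ) : Continuous (ep (n := n) σ θ) := by
  unfold ep
  fun_prop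

/-- The starting data whose development exists and ends in `W`. -/
def Mset (R : Set X) (ψ : E n → X) (u0 : E n) (ε0 T σ θ : ℝ) (W : Set X) :
    Set ((E n × E n) × E n) :=
  {p | p.2 ∈ ball u0 ε0 ∧ p.1.1 ∈ ball 0 T ∧ p.1.2 ∈ ball 0 T ∧
    Ext R ψ p.2 (ep σ θ p) ∧ dv R ψ p.2 (ep σ θ p) ∈ W}

theorem isOpen_Mset {R : Set X} {ψ : E n → X} {u0 : E n} {ε0 T σ θ : ℝ} {W : Set X}
    (hW : IsOpen W) : IsOpen (Mset R ψ u0 ε0 T σ θ W) := by
  rw [isOpen_iff_mem_nhds]
  rintro p ⟨h1, h2, h3, h4, h5⟩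
  obtain ⟨F, hF, he, hev⟩ := h4.joint
  have hc : ContinuousAt (fun q : (E n × E n) × E n => (q.2, ep σ θ q)) p :=
    (continuous_snd.prodMk (ep_continuous σ θ)).continuousAt
  have hev' := hc.eventually hev
  have hself := hev.self_of_nhds
  have hFW : ∀ᶠ z in 𝓝 (ep σ θ p), F z ∈ W := by
    apply hF.continuousAt.eventually
    apply hW.mem_nhds
    rw [← hself.2.self_of_nhds]
    exact h5
  have hFW' := (ep_continuous (n := n) σ θ).continuousAt.eventually hFW
  have e1 : ∀ᶠ q : (E n × E n) × E n in 𝓝 p, q.2 ∈ ball u0 ε0 :=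
    continuous_snd.continuousAt.eventually (isOpen_ball.mem_nhds h1)
  have e2 : ∀ᶠ q : (E n × E n) × E n in 𝓝 p, q.1.1 ∈ ball 0 T :=
    (continuous_fst.fst).continuousAt.eventually (isOpen_ball.mem_nhds h2)
  have e3 : ∀ᶠ q : (E n × E n) × E n in 𝓝 p, q.1.2 ∈ ball 0 T :=
    (continuous_fst.snd).continuousAt.eventually (isOpen_ball.mem_nhds h3)
  filter_upwards [e1, e2, e3, hev', hFW'] with q q1 q2 q3 q4 q5
  refine ⟨q1, q2, q3, q4.1, ?_⟩
  rw [q4.2.self_of_nhds]
  exact q5

theorem Mset_diff {R : Set X} {ψ : E n → X} {u0 : E n} {ε0 T σ θ : ℝ} {W1 W2 : Set X} :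
    Mset R ψ u0 ε0 T σ θ (W1 \ W2) = Mset R ψ u0 ε0 T σ θ W1 \ Mset R ψ u0 ε0 T σ θ W2 := by
  ext p
  simp only [Mset, mem_ofPred_eq, Set.mem_sdiff]
  tauto

/-- Uniqueness of the motion comparing a local isometry with a chart. -/
theorem motion_unique {R : Set X} {φ : E n → X} {x0 : E n} {δ : ℝ} (hφ : IsoAt R φ x0 δ)
    {F : E n → X} {y : E n} {h h' : E n ≃ᵃⁱ[ℝ] E n} (hy : h y ∈ ball x0 δ)
    (hy' : h' y ∈ ball x0 δ) (he : F =ᶠ[𝓝 y] fun z => φ (h z))
    (he' : F =ᶠ[𝓝 y] fun z => φ (h' z)) : h = h' := by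
  have h1 : ∀ᶠ z in 𝓝 y, h z ∈ ball x0 δ :=
    h.continuous.continuousAt.eventually (isOpen_ball.mem_nhds hy)
  have h2 : ∀ᶠ z in 𝓝 y, h' z ∈ ball x0 δ :=
    h'.continuous.continuousAt.eventually (isOpen_ball.mem_nhds hy')
  have h3 : ∀ᶠ z in 𝓝 y, h z = h' z := by
    filter_upwards [h1, h2, he, he'] with z z1 z2 z3 z4
    exact hφ.injOn z1 z2 (by rw [← z3, ← z4])
  obtain ⟨U, hU, hUo, hyU⟩ := _root_.eventually_nhds_iff.1 h3
  exact affine_ext hUo ⟨y, hyU⟩ (fun v hv => hU v hv)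

theorem measure_chart [MeasurableSpace X] [BorelSpace X] {R : Set X} {ψ : E n → X} {u0 : E n}
    {ε0 T σ θ : ℝ} (hψ : IsoAt R ψ u0 ε0) {φ : E n → X} {x0 : E n} {δ : ℝ}
    (hφ : IsoAt R φ x0 δ) {W1 W2 : Set X}
    (hW1 : IsOpen W1) (hW2 : IsOpen W2) (hW : W1 \ W2 ⊆ ball (φ x0) δ) :
    mu3 n (Mset R ψ u0 ε0 T σ θ (W1 \ W2)) ≤
      (μH[(n : ℝ)] : Measure (E n)) (ball 0 T) * (μH[(n : ℝ)] : Measure (E n)) (ball 0 T) *
        (μH[(n : ℝ)] : Measure X) (W1 \ W2) := by
  set M := Mset R ψ u0 ε0 T σ θ (W1 \ W2) with hM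
  have hMm : MeasurableSet M := by
    rw [hM, Mset_diff]
    exact (isOpen_Mset hW1).measurableSet.diff (isOpen_Mset hW2).measurableSet
  -- the comparison motion
  have hex : ∀ p ∈ M, ∃ h : E n ≃ᵃⁱ[ℝ] E n, h (ep σ θ p) ∈ ball x0 δ ∧
      dv R ψ p.2 =ᶠ[𝓝 (ep σ θ p)] fun z => φ (h z) := by
    rintro p ⟨h1, h2, h3, h4, h5⟩
    have hb := hW h5
    rw [← hφ.2.1] at hb
    obtain ⟨z, hz, hzφ⟩ := hb
    obtain ⟨η, hη, hdv⟩ := h4.dv_LI
    have hzd : dist z x0 < δ := hz
    have hη' : 0 < min η (δ - dist z x0) := lt_min hη (by linarith)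
    obtain ⟨A, hA1, hA2⟩ := compare hη' (hdv.mono hη' (min_le_left _ _))
      (hφ.sub (a := z) hη' (by
        have := min_le_right η (δ - dist z x0)
        linarith)) (by rw [hzφ])
    refine ⟨A, by rw [hA1]; exact hz, ?_⟩
    filter_upwards [ball_mem_nhds _ hη'] with w hw
    exact hA2 w hw
  choose! h hh1 hh2 using hex
  set Θ : (E n × E n) × E n → (E n × E n) × E n := fun p => theta σ θ (h p) p with hΘ
  set T' : Set ((E n × E n) × E n) :=
    (ball 0 T ×ˢ ball 0 T) ×ˢ (φ ⁻¹' (W1 \ W2) ∩ ball x0 δ) with hT'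
  have key : mu3 n M ≤ mu3 n T' := by
    refine measure_le_of_local (mu3 n) Θ M T' hMm ?_ ?_ ?_
    · -- injectivity
      intro p hp q hq hpq
      obtain ⟨p1, p2, p3, p4, p5⟩ := hp
      obtain ⟨q1, q2, q3, q4, q5⟩ := hq
      have hp' : p ∈ M := ⟨p1, p2, p3, p4, p5⟩
      have hq' : q ∈ M := ⟨q1, q2, q3, q4, q5⟩
      simp only [hΘ, theta, Prod.mk.injEq] at hpq
      obtain ⟨⟨ha, hb⟩, hz⟩ := hpq
      have hv : (h p).linearIsometryEquiv (σ • p.1.1 + θ • p.1.2) =
          (h q).linearIsometryEquiv (σ • q.1.1 + θ • q.1.2) := by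
        simp only [map_add, map_smul, ha, hb]
      have hstart : h p p.2 = h q q.2 := by
        have e1 : h p (p.2 + (σ • p.1.1 + θ • p.1.2)) =
            (h p).linearIsometryEquiv (σ • p.1.1 + θ • p.1.2) + h p p.2 := by
          have := (h p).map_vadd p.2 (σ • p.1.1 + θ • p.1.2)
          simp only [vadd_eq_add] at this
          rw [add_comm p.2, this]
        have e2 : h q (q.2 + (σ • q.1.1 + θ • q.1.2)) =
            (h q).linearIsometryEquiv (σ • q.1.1 + θ • q.1.2) + h q q.2 := by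
          have := (h q).map_vadd q.2 (σ • q.1.1 + θ • q.1.2)
          simp only [vadd_eq_add] at this
          rw [add_comm q.2, this]
        rw [e1, e2, hv] at hz
        exact add_left_cancel hz
      obtain ⟨A1, F1, hA1, hA1c, hA1u, hA1y, hF1, hF1e⟩ := p4.convex_nhds
      obtain ⟨A2, F2, hA2, hA2c, hA2u, hA2y, hF2, hF2e⟩ := q4.convex_nhds
      -- transported developments
      set C : Set (E n) := (h p).symm ⁻¹' A1 ∩ (h q).symm ⁻¹' A2 with hC
      have hCc : Convex ℝ C :=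
        (hA1c.affine_preimage (h p).symm.toAffineEquiv.toAffineMap).inter
          (hA2c.affine_preimage (h q).symm.toAffineEquiv.toAffineMap)
      set G1 : E n → X := fun z => F1 ((h p).symm z) with hG1
      set G2 : E n → X := fun z => F2 ((h q).symm z) with hG2
      have hG1LI : ∀ z ∈ C, LI R G1 z := by
        intro z hz
        obtain ⟨η, hη, hi⟩ := hF1 _ hz.1
        exact ⟨η, hη, hi.comp_affine (h p).symm⟩
      have hG2LI : ∀ z ∈ C, LI R G2 z := by
        intro z hz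
        obtain ⟨η, hη, hi⟩ := hF2 _ hz.2
        exact ⟨η, hη, hi.comp_affine (h q).symm⟩
      set zz := h p (ep σ θ p) with hzz
      have hzz' : h q (ep σ θ q) = zz := by
        rw [hzz]
        exact hz.symm
      have hzC : zz ∈ C := by
        refine ⟨?_, ?_⟩
        · rw [mem_preimage, hzz, (h p).symm_apply_apply]; exact hA1y
        · rw [mem_preimage, ← hzz', (h q).symm_apply_apply]; exact hA2y
      have hG1φ : G1 =ᶠ[𝓝 zz] φ := by
        have e1 : dv R ψ p.2 =ᶠ[𝓝 (ep σ θ p)] F1 :=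
          dv_eventuallyEq hA1 (hA1c.starConvex hA1u) hF1 hF1e hA1y
        have e2 := e1.symm.trans (hh2 p hp')
        have e3 : Tendsto (h p).symm (𝓝 zz) (𝓝 (ep σ θ p)) := by
          have := (h p).symm.continuous.continuousAt (x := zz)
          rw [ContinuousAt, hzz, (h p).symm_apply_apply] at this
          exact this
        filter_upwards [e3.eventually e2] with z hz
        simp only [hG1]
        rw [hz, (h p).apply_symm_apply]
      have hG2φ : G2 =ᶠ[𝓝 zz] φ := by
        have e1 : dv R ψ q.2 =ᶠ[𝓝 (ep σ θ q)] F2 :=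
          dv_eventuallyEq hA2 (hA2c.starConvex hA2u) hF2 hF2e hA2y
        have e2 := e1.symm.trans (hh2 q hq')
        have e3 : Tendsto (h q).symm (𝓝 zz) (𝓝 (ep σ θ q)) := by
          have := (h q).symm.continuous.continuousAt (x := zz)
          rw [ContinuousAt, ← hzz', (h q).symm_apply_apply] at this
          rw [← hzz']
          exact this
        filter_upwards [e3.eventually e2] with z hz
        simp only [hG2]
        rw [hz, (h q).apply_symm_apply]
      set ww := h p p.2 with hww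
      have hww' : h q q.2 = ww := hstart.symm
      have hwC : ww ∈ C := by
        refine ⟨?_, ?_⟩
        · rw [mem_preimage, hww, (h p).symm_apply_apply]; exact hA1u
        · rw [mem_preimage, ← hww', (h q).symm_apply_apply]; exact hA2u
      have hGG : G1 =ᶠ[𝓝 ww] G2 :=
        unique_of_local hCc.isPreconnected hG1LI hG2LI hzC (hG1φ.trans hG2φ.symm) ww hwC
      have hs1 : (h p).symm ww = p.2 := by rw [hww, (h p).symm_apply_apply]
      have hs2 : (h q).symm ww = q.2 := by rw [← hww', (h q).symm_apply_apply]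
      have hψ1 : G1 =ᶠ[𝓝 ww] fun z => ψ ((h p).symm z) := by
        have e3 : Tendsto (h p).symm (𝓝 ww) (𝓝 p.2) := by
          have := (h p).symm.continuous.continuousAt (x := ww)
          rwa [ContinuousAt, hs1] at this
        filter_upwards [e3.eventually hF1e] with z hz
        exact hz
      have hψ2 : G1 =ᶠ[𝓝 ww] fun z => ψ ((h q).symm z) := by
        have e3 : Tendsto (h q).symm (𝓝 ww) (𝓝 q.2) := by
          have := (h q).symm.continuous.continuousAt (x := ww)
          rwa [ContinuousAt, hs2] at this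
        filter_upwards [e3.eventually hF2e, hGG] with z hz hz2
        rw [hz2]
        exact hz
      have hsymm : (h p).symm = (h q).symm :=
        motion_unique hψ (by rw [hs1]; exact p1) (by rw [hs2]; exact q1) hψ1 hψ2
      have hpq' : h p = h q := by
        have := congrArg AffineIsometryEquiv.symm hsymm
        simpa using this
      have hu : p.2 = q.2 := by rw [← hs1, ← hs2, hsymm]
      rw [hpq'] at ha hb
      exact Prod.ext (Prod.ext ((h q).linearIsometryEquiv.injective ha)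
        ((h q).linearIsometryEquiv.injective hb)) hu
    · -- target
      rintro p ⟨p1, p2, p3, p4, p5⟩
      have hp' : p ∈ M := ⟨p1, p2, p3, p4, p5⟩
      refine ⟨⟨?_, ?_⟩, ?_, hh1 p hp'⟩
      · rw [mem_ball_zero_iff] at p2 ⊢
        simpa [hΘ, theta] using p2
      · rw [mem_ball_zero_iff] at p3 ⊢
        simpa [hΘ, theta] using p3
      · have := (hh2 p hp').self_of_nhds
        rw [this] at p5
        exact p5
    · -- local form
      rintro p ⟨p1, p2, p3, p4, p5⟩
      have hp' : p ∈ M := ⟨p1, p2, p3, p4, p5⟩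
      refine ⟨theta σ θ (h p), theta_embedding _ _ _, theta_preserving _ _ _, ?_⟩
      obtain ⟨F, hF, he, hev⟩ := p4.joint
      have hc : ContinuousAt (fun q : (E n × E n) × E n => (q.2, ep σ θ q)) p :=
        (continuous_snd.prodMk (ep_continuous σ θ)).continuousAt
      have hev' := hc.eventually hev
      have hself := hev.self_of_nhds
      have hFφ : F =ᶠ[𝓝 (ep σ θ p)] fun z => φ (h p z) :=
        hself.2.symm.trans (hh2 p hp')
      have hFφ' : ∀ᶠ q in 𝓝 p, F =ᶠ[𝓝 (ep σ θ q)] fun z => φ (h p z) :=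
        (ep_continuous (n := n) σ θ).continuousAt.eventually (eventually_eventually_nhds.2 hFφ)
      have hball : ∀ᶠ q in 𝓝 p, h p (ep σ θ q) ∈ ball x0 δ := by
        have : Continuous fun q => h p (ep σ θ q) := (h p).continuous.comp (ep_continuous σ θ)
        exact this.continuousAt.eventually (isOpen_ball.mem_nhds (hh1 p hp'))
      filter_upwards [hev', hFφ', hball] with q q1 q2 q3 hqM
      have : h q = h p :=
        motion_unique hφ (hh1 q hqM) q3 (hh2 q hqM) (q1.2.trans q2)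
      simp only [hΘ]
      rw [this]
  refine key.trans ?_
  rw [hT', mu3, Measure.prod_prod, Measure.prod_prod]
  gcongr
  rw [← hausdorff_image_eq (f := φ) (S := φ ⁻¹' (W1 \ W2) ∩ ball x0 δ)
    (fun a ha b hb => hφ.1 a ha.2 b hb.2) (Nat.cast_nonneg n)]
  apply measure_mono
  rintro _ ⟨z, hz, rfl⟩
  exact hz.1

/-- The measure bound for starting data whose development ends in an open set. -/
theorem measure_Mset_le [MeasurableSpace X] [BorelSpace X] [SecondCountableTopology X]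
    {R : Set X} (hflat : ∀ x ∈ R, ∃ δ > 0, FlatAt n R x δ) {ψ : E n → X} {u0 : E n}
    {ε0 T σ θ : ℝ} (hψ : IsoAt R ψ u0 ε0) {W : Set X} (hW : IsOpen W) :
    mu3 n (Mset R ψ u0 ε0 T σ θ W) ≤
      (μH[(n : ℝ)] : Measure (E n)) (ball 0 T) * (μH[(n : ℝ)] : Measure (E n)) (ball 0 T) *
        (μH[(n : ℝ)] : Measure X) W := by
  classical
  rcases R.eq_empty_or_nonempty with rfl | hne
  · have : Mset (∅ : Set X) ψ u0 ε0 T σ θ W = ∅ := by
      rw [eq_empty_iff_forall_notMem]
      rintro p ⟨_, _, _, h4, _⟩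
      exact h4.dv_LI.mem
    rw [this]
    simp
  choose! δ hδ hfl using hflat
  choose! φ hφ0 hφ using hfl
  obtain ⟨t, htR, htc, hcov⟩ := TopologicalSpace.countable_cover_nhdsWithin (s := R)
    (f := fun x => ball x (δ x))
    (fun x hx => mem_nhdsWithin_of_mem_nhds (ball_mem_nhds x (hδ x hx)))
  have htne : t.Nonempty := by
    obtain ⟨x, hx⟩ := hne
    have := hcov hx
    simp only [mem_iUnion] at this
    obtain ⟨q, hq, _⟩ := this
    exact ⟨q, hq⟩
  obtain ⟨f, hf⟩ := htc.exists_eq_range htne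
  have hfR : ∀ k, f k ∈ R := fun k => htR (by rw [hf]; exact mem_range_self k)
  set N : ℕ → Set X := fun k => ball (f k) (δ (f k)) with hN
  set W1 : ℕ → Set X := fun k => W ∩ N k with hW1
  set W2 : ℕ → Set X := fun k => ⋃ l ∈ Finset.range k, N l with hW2
  have hW1o : ∀ k, IsOpen (W1 k) := fun k => hW.inter isOpen_ball
  have hW2o : ∀ k, IsOpen (W2 k) := fun k => isOpen_biUnion fun _ _ => isOpen_ball
  have hcovM : Mset R ψ u0 ε0 T σ θ W ⊆ ⋃ k, Mset R ψ u0 ε0 T σ θ (W1 k \ W2 k) := by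
    rintro p ⟨p1, p2, p3, p4, p5⟩
    have hR : dv R ψ p.2 (ep σ θ p) ∈ R := p4.dv_LI.mem
    have hex : ∃ k, dv R ψ p.2 (ep σ θ p) ∈ N k := by
      have := hcov hR
      simp only [mem_iUnion] at this
      obtain ⟨x, hx, hx2⟩ := this
      rw [hf] at hx
      obtain ⟨k, rfl⟩ := hx
      exact ⟨k, hx2⟩
    rw [mem_iUnion]
    refine ⟨Nat.find hex, p1, p2, p3, p4, ⟨p5, Nat.find_spec hex⟩, ?_⟩
    intro hmem
    simp only [hW2, mem_iUnion, Finset.mem_range] at hmem
    obtain ⟨l, hl, hl2⟩ := hmem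
    exact Nat.find_min hex hl hl2
  have hdisj : Pairwise (Function.onFun Disjoint fun k => W1 k \ W2 k) := by
    have main : ∀ k l, k < l → Disjoint (W1 k \ W2 k) (W1 l \ W2 l) := by
      intro k l hkl
      rw [Set.disjoint_left]
      rintro x ⟨⟨_, hx⟩, _⟩ ⟨_, hx2⟩
      apply hx2
      simp only [hW2, mem_iUnion, Finset.mem_range]
      exact ⟨k, hkl, hx⟩
    intro k l hkl
    rcases lt_or_gt_of_ne hkl with h | h
    · exact main k l h
    · exact (main l k h).symm
  have hmeas : ∀ k, MeasurableSet (W1 k \ W2 k) := fun k =>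
    (hW1o k).measurableSet.diff (hW2o k).measurableSet
  calc mu3 n (Mset R ψ u0 ε0 T σ θ W)
      ≤ mu3 n (⋃ k, Mset R ψ u0 ε0 T σ θ (W1 k \ W2 k)) := measure_mono hcovM
    _ ≤ ∑' k, mu3 n (Mset R ψ u0 ε0 T σ θ (W1 k \ W2 k)) := measure_iUnion_le _
    _ ≤ ∑' k, (μH[(n : ℝ)] : Measure (E n)) (ball 0 T) *
          (μH[(n : ℝ)] : Measure (E n)) (ball 0 T) *
          (μH[(n : ℝ)] : Measure X) (W1 k \ W2 k) := by
        refine ENNReal.tsum_le_tsum fun k => ?_
        refine measure_chart hψ (hφ (f k) (hfR k)) (hW1o k) (hW2o k) ?_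
        rw [hφ0 (f k) (hfR k)]
        rintro x ⟨⟨_, hx⟩, _⟩
        exact hx
    _ = (μH[(n : ℝ)] : Measure (E n)) (ball 0 T) *
          (μH[(n : ℝ)] : Measure (E n)) (ball 0 T) *
          (μH[(n : ℝ)] : Measure X) (⋃ k, W1 k \ W2 k) := by
        rw [ENNReal.tsum_mul_left, measure_iUnion hdisj hmeas]
    _ ≤ _ := by
        gcongr
        apply iUnion_subset
        rintro k x ⟨⟨hx, _⟩, _⟩
        exact hx

end Pool.Agent.Work.MP_fef182_gt
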