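import Pool.Agent.Work.MP_fef182_gt.FLc

/-!
Flat spaces: almost every triangle develops.
-/

open Set Metric Filter Topology MeasureTheory Measure

namespace Pool.Agent.Work.MP_fef182_gt

variable {n : ℕ} {X : Type*} [MetricSpace X]

/-- The first point of a triangle where the development stops. -/
theorem first_bad [CompleteSpace X] {R : Set X}
    (hflat : ∀ x ∈ R, ∃ δ > 0, FlatAt n R x δ) {ψ : E n → X} {u a b : E n}
    (hbase : Ext R ψ u u)
    (hbad : ∃ s t : ℝ, 0 ≤ s ∧ 0 ≤ t ∧ s + t ≤ 1 ∧ ¬ Ext R ψ u (u + (s • a + t • b))) :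
    ∃ s' t' : ℝ, 0 ≤ s' ∧ 0 ≤ t' ∧ 0 < s' + t' ∧ s' + t' ≤ 1 ∧
      (∀ s t : ℝ, 0 ≤ s → 0 ≤ t → s + t < s' + t' → Ext R ψ u (u + (s • a + t • b))) ∧
      ∃ P, P ∉ R ∧ ∀ s t : ℝ, 0 ≤ s → 0 ≤ t → s + t < s' + t' →
        dist (dv R ψ u (u + (s • a + t • b))) P ≤ |s' - s| * ‖a‖ + |t' - t| * ‖b‖ := by
  set B : Set (ℝ × ℝ) := {q | 0 ≤ q.1 ∧ 0 ≤ q.2 ∧ q.1 + q.2 ≤ 1 ∧
    ¬ Ext R ψ u (u + (q.1 • a + q.2 • b))} with hB
  have hcont : Continuous (fun q : ℝ × ℝ => u + (q.1 • a + q.2 • b)) := by fun_prop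
  have hBclosed : IsClosed B := by
    have h1 : IsClosed {q : ℝ × ℝ | 0 ≤ q.1} := isClosed_le continuous_const continuous_fst
    have h2 : IsClosed {q : ℝ × ℝ | 0 ≤ q.2} := isClosed_le continuous_const continuous_snd
    have h3 : IsClosed {q : ℝ × ℝ | q.1 + q.2 ≤ 1} :=
      isClosed_le (continuous_fst.add continuous_snd) continuous_const
    have h4 : IsClosed {q : ℝ × ℝ | ¬ Ext R ψ u (u + (q.1 • a + q.2 • b))} :=
      ((isOpen_ext R ψ u).preimage hcont).isClosed_compl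
    have : B = {q : ℝ × ℝ | 0 ≤ q.1} ∩ ({q : ℝ × ℝ | 0 ≤ q.2} ∩ ({q : ℝ × ℝ | q.1 + q.2 ≤ 1} ∩
        {q : ℝ × ℝ | ¬ Ext R ψ u (u + (q.1 • a + q.2 • b))})) := by
      ext q; simp [hB]
    rw [this]
    exact h1.inter (h2.inter (h3.inter h4))
  have hBbd : B ⊆ Icc (0 : ℝ) 1 ×ˢ Icc (0 : ℝ) 1 := by
    rintro q ⟨h1, h2, h3, _⟩
    exact ⟨⟨h1, by linarith⟩, ⟨h2, by linarith⟩⟩
  have hBc : IsCompact B := (isCompact_Icc.prod isCompact_Icc).of_isClosed_subset hBclosed hBbd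
  have hBne : B.Nonempty := by
    obtain ⟨s, t, h1, h2, h3, h4⟩ := hbad
    exact ⟨(s, t), h1, h2, h3, h4⟩
  obtain ⟨⟨s', t'⟩, ⟨h1, h2, h3, h4⟩, hmin⟩ := hBc.exists_isMinOn hBne
    (f := fun q : ℝ × ℝ => q.1 + q.2) (continuous_fst.add continuous_snd).continuousOn
  simp only at h1 h2 h3 h4
  have hin : ∀ s t : ℝ, 0 ≤ s → 0 ≤ t → s + t < s' + t' → Ext R ψ u (u + (s • a + t • b)) := by
    intro s t hs ht hst
    by_contra hcon
    have hmem : (s, t) ∈ B := ⟨hs, ht, by simp only; linarith, hcon⟩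
    have := hmin hmem
    simp only [mem_ofPred_eq] at this
    linarith
  have hpos : 0 < s' + t' := by
    by_contra hcon
    have hs0 : s' = 0 := by linarith
    have ht0 : t' = 0 := by linarith
    apply h4
    rw [hs0, ht0]
    simpa using hbase
  refine ⟨s', t', h1, h2, hpos, h3, hin, ?_⟩
  set y := u + (s' • a + t' • b) with hy
  have hray : ∀ r ∈ Ico (0 : ℝ) 1, u + r • (y - u) = u + ((r * s') • a + (r * t') • b) := by
    intro r _
    rw [hy]
    module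
  obtain ⟨P, hP, hPd⟩ := ext_or_limit hflat (ψ := ψ) (u := u) (y := y) (by
    intro r hr
    rw [hray r hr]
    apply hin _ _ (mul_nonneg hr.1 h1) (mul_nonneg hr.1 h2)
    have : r * s' + r * t' = r * (s' + t') := by ring
    rw [this]
    nlinarith [hr.2, hr.1]) h4
  refine ⟨P, hP, ?_⟩
  intro s t hs ht hst
  have hkey : ∀ r ∈ Ico (0 : ℝ) 1, dist (dv R ψ u (u + (s • a + t • b))) P ≤
      |r * s' - s| * ‖a‖ + |r * t' - t| * ‖b‖ + (1 - r) * ‖y - u‖ := by
    intro r hr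
    have e1 := hPd r hr
    rw [hray r hr] at e1
    have hlt : r * s' + r * t' < s' + t' := by
      have : r * s' + r * t' = r * (s' + t') := by ring
      rw [this]
      nlinarith [hr.2, hr.1]
    have e2 : dist (dv R ψ u (u + (s • a + t • b)))
        (dv R ψ u (u + ((r * s') • a + (r * t') • b))) ≤
        dist (u + (s • a + t • b)) (u + ((r * s') • a + (r * t') • b)) := by
      apply dist_le_of_segment (R := R)
      rintro z ⟨α, β, hα, hβ, hαβ, rfl⟩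
      have : α • (u + (s • a + t • b)) + β • (u + ((r * s') • a + (r * t') • b)) =
          u + ((α * s + β * (r * s')) • a + (α * t + β * (r * t')) • b) := by
        have h2 : α • (u + (s • a + t • b)) + β • (u + ((r * s') • a + (r * t') • b)) =
          (α + β) • u + ((α * s + β * (r * s')) • a + (α * t + β * (r * t')) • b) := by
          module
        rw [h2, hαβ, one_smul]
      rw [this]
      apply Ext.dv_LI
      apply hin
      · exact add_nonneg (mul_nonneg hα hs) (mul_nonneg hβ (mul_nonneg hr.1 h1))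
      · exact add_nonneg (mul_nonneg hα ht) (mul_nonneg hβ (mul_nonneg hr.1 h2))
      · have e3 : α * s + β * (r * s') + (α * t + β * (r * t')) =
            α * (s + t) + β * (r * s' + r * t') := by ring
        rw [e3]
        rcases eq_or_lt_of_le hα with h0 | h0
        · rw [← h0] at hαβ ⊢
          have : β = 1 := by linarith
          rw [this]
          linarith
        · have e4 : α * (s + t) < α * (s' + t') := mul_lt_mul_of_pos_left hst h0
          have e5 : β * (r * s' + r * t') ≤ β * (s' + t') :=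
            mul_le_mul_of_nonneg_left hlt.le hβ
          have e6 : α * (s' + t') + β * (s' + t') = s' + t' := by
            rw [← add_mul, hαβ, one_mul]
          linarith
    have e3 : dist (u + (s • a + t • b)) (u + ((r * s') • a + (r * t') • b)) ≤
        |r * s' - s| * ‖a‖ + |r * t' - t| * ‖b‖ := by
      rw [dist_comm, dist_eq_norm]
      have : u + ((r * s') • a + (r * t') • b) - (u + (s • a + t • b)) =
          (r * s' - s) • a + (r * t' - t) • b := by module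
      rw [this]
      refine (norm_add_le _ _).trans ?_
      rw [norm_smul, norm_smul, Real.norm_eq_abs, Real.norm_eq_abs]
    calc dist (dv R ψ u (u + (s • a + t • b))) P
        ≤ dist (dv R ψ u (u + (s • a + t • b)))
            (dv R ψ u (u + ((r * s') • a + (r * t') • b))) +
          dist (dv R ψ u (u + ((r * s') • a + (r * t') • b))) P := dist_triangle _ _ _
      _ ≤ _ := by linarith
  have hlim : Tendsto (fun r : ℝ => |r * s' - s| * ‖a‖ + |r * t' - t| * ‖b‖ + (1 - r) * ‖y - u‖)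
      (𝓝[<] 1) (𝓝 (|1 * s' - s| * ‖a‖ + |1 * t' - t| * ‖b‖ + (1 - 1) * ‖y - u‖)) := by
    apply Tendsto.mono_left _ nhdsWithin_le_nhds
    apply Continuous.tendsto
    fun_prop
  have hfin := ge_of_tendsto hlim (by
    have : Ioo (0 : ℝ) 1 ∈ 𝓝[<] (1 : ℝ) := Ioo_mem_nhdsLT one_pos
    filter_upwards [this] with r hr
    exact hkey r ⟨hr.1.le, hr.2⟩)
  simpa using hfin

/-- A lattice point close to the first bad point and before it. -/
theorem lattice {s' t' : ℝ} (hs : 0 ≤ s') (ht : 0 ≤ t') (hpos : 0 < s' + t')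
    (hle : s' + t' ≤ 1) {m : ℕ} (hm : 0 < m) :
    ∃ j ∈ Finset.range (m + 1), ∃ l ∈ Finset.range (m + 1),
      (j : ℝ) / m + (l : ℝ) / m < s' + t' ∧ |s' - (j : ℝ) / m| ≤ 1 / m ∧
      |t' - (l : ℝ) / m| ≤ 1 / m := by
  have hm' : (0 : ℝ) < m := by exact_mod_cast hm
  have below : ∀ x : ℝ, 0 < x → x ≤ 1 → ∃ j ∈ Finset.range (m + 1), (j : ℝ) / m < x ∧
      |x - (j : ℝ) / m| ≤ 1 / m := by
    intro x hx hx1
    have hc : 0 < ⌈x * m⌉₊ := Nat.ceil_pos.2 (by positivity)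
    have h1 : ((⌈x * m⌉₊ - 1 : ℕ) : ℝ) = (⌈x * m⌉₊ : ℝ) - 1 := by
      rw [Nat.cast_sub hc]; simp
    have h2 : (⌈x * m⌉₊ : ℝ) < x * m + 1 := Nat.ceil_lt_add_one (by positivity)
    have h3 : x * m ≤ (⌈x * m⌉₊ : ℝ) := Nat.le_ceil _
    have h4 : ((⌈x * m⌉₊ - 1 : ℕ) : ℝ) / m < x := by
      rw [div_lt_iff₀ hm', h1]; linarith
    refine ⟨⌈x * m⌉₊ - 1, ?_, h4, ?_⟩
    · rw [Finset.mem_range]
      have : ⌈x * m⌉₊ ≤ m := by
        rw [Nat.ceil_le]
        nlinarith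
      omega
    · rw [abs_of_pos (by linarith), _root_.sub_le_iff_le_add, ← add_div, le_div_iff₀ hm', h1]
      linarith
  have below0 : ∀ x : ℝ, 0 ≤ x → x ≤ 1 → ∃ j ∈ Finset.range (m + 1), (j : ℝ) / m ≤ x ∧
      |x - (j : ℝ) / m| ≤ 1 / m := by
    intro x hx hx1
    rcases eq_or_lt_of_le hx with h | h
    · refine ⟨0, by simp, ?_, ?_⟩
      · simp [hx]
      · simp [← h]
    · obtain ⟨j, hj, h1, h2⟩ := below x h hx1
      exact ⟨j, hj, h1.le, h2⟩
  rcases eq_or_lt_of_le hs with h | h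
  · have ht' : 0 < t' := by linarith
    obtain ⟨l, hl, l1, l2⟩ := below t' ht' (by linarith)
    obtain ⟨j, hj, j1, j2⟩ := below0 s' hs (by linarith)
    exact ⟨j, hj, l, hl, by linarith, j2, l2⟩
  · obtain ⟨j, hj, j1, j2⟩ := below s' h (by linarith)
    obtain ⟨l, hl, l1, l2⟩ := below0 t' ht (by linarith)
    exact ⟨j, hj, l, hl, by linarith, j2, l2⟩

/-- Coverings of a null set for the Hausdorff measure. -/
theorem cover_of_null [MeasurableSpace X] [BorelSpace X] {S : Set X} {d : ℝ}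
    (h : (μH[d] : Measure X) S = 0) {ε : ENNReal} (hε : 0 < ε) {r : ENNReal} (hr : 0 < r) :
    ∃ t : ℕ → Set X, S ⊆ ⋃ k, t k ∧ (∀ k, ediam (t k) ≤ r) ∧
      ∑' k, ⨆ _ : (t k).Nonempty, ediam (t k) ^ d < ε := by
  rw [hausdorffMeasure_apply] at h
  have h1 : (⨅ (t : ℕ → Set X) (_ : S ⊆ ⋃ n, t n) (_ : ∀ n, ediam (t n) ≤ r),
      ∑' n, ⨆ _ : (t n).Nonempty, ediam (t n) ^ d) ≤ 0 := by
    rw [← h]
    exact le_iSup₂ (f := fun (r : ENNReal) (_ : 0 < r) => ⨅ (t : ℕ → Set X)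
      (_ : S ⊆ ⋃ n, t n) (_ : ∀ n, ediam (t n) ≤ r),
      ∑' n, ⨆ _ : (t n).Nonempty, ediam (t n) ^ d) r hr
  have h2 := lt_of_le_of_lt h1 hε
  rw [iInf_lt_iff] at h2
  obtain ⟨t, h2⟩ := h2
  rw [iInf_lt_iff] at h2
  obtain ⟨h3, h2⟩ := h2
  rw [iInf_lt_iff] at h2
  obtain ⟨h4, h2⟩ := h2
  exact ⟨t, h3, h4, h2⟩

/-- The starting data whose triangle does not develop. -/
def Bset (R : Set X) (ψ : E n → X) (u0 : E n) (ε0 T : ℝ) : Set ((E n × E n) × E n) :=
  {p | p.2 ∈ ball u0 ε0 ∧ p.1.1 ∈ ball 0 T ∧ p.1.2 ∈ ball 0 T ∧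
    ∃ s t : ℝ, 0 ≤ s ∧ 0 ≤ t ∧ s + t ≤ 1 ∧
      ¬ Ext R ψ p.2 (p.2 + (s • p.1.1 + t • p.1.2))}

theorem bset_bound [CompleteSpace X] [MeasurableSpace X] [BorelSpace X]
    [SecondCountableTopology X] (hn : 3 ≤ n) {R : Set X}
    (hflat : ∀ x ∈ R, ∃ δ > 0, FlatAt n R x δ) {ψ : E n → X} {u0 : E n} {ε0 T : ℝ}
    (hT : 0 < T) (hε0 : 0 < ε0) (hψ : IsoAt R ψ u0 ε0)
    (hS : (μH[((n - 2 : ℕ) : ℝ)] : Measure X) Rᶜ = 0) {C : ℝ} (hC : 0 ≤ C)
    (hvol : ∀ x ∈ closedBall (ψ u0) (ε0 + T), ∀ r ∈ Ioc (0 : ℝ) 1,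
      (μH[(n : ℝ)] : Measure X) (ball x r) ≤ ENNReal.ofReal (C * r ^ n)) {ε : ℝ} (hε : 0 < ε) :
    mu3 n (Bset R ψ u0 ε0 T) ≤
      (μH[(n : ℝ)] : Measure (E n)) (ball 0 T) * (μH[(n : ℝ)] : Measure (E n)) (ball 0 T) *
        (ENNReal.ofReal ((2 * T + 1) ^ 2 * (C * 3 ^ n)) * (ENNReal.ofReal (2 * ε))) := by
  classical
  set d : ℕ := n - 2 with hd
  have hd1 : 1 ≤ d := by omega
  have hnd : n = d + 2 := by omega
  obtain ⟨t, ht1, ht2, ht3⟩ := cover_of_null (d := (d : ℝ)) hS (ε := ENNReal.ofReal ε)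
    (ENNReal.ofReal_pos.2 hε) (r := ENNReal.ofReal (1 / 3)) (ENNReal.ofReal_pos.2 (by norm_num))
  have hdiamtop : ∀ k, ediam (t k) ≠ ⊤ := fun k =>
    ne_top_of_le_ne_top ENNReal.ofReal_ne_top (ht2 k)
  set η : ℕ → ℝ := fun k => min (1 / 3) (ε * (1 / 2) ^ (k + 1)) with hη
  have hη0 : ∀ k, 0 < η k := fun k => lt_min (by norm_num) (by positivity)
  set rr : ℕ → ℝ := fun k => max (ediam (t k)).toReal (η k) with hrr
  have hr0 : ∀ k, 0 < rr k := fun k => lt_of_lt_of_le (hη0 k) (le_max_right _ _)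
  have hr3 : ∀ k, rr k ≤ 1 / 3 := by
    intro k
    refine max_le ?_ (min_le_left _ _)
    exact ENNReal.toReal_le_of_le_ofReal (by norm_num) (ht2 k)
  set I : Set ℕ := {k | (t k ∩ Rᶜ ∩ closedBall (ψ u0) (ε0 + T)).Nonempty} with hI
  have hx : ∀ k, ∃ x : X, k ∈ I → x ∈ t k ∩ Rᶜ ∩ closedBall (ψ u0) (ε0 + T) := by
    intro k
    by_cases hk : k ∈ I
    · obtain ⟨x, hx⟩ := hk
      exact ⟨x, fun _ => hx⟩
    · exact ⟨ψ u0, fun h => absurd h hk⟩
  choose x hx using hx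
  set m : ℕ → ℕ := fun k => ⌈2 * T / rr k⌉₊ with hm
  have hm0 : ∀ k, 0 < m k := fun k => Nat.ceil_pos.2 (div_pos (by linarith) (hr0 k))
  have hm1 : ∀ k, 2 * T ≤ rr k * m k := by
    intro k
    have := Nat.le_ceil (2 * T / rr k)
    rw [div_le_iff₀ (hr0 k)] at this
    rw [mul_comm (rr k)]
    exact this
  have hm2 : ∀ k, ((m k : ℝ) + 1) * rr k ≤ 2 * T + 1 := by
    intro k
    have h1 := Nat.ceil_lt_add_one (a := 2 * T / rr k) (by have := hr0 k; positivity)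
    have h2 : (m k : ℝ) + 1 ≤ 2 * T / rr k + 2 := by simp only [hm]; linarith
    calc ((m k : ℝ) + 1) * rr k ≤ (2 * T / rr k + 2) * rr k :=
          mul_le_mul_of_nonneg_right h2 (hr0 k).le
      _ = 2 * T + 2 * rr k := by
          have := (hr0 k).ne'
          field_simp
      _ ≤ 2 * T + 1 := by linarith [hr3 k]
  -- the covering
  have hcov : Bset R ψ u0 ε0 T ⊆ ⋃ k, ⋃ j ∈ Finset.range (m k + 1),
      ⋃ l ∈ Finset.range (m k + 1), {p | k ∈ I ∧ p ∈ Mset R ψ u0 ε0 T ((j : ℝ) / m k)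
        ((l : ℝ) / m k) (ball (x k) (3 * rr k))} := by
    rintro p ⟨p1, p2, p3, hbad⟩
    have hbase : Ext R ψ p.2 p.2 := by
      have h1 : dist p.2 u0 < ε0 := p1
      exact ext_self (δ := ε0 - dist p.2 u0) (by linarith)
        (hψ.sub (by linarith) (by linarith)) (mem_ball_self (by linarith))
    obtain ⟨s', t', s1, s2, s3, s4, s5, P, hP, hPd⟩ := first_bad hflat hbase hbad
    have na : ‖p.1.1‖ < T := by simpa using p2
    have nb : ‖p.1.2‖ < T := by simpa using p3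
    have hPT : P ∈ closedBall (ψ u0) (ε0 + T) := by
      have h1 := hPd 0 0 le_rfl le_rfl (by simpa using s3)
      have h2 : dv R ψ p.2 (p.2 + ((0 : ℝ) • p.1.1 + (0 : ℝ) • p.1.2)) = ψ p.2 := by
        rw [zero_smul, zero_smul, add_zero, add_zero]
        exact (dv_base hbase).self_of_nhds
      rw [h2, sub_zero, sub_zero, abs_of_nonneg s1, abs_of_nonneg s2] at h1
      have h3 : dist (ψ p.2) (ψ u0) < ε0 := by
        rw [hψ.1 _ p1 _ (mem_ball_self hε0)]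
        exact p1
      have h4 : s' * ‖p.1.1‖ + t' * ‖p.1.2‖ ≤ T := by
        have e1 : s' * ‖p.1.1‖ ≤ s' * T := mul_le_mul_of_nonneg_left na.le s1
        have e2 : t' * ‖p.1.2‖ ≤ t' * T := mul_le_mul_of_nonneg_left nb.le s2
        have e3 : s' * T + t' * T ≤ 1 * T := by
          rw [← add_mul]; exact mul_le_mul_of_nonneg_right s4 hT.le
        linarith
      rw [mem_closedBall]
      calc dist P (ψ u0) ≤ dist P (ψ p.2) + dist (ψ p.2) (ψ u0) := dist_triangle _ _ _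
        _ ≤ T + ε0 := by rw [dist_comm P]; linarith
        _ = ε0 + T := by ring
    obtain ⟨k, hk⟩ := mem_iUnion.1 (ht1 (hP : P ∈ Rᶜ))
    have hkI : k ∈ I := ⟨P, ⟨hk, hP⟩, hPT⟩
    have hxk := hx k hkI
    obtain ⟨j, hj, l, hl, hjl, hj2, hl2⟩ := lattice s1 s2 s3 s4 (hm0 k)
    have hmk : (0 : ℝ) < m k := by exact_mod_cast hm0 k
    have hjn : (0 : ℝ) ≤ (j : ℝ) / m k := by positivity
    have hln : (0 : ℝ) ≤ (l : ℝ) / m k := by positivity
    simp only [mem_iUnion]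
    refine ⟨k, j, hj, l, hl, hkI, p1, p2, p3, s5 _ _ hjn hln hjl, ?_⟩
    have h1 := hPd _ _ hjn hln hjl
    have h2 : |s' - (j : ℝ) / m k| * ‖p.1.1‖ + |t' - (l : ℝ) / m k| * ‖p.1.2‖ ≤ rr k := by
      have e1 : |s' - (j : ℝ) / m k| * ‖p.1.1‖ ≤ 1 / m k * T :=
        mul_le_mul hj2 na.le (norm_nonneg _) (by positivity)
      have e2 : |t' - (l : ℝ) / m k| * ‖p.1.2‖ ≤ 1 / m k * T :=
        mul_le_mul hl2 nb.le (norm_nonneg _) (by positivity)
      have e3 : 1 / (m k : ℝ) * T + 1 / m k * T ≤ rr k := by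
        rw [← add_mul, ← add_div, div_mul_eq_mul_div, div_le_iff₀ hmk]
        have := hm1 k
        linarith
      linarith
    have h3 : dist P (x k) ≤ rr k := by
      have e1 : edist P (x k) ≤ ediam (t k) := Metric.edist_le_ediam_of_mem hk hxk.1.1
      have e2 : dist P (x k) ≤ (ediam (t k)).toReal := by
        rw [dist_edist]
        exact ENNReal.toReal_mono (hdiamtop k) e1
      exact e2.trans (le_max_left _ _)
    rw [mem_ball]
    calc dist (dv R ψ p.2 (ep ((j : ℝ) / m k) ((l : ℝ) / m k) p)) (x k)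
        ≤ dist (dv R ψ p.2 (ep ((j : ℝ) / m k) ((l : ℝ) / m k) p)) P + dist P (x k) :=
          dist_triangle _ _ _
      _ ≤ rr k + rr k := add_le_add (h1.trans h2) h3
      _ < 3 * rr k := by linarith [hr0 k]
  set μB := (μH[(n : ℝ)] : Measure (E n)) (ball 0 T) with hμB
  have hone : ∀ k j l, mu3 n {p | k ∈ I ∧ p ∈ Mset R ψ u0 ε0 T ((j : ℝ) / m k)
      ((l : ℝ) / m k) (ball (x k) (3 * rr k))} ≤
      if k ∈ I then μB * μB * ENNReal.ofReal (C * (3 * rr k) ^ n) else 0 := by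
    intro k j l
    by_cases hk : k ∈ I
    · rw [if_pos hk]
      have h1 : {p | k ∈ I ∧ p ∈ Mset R ψ u0 ε0 T ((j : ℝ) / m k)
          ((l : ℝ) / m k) (ball (x k) (3 * rr k))} = Mset R ψ u0 ε0 T ((j : ℝ) / m k)
          ((l : ℝ) / m k) (ball (x k) (3 * rr k)) := by
        ext p; simp [hk]
      rw [h1]
      refine (measure_Mset_le hflat hψ isOpen_ball).trans ?_
      gcongr
      exact hvol _ (hx k hk).2 _ ⟨by linarith [hr0 k], by linarith [hr3 k]⟩
    · rw [if_neg hk]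
      have h1 : {p | k ∈ I ∧ p ∈ Mset R ψ u0 ε0 T ((j : ℝ) / m k)
          ((l : ℝ) / m k) (ball (x k) (3 * rr k))} = ∅ := by
        ext p; simp [hk]
      rw [h1]
      simp
  have hterm : ∀ k, mu3 n (⋃ j ∈ Finset.range (m k + 1),
      ⋃ l ∈ Finset.range (m k + 1), {p | k ∈ I ∧ p ∈ Mset R ψ u0 ε0 T ((j : ℝ) / m k)
        ((l : ℝ) / m k) (ball (x k) (3 * rr k))}) ≤
      μB * μB * (ENNReal.ofReal ((2 * T + 1) ^ 2 * (C * 3 ^ n)) *
        ((⨆ _ : (t k).Nonempty, ediam (t k) ^ (d : ℝ)) +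
          ENNReal.ofReal (ε * (1 / 2) ^ (k + 1)))) := by
    intro k
    have h1 : mu3 n (⋃ j ∈ Finset.range (m k + 1),
      ⋃ l ∈ Finset.range (m k + 1), {p | k ∈ I ∧ p ∈ Mset R ψ u0 ε0 T ((j : ℝ) / m k)
        ((l : ℝ) / m k) (ball (x k) (3 * rr k))}) ≤
        ∑ j ∈ Finset.range (m k + 1), ∑ l ∈ Finset.range (m k + 1),
          (if k ∈ I then μB * μB * ENNReal.ofReal (C * (3 * rr k) ^ n) else 0) := by
      refine (measure_biUnion_finset_le _ _).trans (Finset.sum_le_sum fun j _ => ?_)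
      exact (measure_biUnion_finset_le _ _).trans (Finset.sum_le_sum fun l _ => hone k j l)
    refine h1.trans ?_
    by_cases hk : k ∈ I
    · simp only [if_pos hk, Finset.sum_const, Finset.card_range, nsmul_eq_mul]
      have hne : (t k).Nonempty := by
        obtain ⟨z, hz⟩ := hk
        exact ⟨z, hz.1.1⟩
      have h2 : (((m k + 1 : ℕ) : ENNReal)) * ((((m k + 1 : ℕ) : ENNReal)) *
          (μB * μB * ENNReal.ofReal (C * (3 * rr k) ^ n))) =
          μB * μB * (((m k + 1 : ℕ) : ENNReal) * ((m k + 1 : ℕ) : ENNReal) *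
            ENNReal.ofReal (C * (3 * rr k) ^ n)) := by ring
      rw [h2]
      refine mul_le_mul' le_rfl ?_
      have h3 : ((m k + 1 : ℕ) : ENNReal) = ENNReal.ofReal ((m k : ℝ) + 1) := by
        rw [← ENNReal.ofReal_natCast]
        congr 1
        push_cast
        ring
      rw [h3, ← ENNReal.ofReal_mul (by positivity), ← ENNReal.ofReal_mul (by positivity)]
      have h4 : ((m k : ℝ) + 1) * ((m k : ℝ) + 1) * (C * (3 * rr k) ^ n) ≤
          (2 * T + 1) ^ 2 * (C * 3 ^ n) * rr k ^ d := by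
        have e1 : ((m k : ℝ) + 1) * ((m k : ℝ) + 1) * (C * (3 * rr k) ^ n) =
            (((m k : ℝ) + 1) * rr k) ^ 2 * (C * 3 ^ n) * rr k ^ d := by
          rw [mul_pow 3 (rr k) n]
          conv_lhs => rw [hnd]
          conv_rhs => rw [hnd]
          ring
        rw [e1]
        have e2 : (((m k : ℝ) + 1) * rr k) ^ 2 ≤ (2 * T + 1) ^ 2 :=
          pow_le_pow_left₀ (by have := (hr0 k).le; positivity) (hm2 k) 2
        have e3 : 0 ≤ C * 3 ^ n := by positivity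
        have e4 : 0 ≤ rr k ^ d := pow_nonneg (hr0 k).le d
        exact mul_le_mul_of_nonneg_right (mul_le_mul_of_nonneg_right e2 e3) e4
      refine (ENNReal.ofReal_le_ofReal h4).trans ?_
      rw [ENNReal.ofReal_mul (by positivity)]
      refine mul_le_mul' le_rfl ?_
      rw [iSup_pos hne]
      have h5 : rr k ^ d ≤ (ediam (t k)).toReal ^ d + η k := by
        rcases le_total (ediam (t k)).toReal (η k) with h | h
        · have e1 : rr k = η k := max_eq_right h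
          rw [e1]
          have e2 : η k ^ d ≤ η k := by
            apply pow_le_of_le_one (hη0 k).le _ (by omega)
            exact (min_le_left _ _).trans (by norm_num)
          have e3 : 0 ≤ (ediam (t k)).toReal ^ d := pow_nonneg ENNReal.toReal_nonneg d
          linarith
        · have e1 : rr k = (ediam (t k)).toReal := max_eq_left h
          rw [e1]
          linarith [(hη0 k).le]
      refine (ENNReal.ofReal_le_ofReal h5).trans ?_
      rw [ENNReal.ofReal_add (pow_nonneg ENNReal.toReal_nonneg d) (hη0 k).le]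
      apply add_le_add
      · rw [ENNReal.ofReal_pow ENNReal.toReal_nonneg, ENNReal.ofReal_toReal (hdiamtop k),
          ENNReal.rpow_natCast]
      · exact ENNReal.ofReal_le_ofReal (min_le_right _ _)
    · simp [if_neg hk]
  have hgeo : ∑' k : ℕ, ENNReal.ofReal (ε * (1 / 2) ^ (k + 1)) = ENNReal.ofReal ε := by
    rw [← ENNReal.ofReal_tsum_of_nonneg (fun k => by positivity)]
    · congr 1
      rw [tsum_mul_left]
      have h1 : ∑' k : ℕ, ((1 : ℝ) / 2) ^ (k + 1) = 1 := by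
        have h2 : ∀ k : ℕ, ((1 : ℝ) / 2) ^ (k + 1) = 1 / 2 * (1 / 2) ^ k := fun k => by ring
        simp_rw [h2]
        rw [tsum_mul_left, tsum_geometric_two]
        norm_num
      rw [h1, mul_one]
    · apply Summable.mul_left
      have h2 : ∀ k : ℕ, ((1 : ℝ) / 2) ^ (k + 1) = 1 / 2 * (1 / 2) ^ k := fun k => by ring
      simp_rw [h2]
      exact summable_geometric_two.mul_left _
  calc mu3 n (Bset R ψ u0 ε0 T)
      ≤ ∑' k, μB * μB * (ENNReal.ofReal ((2 * T + 1) ^ 2 * (C * 3 ^ n)) *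
        ((⨆ _ : (t k).Nonempty, ediam (t k) ^ (d : ℝ)) +
          ENNReal.ofReal (ε * (1 / 2) ^ (k + 1)))) :=
        (measure_mono hcov).trans ((measure_iUnion_le _).trans (ENNReal.tsum_le_tsum hterm))
    _ = μB * μB * (ENNReal.ofReal ((2 * T + 1) ^ 2 * (C * 3 ^ n)) *
        (∑' k, (⨆ _ : (t k).Nonempty, ediam (t k) ^ (d : ℝ)) + ENNReal.ofReal ε)) := by
        rw [ENNReal.tsum_mul_left, ENNReal.tsum_mul_left, ENNReal.tsum_add, hgeo]
    _ ≤ μB * μB * (ENNReal.ofReal ((2 * T + 1) ^ 2 * (C * 3 ^ n)) *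
        (ENNReal.ofReal (2 * ε))) := by
        gcongr
        rw [two_mul, ENNReal.ofReal_add hε.le hε.le]
        exact add_le_add ht3.le le_rfl

/-- Local volume bounds. -/
def VolBound (n : ℕ) (X : Type*) [MetricSpace X] [MeasurableSpace X] [BorelSpace X] : Prop :=
  ∀ (x₀ : X) (ρ : ℝ), ∃ C : ℝ, ∀ x ∈ closedBall x₀ ρ, ∀ r ∈ Ioc (0 : ℝ) 1,
    (μH[(n : ℝ)] : Measure X) (ball x r) ≤ ENNReal.ofReal (C * r ^ n)

theorem bset_null [CompleteSpace X] [MeasurableSpace X] [BorelSpace X]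
    [SecondCountableTopology X] (hn : 3 ≤ n) {R : Set X}
    (hflat : ∀ x ∈ R, ∃ δ > 0, FlatAt n R x δ) {ψ : E n → X} {u0 : E n} {ε0 T : ℝ}
    (hT : 0 < T) (hε0 : 0 < ε0) (hψ : IsoAt R ψ u0 ε0)
    (hS : (μH[((n - 2 : ℕ) : ℝ)] : Measure X) Rᶜ = 0) (hvol : VolBound n X) :
    mu3 n (Bset R ψ u0 ε0 T) = 0 := by
  obtain ⟨C, hC⟩ := hvol (ψ u0) (ε0 + T)
  have hC' : ∀ x ∈ closedBall (ψ u0) (ε0 + T), ∀ r ∈ Ioc (0 : ℝ) 1,
      (μH[(n : ℝ)] : Measure X) (ball x r) ≤ ENNReal.ofReal (max C 0 * r ^ n) := by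
    intro x hx r hr
    refine (hC x hx r hr).trans (ENNReal.ofReal_le_ofReal ?_)
    exact mul_le_mul_of_nonneg_right (le_max_left _ _) (pow_nonneg hr.1.le n)
  set K := (μH[(n : ℝ)] : Measure (E n)) (ball 0 T) * (μH[(n : ℝ)] : Measure (E n)) (ball 0 T)
    with hK
  have hKtop : K ≠ ⊤ := by
    rw [hK]
    exact ENNReal.mul_ne_top measure_ball_lt_top.ne measure_ball_lt_top.ne
  have hb : ∀ m : ℕ, mu3 n (Bset R ψ u0 ε0 T) ≤
      K * (ENNReal.ofReal ((2 * T + 1) ^ 2 * (max C 0 * 3 ^ n)) *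
        (ENNReal.ofReal (2 * (1 / ((m : ℝ) + 1))))) := fun m =>
    bset_bound hn hflat hT hε0 hψ hS (le_max_right _ _) hC' (by positivity)
  have hlim : Tendsto (fun m : ℕ => K * (ENNReal.ofReal ((2 * T + 1) ^ 2 * (max C 0 * 3 ^ n)) *
        (ENNReal.ofReal (2 * (1 / ((m : ℝ) + 1)))))) atTop (𝓝 (K *
        (ENNReal.ofReal ((2 * T + 1) ^ 2 * (max C 0 * 3 ^ n)) * ENNReal.ofReal (2 * 0)))) := by
    refine ENNReal.Tendsto.const_mul ?_ (Or.inr hKtop)
    refine ENNReal.Tendsto.const_mul ?_ (Or.inr ENNReal.ofReal_ne_top)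
    refine (ENNReal.continuous_ofReal.tendsto _).comp ?_
    exact tendsto_one_div_add_atTop_nhds_zero_nat.const_mul 2
  have := ge_of_tendsto' hlim hb
  simpa using this

/-- There is a base point from which almost every triangle develops. -/
theorem exists_good_base [CompleteSpace X] [MeasurableSpace X] [BorelSpace X]
    [SecondCountableTopology X] (hn : 3 ≤ n) {R : Set X}
    (hflat : ∀ x ∈ R, ∃ δ > 0, FlatAt n R x δ) {ψ : E n → X} {u0 : E n} {ε0 : ℝ}
    (hε0 : 0 < ε0) (hψ : IsoAt R ψ u0 ε0)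
    (hS : (μH[((n - 2 : ℕ) : ℝ)] : Measure X) Rᶜ = 0) (hvol : VolBound n X) :
    ∃ u ∈ ball u0 ε0, ∀ᵐ ab ∂((μH[(n : ℝ)] : Measure (E n)).prod μH[(n : ℝ)]),
      ∀ s t : ℝ, 0 ≤ s → 0 ≤ t → s + t ≤ 1 →
        Ext R ψ u (u + (s • ab.1 + t • ab.2)) := by
  have h1 : ∀ᵐ p ∂(mu3 n), ∀ T : ℕ, p ∉ Bset R ψ u0 ε0 ((T : ℝ) + 1) := by
    rw [ae_all_iff]
    intro T
    exact measure_eq_zero_iff_ae_notMem.1
      (bset_null hn hflat (by positivity) hε0 hψ hS hvol)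
  have h2 : ∀ᵐ p ∂(mu3 n), p.2 ∈ ball u0 ε0 → ∀ s t : ℝ, 0 ≤ s → 0 ≤ t → s + t ≤ 1 →
      Ext R ψ p.2 (p.2 + (s • p.1.1 + t • p.1.2)) := by
    filter_upwards [h1] with p hp hpb s t hs ht hst
    by_contra hcon
    obtain ⟨T, hT⟩ := exists_nat_gt (max ‖p.1.1‖ ‖p.1.2‖)
    apply hp T
    refine ⟨hpb, ?_, ?_, s, t, hs, ht, hst, hcon⟩
    · rw [mem_ball_zero_iff]
      have := le_max_left ‖p.1.1‖ ‖p.1.2‖
      linarith
    · rw [mem_ball_zero_iff]
      have := le_max_right ‖p.1.1‖ ‖p.1.2‖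
      linarith
  have h3 : ∀ᵐ q ∂((μH[(n : ℝ)] : Measure (E n)).prod
      ((μH[(n : ℝ)] : Measure (E n)).prod (μH[(n : ℝ)] : Measure (E n)))),
      q.swap.2 ∈ ball u0 ε0 → ∀ s t : ℝ, 0 ≤ s → 0 ≤ t → s + t ≤ 1 →
      Ext R ψ q.swap.2 (q.swap.2 + (s • q.swap.1.1 + t • q.swap.1.2)) :=
    (Measure.measurePreserving_swap.quasiMeasurePreserving).ae h2
  have h4 := Measure.ae_ae_of_ae_prod h3
  by_contra hcon
  push Not at hcon
  have h5 : ball u0 ε0 ⊆ {u | ¬ ∀ᵐ y ∂((μH[(n : ℝ)] : Measure (E n)).prod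
      (μH[(n : ℝ)] : Measure (E n))), (u, y).swap.2 ∈ ball u0 ε0 → ∀ s t : ℝ, 0 ≤ s → 0 ≤ t →
      s + t ≤ 1 → Ext R ψ (u, y).swap.2 ((u, y).swap.2 + (s • (u, y).swap.1.1 +
        t • (u, y).swap.1.2))} := by
    intro u hu hall
    apply hcon u hu
    filter_upwards [hall] with y hy
    rintro ⟨s, t, hs, ht, hst, hne⟩
    exact hne (hy hu s t hs ht hst)
  have h6 := measure_mono_null h5 (ae_iff.1 h4)
  exact (measure_ball_pos (μH[(n : ℝ)] : Measure (E n)) u0 hε0).ne' h6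

end Pool.Agent.Work.MP_fef182_gt
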