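import Pool.Agent.Work.MP_fef182_gt.FLe

/-!
Flat spaces: the developed map from Euclidean space.
-/

open Set Metric Filter Topology MeasureTheory Measure

namespace Pool.Agent.Work.MP_fef182_gt

variable {n : ℕ} {X : Type*} [MetricSpace X]

theorem isoAt_affine (A : E n ≃ᵃⁱ[ℝ] E n) (y : E n) (δ : ℝ) :
    IsoAt (univ : Set (E n)) (fun z => A z) y δ := by
  refine ⟨fun a _ b _ => A.dist_map a b, ?_, subset_univ _⟩
  exact A.toIsometryEquiv.image_ball y δ

/-- A map that lifts a local isometry through a chart is a local isometry of Euclidean space. -/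
theorem lift_LI {R : Set X} {φ : E n → X} {x0 : E n} {δ : ℝ} (hφ : IsoAt R φ x0 δ)
    {D : E n → X} {f : E n → E n} {U : Set (E n)} (hU : IsOpen U)
    (hf : ∀ z ∈ U, f z ∈ ball x0 δ ∧ φ (f z) = D z) {z : E n} (hz : z ∈ U) (hD : LI R D z) :
    ∃ A : E n ≃ᵃⁱ[ℝ] E n, f =ᶠ[𝓝 z] fun w => A w := by
  obtain ⟨η, hη, hd⟩ := hD
  have hfz : dist (f z) x0 < δ := (hf z hz).1
  have hη' : 0 < min η (δ - dist (f z) x0) := lt_min hη (by linarith)
  obtain ⟨A, hA1, hA2⟩ := compare hη' (hd.mono hη' (min_le_left _ _))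
    (hφ.sub (a := f z) hη' (by
      have := min_le_right η (δ - dist (f z) x0)
      linarith)) ((hf z hz).2.symm)
  refine ⟨A, ?_⟩
  have h1 : ∀ᶠ w in 𝓝 z, A w ∈ ball x0 δ := by
    apply A.continuous.continuousAt.eventually
    apply isOpen_ball.mem_nhds
    rw [hA1]
    exact (hf z hz).1
  filter_upwards [h1, ball_mem_nhds z hη', hU.mem_nhds hz] with w hw1 hw2 hw3
  refine hφ.injOn (hf w hw3).1 hw1 ?_
  rw [(hf w hw3).2, hA2 w hw2]

/-- The developed map. -/
theorem developed_map [CompleteSpace X] [MeasurableSpace X] [BorelSpace X]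
    [SecondCountableTopology X] (hn : 3 ≤ n) {R : Set X} (hR : R.Nonempty)
    (hflat : ∀ x ∈ R, ∃ δ > 0, FlatAt n R x δ)
    (hS : (μH[((n - 2 : ℕ) : ℝ)] : Measure X) Rᶜ = 0) (hvol : VolBound n X) :
    ∃ F : E n → X, (∀ y y', dist (F y) (F y') ≤ dist y y') ∧
      (∀ y δ, 0 < δ → FlatAt n R (F y) δ → IsoAt R F y δ) ∧
      (∀ᵐ ab ∂((μH[(n : ℝ)] : Measure (E n)).prod μH[(n : ℝ)]),
        ∀ z ∈ segment ℝ ab.1 ab.2, F z ∈ R) := by
  obtain ⟨w, hw⟩ := hR
  obtain ⟨δ0, hδ0, ψ, hψ0, hψ⟩ := hflat w hw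
  obtain ⟨u, hu, hae⟩ := exists_good_base hn hflat hδ0 hψ hS hvol
  set D : E n → X := dv R ψ u with hD
  set G : Set (E n) := {y | Ext R ψ u y} with hG
  have hGo : IsOpen G := isOpen_ext R ψ u
  have hDLI : ∀ z ∈ G, LI R D z := fun z hz => Ext.dv_LI hz
  -- almost every segment lies in `G`
  have hseg : ∀ᵐ ab ∂((μH[(n : ℝ)] : Measure (E n)).prod (μH[(n : ℝ)] : Measure (E n))),
      segment ℝ ab.1 ab.2 ⊆ G := by
    have hmp : MeasurePreserving (fun p : E n × E n => (p.1 + (-u), p.2 + (-u)))
        ((μH[(n : ℝ)] : Measure (E n)).prod (μH[(n : ℝ)] : Measure (E n)))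
        ((μH[(n : ℝ)] : Measure (E n)).prod (μH[(n : ℝ)] : Measure (E n))) :=
      (measurePreserving_add_right _ (-u)).prod (measurePreserving_add_right _ (-u))
    have h1 := hmp.quasiMeasurePreserving.ae hae
    filter_upwards [h1] with ab hab
    rintro z ⟨s, t, hs, ht, hst, rfl⟩
    have h2 := hab s t hs ht hst.le
    have h3 : u + (s • (ab.1 + -u) + t • (ab.2 + -u)) = s • ab.1 + t • ab.2 := by
      have h4 : u + (s • (ab.1 + -u) + t • (ab.2 + -u)) =
        u - (s + t) • u + (s • ab.1 + t • ab.2) := by module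
      rw [h4, hst, one_smul, sub_self, zero_add]
    simp only [h3] at h2
    exact h2
  have hdense2 : Dense {ab : E n × E n | segment ℝ ab.1 ab.2 ⊆ G} :=
    Measure.dense_of_ae hseg
  have hGd : Dense G := by
    intro y
    rw [mem_closure_iff_nhds]
    intro N hN
    have h1 : Prod.fst ⁻¹' N ∈ 𝓝 ((y, y) : E n × E n) := continuous_fst.continuousAt hN
    obtain ⟨ab, hab1, hab2⟩ := (mem_closure_iff_nhds.1 (hdense2 (y, y))) _ h1
    exact ⟨ab.1, hab1, hab2 (left_mem_segment ℝ _ _)⟩
  -- the development is 1-Lipschitz on `G`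
  have hDlip : ∀ a ∈ G, ∀ b ∈ G, dist (D a) (D b) ≤ dist a b := by
    intro a ha b hb
    by_contra hcon
    push Not at hcon
    have hc1 : ContinuousAt (fun p : E n × E n => dist (D p.1) (D p.2)) (a, b) := by
      have e1 : ContinuousAt (fun p : E n × E n => D p.1) (a, b) :=
        ContinuousAt.comp (f := Prod.fst) (g := D) (hDLI a ha).continuousAt
          continuous_fst.continuousAt
      have e2 : ContinuousAt (fun p : E n × E n => D p.2) (a, b) :=
        ContinuousAt.comp (f := Prod.snd) (g := D) (hDLI b hb).continuousAt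
          continuous_snd.continuousAt
      exact e1.dist e2
    have hc2 : ContinuousAt (fun p : E n × E n => dist p.1 p.2) (a, b) :=
      continuous_dist.continuousAt
    have hev : ∀ᶠ p : E n × E n in 𝓝 (a, b), dist p.1 p.2 < dist (D p.1) (D p.2) :=
      hc2.eventually_lt hc1 hcon
    obtain ⟨ab, hab1, hab2⟩ := (mem_closure_iff_nhds.1 (hdense2 (a, b))) _ hev
    have := dist_le_of_segment (R := R) (F := D) (a := ab.1) (b := ab.2)
      (fun z hz => hDLI z (hab2 hz))
    have hab1' : dist ab.1 ab.2 < dist (D ab.1) (D ab.2) := hab1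
    linarith
  -- extension
  have hfl : LipschitzWith 1 (fun z : G => D z) := by
    refine LipschitzWith.of_dist_le_mul fun a b => ?_
    rw [NNReal.coe_one, one_mul]
    exact hDlip a a.2 b b.2
  have hui : IsUniformInducing (fun z : G => (z : E n)) := isUniformInducing_val G
  have hdr : DenseRange (fun z : G => (z : E n)) := hGd.denseRange_val
  set hdi := hui.isDenseInducing hdr with hhdi
  set F : E n → X := hdi.extend (fun z : G => D z) with hF
  have hFc : Continuous F :=
    (uniformContinuous_uniformly_extend hui hdr hfl.uniformContinuous).continuous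
  have hFG : ∀ z ∈ G, F z = D z := by
    intro z hz
    exact hdi.extend_eq hfl.continuous ⟨z, hz⟩
  have hFlip : ∀ y y', dist (F y) (F y') ≤ dist y y' := by
    intro y y'
    have hcl : IsClosed {p : E n × E n | dist (F p.1) (F p.2) ≤ dist p.1 p.2} :=
      isClosed_le ((hFc.comp continuous_fst).dist (hFc.comp continuous_snd)) continuous_dist
    have hsub : G ×ˢ G ⊆ {p : E n × E n | dist (F p.1) (F p.2) ≤ dist p.1 p.2} := by
      rintro ⟨a, b⟩ ⟨ha, hb⟩
      simp only [mem_ofPred_eq]
      rw [hFG a ha, hFG b hb]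
      exact hDlip a ha b hb
    have hd : Dense (G ×ˢ G) := hGd.prod hGd
    have := hcl.closure_subset_iff.2 hsub (hd (y, y'))
    exact this
  have hFR : ∀ z ∈ G, F z ∈ R := fun z hz => by
    rw [hFG z hz]; exact (hDLI z hz).mem
  have hFLI : ∀ z ∈ G, LI R F z := by
    intro z hz
    refine (hDLI z hz).congr ?_
    filter_upwards [hGo.mem_nhds hz] with w hw
    exact hFG w hw
  refine ⟨F, hFlip, ?_, ?_⟩
  · rintro y δ hδ ⟨φ, hφ0, hφ⟩
    have hmaps : ∀ z ∈ ball y δ, F z ∈ ball (F y) δ := by
      intro z hz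
      exact lt_of_le_of_lt (hFlip z y) hz
    have hex : ∀ z : E n, ∃ v : E n, z ∈ ball y δ → v ∈ ball 0 δ ∧ φ v = F z := by
      intro z
      by_cases hz : z ∈ ball y δ
      · have h1 := hmaps z hz
        rw [← hφ0, ← hφ.2.1] at h1
        obtain ⟨v, hv, hv'⟩ := h1
        exact ⟨v, fun _ => ⟨hv, hv'⟩⟩
      · exact ⟨0, fun h => absurd h hz⟩
    choose f hf using hex
    have hff : ∀ a ∈ ball y δ, ∀ b ∈ ball y δ, dist (f a) (f b) = dist (F a) (F b) := by
      intro a ha b hb
      rw [← hφ.1 _ (hf a ha).1 _ (hf b hb).1, (hf a ha).2, (hf b hb).2]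
    have hsegiso : ∀ a ∈ ball y δ, ∀ b ∈ ball y δ, segment ℝ a b ⊆ G →
        dist (F a) (F b) = dist a b := by
      intro a ha b hb hab
      have hsub : segment ℝ a b ⊆ G ∩ ball y δ :=
        subset_inter hab ((convex_ball y δ).segment_subset ha hb)
      have hcomp : IsCompact (segment ℝ a b) := by
        rw [segment_eq_image_lineMap]
        exact isCompact_Icc.image AffineMap.lineMap_continuous
      obtain ⟨η, hη, hth⟩ := hcomp.exists_thickening_subset_open (hGo.inter isOpen_ball) hsub
      set C := thickening η (segment ℝ a b) with hC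
      have hCa : a ∈ C := self_subset_thickening hη _ (left_mem_segment ℝ a b)
      have hCb : b ∈ C := self_subset_thickening hη _ (right_mem_segment ℝ a b)
      have hloc : ∀ z ∈ C, ∃ A : E n ≃ᵃⁱ[ℝ] E n, f =ᶠ[𝓝 z] fun w => A w := by
        intro z hz
        exact lift_LI hφ (D := F) isOpen_ball (fun w hw => hf w hw) (hth hz).2
          (hFLI z (hth hz).1)
      have hfLI : ∀ z ∈ C, LI (univ : Set (E n)) f z := by
        intro z hz
        obtain ⟨A, hA⟩ := hloc z hz
        exact LI.congr ⟨1, one_pos, isoAt_affine A z 1⟩ hA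
      obtain ⟨A, hA⟩ := hloc a hCa
      have hALI : ∀ z ∈ C, LI (univ : Set (E n)) (fun w => A w) z :=
        fun z _ => ⟨1, one_pos, isoAt_affine A z 1⟩
      have hpre : IsPreconnected C := ((convex_segment a b).thickening η).isPreconnected
      have hb' := (unique_of_local hpre hfLI hALI hCa hA b hCb).self_of_nhds
      have ha' := hA.self_of_nhds
      rw [← hff a ha b hb, ha', hb', A.dist_map]
    have hiso : ∀ a ∈ ball y δ, ∀ b ∈ ball y δ, dist (F a) (F b) = dist a b := by
      intro a ha b hb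
      refine le_antisymm (hFlip a b) ?_
      by_contra hcon
      push Not at hcon
      have hc1 : ContinuousAt (fun p : E n × E n => dist (F p.1) (F p.2)) (a, b) :=
        ((hFc.comp continuous_fst).dist (hFc.comp continuous_snd)).continuousAt
      have hc2 : ContinuousAt (fun p : E n × E n => dist p.1 p.2) (a, b) :=
        continuous_dist.continuousAt
      have hev : ∀ᶠ p : E n × E n in 𝓝 (a, b), dist (F p.1) (F p.2) < dist p.1 p.2 :=
        hc1.eventually_lt hc2 hcon
      have hev2 : ∀ᶠ p : E n × E n in 𝓝 (a, b), p.1 ∈ ball y δ :=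
        continuous_fst.continuousAt.eventually (isOpen_ball.mem_nhds ha)
      have hev3 : ∀ᶠ p : E n × E n in 𝓝 (a, b), p.2 ∈ ball y δ :=
        continuous_snd.continuousAt.eventually (isOpen_ball.mem_nhds hb)
      obtain ⟨ab, ⟨hab1, hab2, hab3⟩, hab4⟩ := (mem_closure_iff_nhds.1 (hdense2 (a, b))) _
        (hev.and (hev2.and hev3))
      have := hsegiso ab.1 hab2 ab.2 hab3 hab4
      linarith
    refine ⟨hiso, ?_, ?_⟩
    · apply Subset.antisymm
      · rintro _ ⟨z, hz, rfl⟩
        exact hmaps z hz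
      · intro x hx
        obtain ⟨A, hA⟩ := affine_of_iso (f := f) (y := y) hδ (by
          intro a ha b hb
          rw [hff a ha b hb, hiso a ha b hb])
        have hyb : y ∈ ball y δ := mem_ball_self hδ
        have hAy : A y = 0 := by
          rw [← hA y hyb]
          refine hφ.injOn (hf y hyb).1 (mem_ball_self hδ) ?_
          rw [(hf y hyb).2, hφ0]
        have hx' : x ∈ φ '' ball 0 δ := by
          rw [hφ.2.1, hφ0]; exact hx
        obtain ⟨z, hz, rfl⟩ := hx'
        have hsy : A.symm z ∈ ball y δ := by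
          rw [mem_ball]
          have h1 : dist (A (A.symm z)) (A y) = dist (A.symm z) y := A.dist_map _ _
          rw [A.apply_symm_apply, hAy] at h1
          rw [← h1]
          exact hz
        refine ⟨A.symm z, hsy, ?_⟩
        rw [← (hf _ hsy).2, hA _ hsy, A.apply_symm_apply]
    · have := hφ.2.2
      rw [hφ0] at this
      exact this
  · filter_upwards [hseg] with ab hab
    intro z hz
    exact hFR z (hab hz)

end Pool.Agent.Work.MP_fef182_gt
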