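import Mathlib

/-!
# Definitions for the theorem on limits with flat regular part
-/

open Set Metric MeasureTheory Measure

namespace Pool.Agent.FlatLim

/-- Euclidean space of dimension `n`. -/
abbrev E (n : ℕ) := EuclideanSpace ℝ (Fin n)

/-- `x` is a regular (flat) point: a ball about `x` is isometric to a Euclidean ball of
dimension `n`. -/
def Regular (n : ℕ) {X : Type*} [MetricSpace X] (x : X) : Prop :=
  ∃ ρ : ℝ, 0 < ρ ∧ ∃ ψ : E n → X, ψ 0 = x ∧ ψ '' ball 0 ρ = ball x ρ ∧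
    ∀ a ∈ ball (0 : E n) ρ, ∀ b ∈ ball (0 : E n) ρ, dist (ψ a) (ψ b) = dist a b

/-- Two points of `R` are joined by curves in `R` whose length is arbitrarily close to their
distance (the metric is the length metric of `R`). -/
def LengthOn {X : Type*} [MetricSpace X] (R : Set X) : Prop :=
  ∀ x ∈ R, ∀ y ∈ R, ∀ η > 0, ∃ γ : ℝ → X, ContinuousOn γ (Icc 0 1) ∧ γ 0 = x ∧ γ 1 = y ∧
    (∀ t ∈ Icc (0 : ℝ) 1, γ t ∈ R) ∧
    eVariationOn γ (Icc 0 1) ≤ ENNReal.ofReal (dist x y + η)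

/-- Local Euclidean upper volume bounds: the `n`-dimensional Hausdorff measure of a ball of radius
`r ≤ 1` with centre in a bounded region is at most `C * r ^ n`, `C` depending on the region. -/
def VolBound (n : ℕ) (X : Type*) [MetricSpace X] [MeasurableSpace X] [BorelSpace X] : Prop :=
  ∀ (x₀ : X) (ρ : ℝ), ∃ C : ℝ, ∀ x ∈ closedBall x₀ ρ, ∀ r ∈ Ioc (0 : ℝ) 1,
    (μH[(n : ℝ)] : Measure X) (ball x r) ≤ ENNReal.ofReal (C * r ^ n)

/-- `F : ℝ^n → X` is the quotient map for the discrete group `Γ` of isometries, and `X` carries the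
quotient metric. -/
structure IsQuotient {n : ℕ} {X : Type*} [MetricSpace X] (Γ : Subgroup (E n ≃ᵢ E n))
    (F : E n → X) : Prop where
  discrete : ∀ (z : E n) (r : ℝ), {g : E n ≃ᵢ E n | g ∈ Γ ∧ dist (g z) z ≤ r}.Finite
  surjective : Function.Surjective F
  fibre : ∀ y y' : E n, F y = F y' ↔ ∃ g ∈ Γ, g y = y'
  dist_le : ∀ y y' : E n, ∀ g ∈ Γ, dist (F y) (F y') ≤ dist (g y) y'
  dist_eq : ∀ y y' : E n, ∃ g ∈ Γ, dist (F y) (F y') = dist (g y) y'

/-- The linear part of every element of `Γ` has determinant one. -/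
def Oriented {n : ℕ} (Γ : Subgroup (E n ≃ᵢ E n)) : Prop :=
  ∀ g ∈ Γ, LinearMap.det
    (g.toRealAffineIsometryEquiv.linearIsometryEquiv.toLinearEquiv : E n →ₗ[ℝ] E n) = 1

/-- The ball of radius `ρ` about `(0, 0)` in `ℝ^(n-4) × ℝ^4`. -/
def ModelBall (n : ℕ) (ρ : ℝ) : Set (E (n - 4) × E 4) := {p | ‖p.1‖ ^ 2 + ‖p.2‖ ^ 2 < ρ ^ 2}

/-- The group `G` of linear isometries of `ℝ^4` acts freely outside the origin. -/
def FreeOnSphere (G : Subgroup (E 4 ≃ₗᵢ[ℝ] E 4)) : Prop :=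
  ∀ γ ∈ G, γ ≠ 1 → ∀ z : E 4, γ z = z → z = 0

/-- The Euclidean distance of `(p.1, γ p.2)` and `q` in `ℝ^(n-4) × ℝ^4`. -/
noncomputable def pairDist {n : ℕ} (γ : E 4 ≃ₗᵢ[ℝ] E 4) (p q : E (n - 4) × E 4) : ℝ :=
  Real.sqrt (‖p.1 - q.1‖ ^ 2 + ‖γ p.2 - q.2‖ ^ 2)

/-- `φ` induces an isometry of the ball of radius `ρ` about `(0, 0)` in `ℝ^(n-4) × ℝ^4 / G` onto
the ball of radius `ρ` about `x`. -/
structure IsModelMap {n : ℕ} {X : Type*} [MetricSpace X] (x : X) (ρ : ℝ)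
    (G : Subgroup (E 4 ≃ₗᵢ[ℝ] E 4)) (φ : E (n - 4) × E 4 → X) : Prop where
  base : φ (0, 0) = x
  image : φ '' ModelBall n ρ = ball x ρ
  dist_le : ∀ p ∈ ModelBall n ρ, ∀ q ∈ ModelBall n ρ, ∀ γ ∈ G,
    dist (φ p) (φ q) ≤ pairDist γ p q
  dist_eq : ∀ p ∈ ModelBall n ρ, ∀ q ∈ ModelBall n ρ, ∃ γ ∈ G,
    dist (φ p) (φ q) = pairDist γ p q

/-- Some ball about `x` is isometric to a ball about `(0, 0)` in `ℝ^(n-4) × ℝ^4 / G`, where `G` is
a finite group of linear isometries of `ℝ^4` acting freely outside the origin. -/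
def Model (n : ℕ) {X : Type*} [MetricSpace X] (x : X) : Prop :=
  ∃ ρ : ℝ, 0 < ρ ∧ ∃ G : Subgroup (E 4 ≃ₗᵢ[ℝ] E 4), Finite G ∧ FreeOnSphere G ∧
    ∃ φ : E (n - 4) × E 4 → X, IsModelMap x ρ G φ

/-- `A` is a countable union of isometric images of Euclidean balls of dimension `m`. -/
def FlatPieces (m : ℕ) {X : Type*} [MetricSpace X] (A : Set X) : Prop :=
  ∃ (T : ℕ → E m → X) (r : ℕ → ℝ),
    (∀ k, ∀ a ∈ ball (0 : E m) (r k), ∀ b ∈ ball (0 : E m) (r k),
      dist (T k a) (T k b) = dist a b) ∧ A = ⋃ k, T k '' ball 0 (r k)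

/-- `A` has Hausdorff dimension at most `m` and is covered by countably many images of
`ℝ^m` under `1`-Lipschitz maps. -/
def LipPieces (m : ℕ) {X : Type*} [MetricSpace X] (A : Set X) : Prop :=
  dimH A ≤ m ∧ ∃ L : ℕ → E m → X, (∀ k, LipschitzWith 1 (L k)) ∧ A ⊆ ⋃ k, range (L k)

/-- `Sorb` is an exceptional set as in Q1 for the flat space `X`: it is closed, outside it the
local models are `ℝ^(n-4) × ℝ^4 / G`, and the singular points outside it form a countable union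
of isometric images of balls of dimension `n - 4`. -/
structure IsExceptional (n : ℕ) {X : Type*} [MetricSpace X] (Sorb : Set X) : Prop where
  closed : IsClosed Sorb
  model : ∀ x, x ∉ Sorb → Model n x
  pieces : FlatPieces (n - 4) {x | x ∉ Sorb ∧ ¬ Regular n x}

end Pool.Agent.FlatLim
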