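import Mathlib

/-!
# Flat limits: the strata of the quotient of Euclidean space by a discrete group

`F : ℝ^n → X` is the quotient map of a discrete group `Γ` of isometries which acts freely outside
the preimage of a set `S` of Hausdorff dimension at most `n - 4`.  Outside a closed set of
dimension at most `n - 5` the space `X` is locally `ℝ^(n-4) × ℝ^4 / G`.
-/

set_option autoImplicit false

open Set Metric Module
open scoped NNReal ENNReal Topology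

namespace Pool.Agent.FEF

/-- a ball about `x` is isometric to a ball about `(0,0)` in `ℝ^(n-4) × ℝ^4 / G`, `G` a finite group
of linear isometries which acts freely on the sphere -/
def Model (n : ℕ) {X : Type*} [MetricSpace X] (x : X) : Prop :=
  ∃ ρ : ℝ, 0 < ρ ∧
    ∃ G : Subgroup (EuclideanSpace ℝ (Fin 4) ≃ₗᵢ[ℝ] EuclideanSpace ℝ (Fin 4)), Finite G ∧
      (∀ γ ∈ G, γ ≠ 1 → ∀ z, γ z = z → z = 0) ∧
      ∃ φ : EuclideanSpace ℝ (Fin (n - 4)) × EuclideanSpace ℝ (Fin 4) → X, φ (0, 0) = x ∧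
        φ '' {p | ‖p.1‖ ^ 2 + ‖p.2‖ ^ 2 < ρ ^ 2} = ball x ρ ∧
        ∀ p q, ‖p.1‖ ^ 2 + ‖p.2‖ ^ 2 < ρ ^ 2 → ‖q.1‖ ^ 2 + ‖q.2‖ ^ 2 < ρ ^ 2 →
          (∀ γ ∈ G, dist (φ p) (φ q) ^ 2 ≤ ‖p.1 - q.1‖ ^ 2 + ‖γ p.2 - q.2‖ ^ 2) ∧
          ∃ γ ∈ G, dist (φ p) (φ q) ^ 2 = ‖p.1 - q.1‖ ^ 2 + ‖γ p.2 - q.2‖ ^ 2

section

variable {V : Type*} [NormedAddCommGroup V] [InnerProductSpace ℝ V]

/-- the linear part of an isometry -/
noncomputable def fldL (g : V ≃ᵢ V) : V ≃ₗᵢ[ℝ] V := g.toRealAffineIsometryEquiv.linearIsometryEquiv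

theorem fldL_add (g : V ≃ᵢ V) (v y : V) : g (v + y) = fldL g v + g y :=
  g.toRealAffineIsometryEquiv.map_vadd y v

theorem fldL_eq (g : V ≃ᵢ V) (v : V) : fldL g v = g v - g 0 := by
  have := fldL_add g v 0
  rw [add_zero] at this
  rw [this, add_sub_cancel_right]

theorem fldL_mul (g h : V ≃ᵢ V) : fldL (g * h) = fldL g * fldL h := by
  ext v
  change fldL (g * h) v = fldL g (fldL h v)
  rw [fldL_eq, fldL_eq h]
  change g (h v) - g (h 0) = fldL g (h v - h 0)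
  have := fldL_add g (h v - h 0) (h 0)
  rw [sub_add_cancel] at this
  rw [this, add_sub_cancel_right]

theorem fldL_one : fldL (1 : V ≃ᵢ V) = 1 := by
  ext v
  rw [fldL_eq]
  simp

theorem fldL_inv (g : V ≃ᵢ V) : fldL g⁻¹ = (fldL g)⁻¹ := by
  apply eq_inv_of_mul_eq_one_left
  rw [← fldL_mul, inv_mul_cancel, fldL_one]

/-- the vectors fixed by the linear parts of the elements of `H` -/
def fldW (H : Set (V ≃ᵢ V)) : Submodule ℝ V where
  carrier := {v | ∀ g ∈ H, fldL g v = v}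
  add_mem' := by
    intro a b ha hb g hg
    rw [map_add, ha g hg, hb g hg]
  zero_mem' := by
    intro g _
    rw [map_zero]
  smul_mem' := by
    intro c a ha g hg
    rw [map_smul, ha g hg]

theorem mem_fldW {H : Set (V ≃ᵢ V)} {v : V} : v ∈ fldW H ↔ ∀ g ∈ H, fldL g v = v := Iff.rfl

theorem fldW_anti {H H' : Set (V ≃ᵢ V)} (h : H ⊆ H') : fldW H' ≤ fldW H :=
  fun _ hv g hg => hv g (h hg)

end

section

variable {V : Type*} [NormedAddCommGroup V]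

/-- the stabiliser -/
def fldSt (Γ : Subgroup (V ≃ᵢ V)) (y : V) : Subgroup (V ≃ᵢ V) where
  carrier := {g | g ∈ Γ ∧ g y = y}
  mul_mem' := by
    rintro a b ⟨ha, ha'⟩ ⟨hb, hb'⟩
    refine ⟨Γ.mul_mem ha hb, ?_⟩
    change a (b y) = y
    rw [hb', ha']
  one_mem' := ⟨Γ.one_mem, rfl⟩
  inv_mem' := by
    rintro a ⟨ha, ha'⟩
    refine ⟨Γ.inv_mem ha, ?_⟩
    change a.symm y = y
    rw [← ha', IsometryEquiv.symm_apply_apply, ha']

theorem mem_fldSt {Γ : Subgroup (V ≃ᵢ V)} {y : V} {g : V ≃ᵢ V} :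
    g ∈ fldSt Γ y ↔ g ∈ Γ ∧ g y = y := Iff.rfl

variable {X : Type*} [MetricSpace X] {Γ : Subgroup (V ≃ᵢ V)} {F : V → X} {S : Set X}

/-- the hypotheses on the quotient map -/
structure FldQ (Γ : Subgroup (V ≃ᵢ V)) (F : V → X) (S : Set X) : Prop where
  surj : Function.Surjective F
  inv : ∀ g ∈ Γ, ∀ y, F (g y) = F y
  le : ∀ y y', dist (F y) (F y') ≤ dist y y'
  min : ∀ y y', ∃ g ∈ Γ, dist (g y) y' = dist (F y) (F y')
  fin : ∀ (z : V) (r : ℝ), {g : V ≃ᵢ V | g ∈ Γ ∧ dist (g z) z ≤ r}.Finite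
  free : ∀ y, F y ∉ S → ∀ g ∈ Γ, g y = y → g = 1

theorem FldQ.finSt (h : FldQ Γ F S) (y : V) : Finite (fldSt Γ y) := by
  have : ((fldSt Γ y : Subgroup (V ≃ᵢ V)) : Set (V ≃ᵢ V)).Finite := by
    refine (h.fin y 0).subset ?_
    rintro g ⟨hg, hg'⟩
    exact ⟨hg, by rw [hg', dist_self]⟩
  exact this.to_subtype

/-- small displacements are in the stabiliser -/
theorem FldQ.rad (h : FldQ Γ F S) (y : V) :
    ∃ ρ : ℝ, 0 < ρ ∧ ∀ g ∈ Γ, dist (g y) y < 4 * ρ → g y = y := by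
  have hfin : {g : V ≃ᵢ V | (g ∈ Γ ∧ dist (g y) y ≤ 1) ∧ g y ≠ y}.Finite :=
    (h.fin y 1).subset fun g hg => hg.1
  by_cases hne : {g : V ≃ᵢ V | (g ∈ Γ ∧ dist (g y) y ≤ 1) ∧ g y ≠ y}.Nonempty
  · obtain ⟨g₀, hg₀, hmin⟩ := Set.exists_min_image _ (fun g : V ≃ᵢ V => dist (g y) y) hfin hne
    have h0 : 0 < dist (g₀ y) y := dist_pos.2 hg₀.2
    refine ⟨dist (g₀ y) y / 4, by positivity, fun g hg hd => ?_⟩
    by_contra hcon
    have h1 : dist (g y) y < dist (g₀ y) y := by linarith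
    have h2 := hmin g ⟨⟨hg, h1.le.trans hg₀.1.2⟩, hcon⟩
    linarith
  · refine ⟨1 / 4, by norm_num, fun g hg hd => ?_⟩
    by_contra hcon
    apply hne
    exact ⟨g, ⟨hg, by linarith⟩, hcon⟩

theorem fld_st_le {y z : V} {ρ : ℝ} (hρ : ∀ g ∈ Γ, dist (g y) y < 4 * ρ → g y = y)
    (hz : dist z y < ρ) : fldSt Γ z ≤ fldSt Γ y := by
  rintro g ⟨hg, hgz⟩
  refine ⟨hg, hρ g hg ?_⟩
  have h1 := dist_triangle (g y) (g z) y
  rw [g.dist_eq, hgz, dist_comm y z] at h1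
  have h2 : 0 ≤ dist z y := dist_nonneg
  linarith

theorem FldQ.loc (h : FldQ Γ F S) {y z z' : V} {ρ : ℝ}
    (hρ : ∀ g ∈ Γ, dist (g y) y < 4 * ρ → g y = y) (hz : dist z y < ρ) (hz' : dist z' y < ρ) :
    ∃ g ∈ fldSt Γ y, dist (g z) z' = dist (F z) (F z') := by
  obtain ⟨g, hg, hd⟩ := h.min z z'
  refine ⟨g, ⟨hg, hρ g hg ?_⟩, hd⟩
  have h1 := dist_triangle4 (g y) (g z) z' y
  rw [g.dist_eq, hd] at h1
  have h2 := h.le z z'
  have h3 := dist_triangle z y z'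
  rw [dist_comm y z'] at h3
  rw [dist_comm y z] at h1
  linarith

end

section

variable {V : Type*} [NormedAddCommGroup V] [InnerProductSpace ℝ V]

theorem fld_exists_sub {W : Submodule ℝ V} {k : ℕ} (hk : k ≤ finrank ℝ W) :
    ∃ W' : Submodule ℝ V, W' ≤ W ∧ finrank ℝ W' = k := by
  obtain ⟨f, hf⟩ := exists_linearIndependent_of_le_finrank hk
  have hf' : LinearIndependent ℝ (fun i => (f i : V)) :=
    hf.map' W.subtype (Submodule.ker_subtype W)
  refine ⟨Submodule.span ℝ (range fun i => (f i : V)), ?_, ?_⟩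
  · rw [Submodule.span_le]
    rintro _ ⟨i, rfl⟩
    exact (f i).2
  · rw [finrank_span_eq_card hf', Fintype.card_fin]

theorem fld_norm {W : Submodule ℝ V} (a : W) (b : Wᗮ) :
    ‖(a : V) + (b : V)‖ ^ 2 = ‖a‖ ^ 2 + ‖b‖ ^ 2 := by
  have h0 : inner ℝ (a : V) (b : V) = 0 := W.inner_right_of_mem_orthogonal a.2 b.2
  have := norm_add_sq_real (a : V) (b : V)
  rw [h0, mul_zero, add_zero] at this
  rw [this]
  rfl

variable {X : Type*} [MetricSpace X] {Γ : Subgroup (V ≃ᵢ V)} {F : V → X} {S : Set X}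
  [FiniteDimensional ℝ V]

/-- a fixed space has codimension at least four -/
theorem FldQ.finrank_le (h : FldQ Γ F S) {k : ℕ} (hS : dimH S ≤ (k : ℝ≥0∞)) {g : V ≃ᵢ V}
    (hg : g ∈ Γ) (hg1 : g ≠ 1) {y : V} (hy : g y = y) : finrank ℝ (fldW ({g} : Set (V ≃ᵢ V))) ≤ k := by
  classical
  let P : Set ℕ := {k | ∃ z, g z = z ∧ Nat.card (fldSt Γ z) = k}
  have hP : P.Nonempty := ⟨_, y, hy, rfl⟩
  obtain ⟨z0, hz0, hz0c⟩ := Nat.sInf_mem hP
  have hmin : ∀ z, g z = z → Nat.card (fldSt Γ z0) ≤ Nat.card (fldSt Γ z) := by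
    intro z hz
    rw [hz0c]
    exact Nat.sInf_le ⟨z, hz, rfl⟩
  obtain ⟨ρ, hρ0, hρ⟩ := h.rad z0
  set W := fldW ({g} : Set (V ≃ᵢ V)) with hW
  let B : Set W := ball (0 : W) ρ
  let f : B → X := fun v => F ((v : W) + z0)
  have hB : ∀ v : B, dist (((v : W) : V) + z0) z0 < ρ := by
    intro v
    have := v.2
    rw [mem_ball_zero_iff] at this
    rw [dist_eq_norm, add_sub_cancel_right]
    exact this
  have hgf : ∀ v : B, g (((v : W) : V) + z0) = ((v : W) : V) + z0 := by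
    intro v
    rw [fldL_add, hz0, (v : W).2 g rfl]
  have hst : ∀ v : B, fldSt Γ (((v : W) : V) + z0) = fldSt Γ z0 := by
    intro v
    have := h.finSt z0
    exact Subgroup.eq_of_le_of_card_ge (fld_st_le hρ (hB v)) (hmin _ (hgf v))
  have hiso : Isometry f := by
    refine Isometry.of_dist_eq fun v v' => ?_
    obtain ⟨γ, hγ, hd⟩ := h.loc hρ (hB v) (hB v')
    rw [← hst v] at hγ
    change dist (F _) (F _) = _
    rw [← hd, hγ.2, dist_add_right]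
    rfl
  have hsub : f '' univ ⊆ S := by
    rintro _ ⟨v, -, rfl⟩
    by_contra hcon
    exact hg1 (h.free _ hcon g hg (hgf v))
  have h1 : dimH (f '' univ) = (finrank ℝ W : ℝ≥0∞) := by
    rw [hiso.dimH_image]
    have h2 : dimH ((Subtype.val : B → W) '' univ) = dimH (univ : Set B) :=
      isometry_subtype_coe.dimH_image _
    rw [← h2, image_univ, Subtype.range_coe]
    exact Real.dimH_of_mem_nhds (ball_mem_nhds (0 : W) hρ0)
  have h3 := (dimH_mono hsub).trans hS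
  rw [h1] at h3
  exact_mod_cast h3

/-- the points whose stabiliser has a small fixed space -/
def fldBad (Γ : Subgroup (V ≃ᵢ V)) (k : ℕ) : Set V :=
  {y | finrank ℝ (fldW (fldSt Γ y : Set (V ≃ᵢ V))) ≤ k}

theorem fldBad_inv {k : ℕ} {y : V} (hy : y ∈ fldBad Γ k) {g : V ≃ᵢ V} (hg : g ∈ Γ) :
    g y ∈ fldBad Γ k := by
  have hy' : finrank ℝ (fldW (fldSt Γ y : Set (V ≃ᵢ V))) ≤ k := hy
  change finrank ℝ (fldW (fldSt Γ (g y) : Set (V ≃ᵢ V))) ≤ k
  refine le_trans ?_ hy'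
  let e : V ≃ₗ[ℝ] V := (fldL g⁻¹).toLinearEquiv
  have h1 : (fldW (fldSt Γ (g y) : Set (V ≃ᵢ V))).map (e : V →ₗ[ℝ] V) ≤
      fldW (fldSt Γ y : Set (V ≃ᵢ V)) := by
    rintro _ ⟨v, hv, rfl⟩
    rw [mem_fldW]
    rintro γ ⟨hγ, hγy⟩
    have h2 : g * γ * g⁻¹ ∈ fldSt Γ (g y) := by
      refine ⟨Γ.mul_mem (Γ.mul_mem hg hγ) (Γ.inv_mem hg), ?_⟩
      change g (γ (g.symm (g y))) = g y
      rw [IsometryEquiv.symm_apply_apply, hγy]
    have h3 := hv _ h2
    rw [fldL_mul, fldL_mul] at h3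
    change fldL g (fldL γ (fldL g⁻¹ v)) = v at h3
    change fldL γ (fldL g⁻¹ v) = fldL g⁻¹ v
    have h4 : fldL g⁻¹ (fldL g (fldL γ (fldL g⁻¹ v))) = fldL γ (fldL g⁻¹ v) := by
      rw [fldL_inv]
      exact (fldL g).symm_apply_apply _
    rw [← h4, h3]
  have h2 := Submodule.finrank_mono h1
  rwa [LinearEquiv.finrank_map_eq] at h2

theorem FldQ.countable (h : FldQ Γ F S) : (Γ : Set (V ≃ᵢ V)).Countable := by
  have h1 : (Γ : Set (V ≃ᵢ V)) ⊆ ⋃ k : ℕ, {g : V ≃ᵢ V | g ∈ Γ ∧ dist (g 0) 0 ≤ k} := by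
    intro g hg
    obtain ⟨k, hk⟩ := exists_nat_ge (dist (g 0) 0)
    exact mem_iUnion.2 ⟨k, hg, hk⟩
  exact (countable_iUnion fun k : ℕ => (h.fin 0 (k : ℝ)).countable).mono h1

theorem FldQ.dimH_bad (h : FldQ Γ F S) (k : ℕ) : dimH (fldBad Γ k) ≤ (k : ℝ≥0∞) := by
  have h1 : fldBad Γ k ⊆ ⋃ t ∈ {t : Set (V ≃ᵢ V) | t.Finite ∧ t ⊆ (Γ : Set (V ≃ᵢ V))},
      {y | (∀ g ∈ t, g y = y) ∧ finrank ℝ (fldW t) ≤ k} := by
    intro y hy
    refine mem_iUnion₂.2 ⟨(fldSt Γ y : Set (V ≃ᵢ V)), ⟨?_, fun g hg => hg.1⟩, fun g hg => hg.2, hy⟩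
    have := h.finSt y
    exact Set.toFinite _
  refine (dimH_mono h1).trans ?_
  rw [dimH_bUnion (countable_ofPred_finite_subset h.countable)]
  refine iSup₂_le fun t ht => ?_
  by_cases hne : {y | (∀ g ∈ t, g y = y) ∧ finrank ℝ (fldW t) ≤ k}.Nonempty
  · obtain ⟨y0, hy0, hk⟩ := hne
    have h2 : {y | (∀ g ∈ t, g y = y) ∧ finrank ℝ (fldW t) ≤ k} ⊆
        (fun v : fldW t => (v : V) + y0) '' univ := by
      rintro y ⟨hy, -⟩
      have hmem : y - y0 ∈ fldW t := by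
        intro g hg
        have h5 := fldL_add g (y - y0) y0
        rw [sub_add_cancel, hy g hg, hy0 g hg] at h5
        exact (sub_eq_of_eq_add h5).symm
      exact ⟨⟨y - y0, hmem⟩, mem_univ _, sub_add_cancel y y0⟩
    refine (dimH_mono h2).trans ?_
    have h3 : Isometry fun v : fldW t => (v : V) + y0 := by
      refine Isometry.of_dist_eq fun v v' => ?_
      rw [dist_add_right]
      rfl
    rw [h3.dimH_image, Real.dimH_univ_eq_finrank]
    exact_mod_cast hk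
  · rw [Set.not_nonempty_iff_eq_empty.1 hne, dimH_empty]
    exact zero_le

theorem FldQ.isClosed (h : FldQ Γ F S) (k : ℕ) : IsClosed (F '' fldBad Γ k) := by
  rw [← isOpen_compl_iff, Metric.isOpen_iff]
  intro x hx
  obtain ⟨y, rfl⟩ := h.surj x
  obtain ⟨ρ, hρ0, hρ⟩ := h.rad y
  refine ⟨ρ, hρ0, ?_⟩
  rintro _ hx' ⟨z, hz, rfl⟩
  obtain ⟨g, hg, hd⟩ := h.min z y
  rw [mem_ball] at hx'
  rw [← hd] at hx'
  apply hx
  refine ⟨y, ?_, rfl⟩
  have h1 := fldBad_inv hz hg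
  refine le_trans (Submodule.finrank_mono ?_) h1
  exact fldW_anti (fld_st_le hρ hx')

end

section

variable {V : Type*} [NormedAddCommGroup V] [InnerProductSpace ℝ V] [FiniteDimensional ℝ V]
  {X : Type*} [MetricSpace X] {Γ : Subgroup (V ≃ᵢ V)} {F : V → X} {S : Set X}

theorem fld_onb {W : Submodule ℝ V} {k : ℕ} (hk : finrank ℝ W = k) :
    Nonempty (EuclideanSpace ℝ (Fin k) ≃ₗᵢ[ℝ] W) :=
  ⟨((stdOrthonormalBasis ℝ W).reindex (finCongr hk)).repr.symm⟩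

theorem FldQ.model (h : FldQ Γ F S) {n : ℕ} (hn : 5 ≤ n) (hV : finrank ℝ V = n)
    (hS : dimH S ≤ ((n - 4 : ℕ) : ℝ≥0∞)) {y : V} (hy : y ∉ fldBad Γ (n - 5)) :
    Model n (F y) := by
  classical
  have hy' : n - 4 ≤ finrank ℝ (fldW (fldSt Γ y : Set (V ≃ᵢ V))) := by
    have : ¬ finrank ℝ (fldW (fldSt Γ y : Set (V ≃ᵢ V))) ≤ n - 5 := hy
    omega
  obtain ⟨W, hWle, hWr⟩ := fld_exists_sub hy'
  have hWfix : ∀ g ∈ fldSt Γ y, ∀ v ∈ W, fldL g v = v := fun g hg v hv => hWle hv g hg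
  have hWeq : ∀ g ∈ fldSt Γ y, g ≠ 1 → ∀ v, fldL g v = v → v ∈ W := by
    intro g hg hg1 v hv
    have h1 : W ≤ fldW ({g} : Set (V ≃ᵢ V)) := by
      intro w hw γ hγ
      rw [mem_singleton_iff] at hγ
      rw [hγ]
      exact hWfix g hg w hw
    have h2 := h.finrank_le hS hg.1 hg1 hg.2
    have h3 := Submodule.eq_of_le_of_finrank_le h1 (h2.trans hWr.ge)
    rw [h3]
    intro γ hγ
    rw [mem_singleton_iff] at hγ
    rw [hγ]
    exact hv
  have hWo : finrank ℝ Wᗮ = 4 := by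
    have := Submodule.finrank_add_finrank_orthogonal W
    omega
  obtain ⟨α⟩ := fld_onb hWr
  obtain ⟨β⟩ := fld_onb hWo
  obtain ⟨ρ, hρ0, hρ⟩ := h.rad y
  -- the linear parts preserve the orthogonal complement
  have horth : ∀ g ∈ fldSt Γ y, ∀ v ∈ Wᗮ, fldL g v ∈ Wᗮ := by
    intro g hg v hv w hw
    have h1 : fldL g w = w := hWfix g hg w hw
    rw [← h1, LinearIsometryEquiv.inner_map_map]
    exact hv w hw
  -- the group
  let G : Subgroup (EuclideanSpace ℝ (Fin 4) ≃ₗᵢ[ℝ] EuclideanSpace ℝ (Fin 4)) :=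
    { carrier := {γ | ∃ g ∈ fldSt Γ y, ∀ z, fldL g (β z : V) = (β (γ z) : V)}
      mul_mem' := by
        rintro a b ⟨g, hg, hga⟩ ⟨g', hg', hgb⟩
        refine ⟨g * g', (fldSt Γ y).mul_mem hg hg', fun z => ?_⟩
        rw [fldL_mul]
        change fldL g (fldL g' (β z : V)) = (β (a (b z)) : V)
        rw [hgb, hga]
      one_mem' := ⟨1, (fldSt Γ y).one_mem, fun z => by rw [fldL_one]; rfl⟩
      inv_mem' := by
        rintro a ⟨g, hg, hga⟩
        refine ⟨g⁻¹, (fldSt Γ y).inv_mem hg, fun z => ?_⟩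
        rw [fldL_inv]
        change (fldL g).symm (β z : V) = (β (a.symm z) : V)
        rw [LinearIsometryEquiv.symm_apply_eq, hga, LinearIsometryEquiv.apply_symm_apply] }
  have hG : ∀ g ∈ fldSt Γ y, ∃ γ ∈ G, ∀ z, fldL g (β z : V) = (β (γ z) : V) := by
    intro g hg
    let l : EuclideanSpace ℝ (Fin 4) →ₗᵢ[ℝ] EuclideanSpace ℝ (Fin 4) :=
      { toFun := fun z => β.symm ⟨fldL g (β z : V), horth g hg _ (β z).2⟩
        map_add' := by
          intro a b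
          rw [← map_add]
          congr 1
          ext
          simp
        map_smul' := by
          intro c a
          rw [RingHom.id_apply, ← map_smul]
          congr 1
          ext
          simp
        norm_map' := by
          intro z
          change ‖β.symm ⟨fldL g (β z : V), horth g hg _ (β z).2⟩‖ = ‖z‖
          rw [LinearIsometryEquiv.norm_map, Submodule.coe_norm]
          change ‖fldL g (β z : V)‖ = ‖z‖
          rw [LinearIsometryEquiv.norm_map, ← Submodule.coe_norm, LinearIsometryEquiv.norm_map] }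
    have hl : ∀ z, fldL g (β z : V) = (β (l z) : V) := by
      intro z
      change _ = ((β (β.symm ⟨fldL g (β z : V), horth g hg _ (β z).2⟩) : Wᗮ) : V)
      rw [LinearIsometryEquiv.apply_symm_apply]
    exact ⟨l.toLinearIsometryEquiv rfl, ⟨g, hg, hl⟩, hl⟩
  have hβinj : ∀ a b : EuclideanSpace ℝ (Fin 4), (β a : V) = (β b : V) → a = b := by
    intro a b hab
    exact β.injective (Subtype.ext hab)
  let ι : EuclideanSpace ℝ (Fin (n - 4)) × EuclideanSpace ℝ (Fin 4) → V :=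
    fun p => (α p.1 : V) + (β p.2 : V)
  have hιn : ∀ p, ‖ι p‖ ^ 2 = ‖p.1‖ ^ 2 + ‖p.2‖ ^ 2 := by
    intro p
    rw [fld_norm, LinearIsometryEquiv.norm_map, LinearIsometryEquiv.norm_map]
  have hιb : ∀ p, ‖p.1‖ ^ 2 + ‖p.2‖ ^ 2 < ρ ^ 2 ↔ dist (ι p + y) y < ρ := by
    intro p
    rw [← hιn, dist_eq_norm, add_sub_cancel_right]
    exact sq_lt_sq₀ (norm_nonneg _) hρ0.le
  have hιd : ∀ p q, ‖ι p - ι q‖ ^ 2 = ‖p.1 - q.1‖ ^ 2 + ‖p.2 - q.2‖ ^ 2 := by
    intro p q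
    have h1 : ι p - ι q = ι (p - q) := by
      simp only [ι, Prod.fst_sub, Prod.snd_sub, map_sub, Submodule.coe_sub]
      abel
    rw [h1, hιn]
    rfl
  have hιg : ∀ g ∈ fldSt Γ y, ∀ γ : EuclideanSpace ℝ (Fin 4) ≃ₗᵢ[ℝ] EuclideanSpace ℝ (Fin 4),
      (∀ z, fldL g (β z : V) = (β (γ z) : V)) → ∀ p, g (ι p + y) = ι (p.1, γ p.2) + y := by
    intro g hg γ hγ p
    rw [fldL_add, hg.2]
    change fldL g ((α p.1 : V) + (β p.2 : V)) + y = _
    rw [map_add, hWfix g hg _ (α p.1).2, hγ]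
  refine ⟨ρ, hρ0, G, ?_, ?_, fun p => F (ι p + y), ?_, ?_, ?_⟩
  · -- finite
    have hfin := h.finSt y
    choose! f hf hf' using fun (γ : EuclideanSpace ℝ (Fin 4) ≃ₗᵢ[ℝ] EuclideanSpace ℝ (Fin 4))
      (hγ : γ ∈ G) => hγ
    refine Finite.of_injective (fun γ : G => (⟨f γ, hf γ γ.2⟩ : fldSt Γ y)) ?_
    intro γ γ' hγγ
    have h1 : f γ = f γ' := congrArg Subtype.val hγγ
    apply Subtype.ext
    ext1 z
    apply hβinj
    rw [← hf' γ γ.2, ← hf' γ' γ'.2, h1]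
  · rintro γ ⟨g, hg, hγ⟩ hγ1 z hz
    have hg1 : g ≠ 1 := by
      rintro rfl
      apply hγ1
      ext1 z
      apply hβinj
      rw [← hγ, fldL_one]
      rfl
    have h1 : (β z : V) ∈ W := hWeq g hg hg1 _ (by rw [hγ, hz])
    have h2 : (β z : V) = 0 := by
      have := (β z).2 _ h1
      exact inner_self_eq_zero.1 this
    apply hβinj
    rw [h2, map_zero]
    rfl
  · change F (ι (0, 0) + y) = F y
    congr 1
    simp [ι]
  · ext x
    constructor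
    · rintro ⟨p, hp, rfl⟩
      rw [mem_ball]
      exact (h.le _ _).trans_lt ((hιb p).1 hp)
    · intro hx
      obtain ⟨z, rfl⟩ := h.surj x
      obtain ⟨g, hg, hd⟩ := h.min z y
      rw [mem_ball, ← hd] at hx
      obtain ⟨a, ha, b, hb, hab⟩ := W.exists_add_mem_mem_orthogonal (g z - y)
      refine ⟨(α.symm ⟨a, ha⟩, β.symm ⟨b, hb⟩), ?_, ?_⟩
      · refine (hιb (α.symm ⟨a, ha⟩, β.symm ⟨b, hb⟩)).2 ?_
        simp only [ι, LinearIsometryEquiv.apply_symm_apply]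
        rw [← hab, sub_add_cancel]
        exact hx
      · simp only [ι, LinearIsometryEquiv.apply_symm_apply]
        rw [← hab, sub_add_cancel]
        exact h.inv g hg z
  · intro p q hp hq
    constructor
    · rintro γ ⟨g, hg, hγ⟩
      have h1 : dist (F (ι p + y)) (F (ι q + y)) ≤ dist (g (ι p + y)) (ι q + y) := by
        rw [← h.inv g hg.1 (ι p + y)]
        exact h.le _ _
      rw [hιg g hg γ hγ, dist_add_right, dist_eq_norm] at h1
      have h2 := pow_le_pow_left₀ dist_nonneg h1 2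
      rw [hιd] at h2
      exact h2
    · obtain ⟨g, hg, hd⟩ := h.loc hρ ((hιb p).1 hp) ((hιb q).1 hq)
      obtain ⟨γ, hγG, hγ⟩ := hG g hg
      refine ⟨γ, hγG, ?_⟩
      rw [← hd, hιg g hg γ hγ, dist_add_right, dist_eq_norm, hιd]

end

/-- **The strata of the quotient.** -/
theorem strata {n : ℕ} (hn : 5 ≤ n) {X : Type*} [MetricSpace X] {S : Set X}
    (hS : dimH S ≤ ((n - 4 : ℕ) : ℝ≥0∞))
    {Γ : Subgroup (EuclideanSpace ℝ (Fin n) ≃ᵢ EuclideanSpace ℝ (Fin n))}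
    {F : EuclideanSpace ℝ (Fin n) → X} (hsurj : Function.Surjective F)
    (hinv : ∀ g ∈ Γ, ∀ y, F (g y) = F y)
    (hle : ∀ y y', dist (F y) (F y') ≤ dist y y')
    (hmin : ∀ y y', ∃ g ∈ Γ, dist (g y) y' = dist (F y) (F y'))
    (hfin : ∀ (z : EuclideanSpace ℝ (Fin n)) (r : ℝ),
      {g : EuclideanSpace ℝ (Fin n) ≃ᵢ EuclideanSpace ℝ (Fin n) |
        g ∈ Γ ∧ dist (g z) z ≤ r}.Finite)
    (hfree : ∀ y, F y ∉ S → ∀ g ∈ Γ, g y = y → g = 1) :
    ∃ Sorb : Set X, IsClosed Sorb ∧ Sorb ⊆ S ∧ dimH Sorb ≤ ((n - 5 : ℕ) : ℝ≥0∞) ∧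
      ∀ x ∉ Sorb, Model n x := by
  have h : FldQ Γ F S := ⟨hsurj, hinv, hle, hmin, hfin, hfree⟩
  have hV : finrank ℝ (EuclideanSpace ℝ (Fin n)) = n := by simp
  refine ⟨F '' fldBad Γ (n - 5), h.isClosed _, ?_, ?_, ?_⟩
  · rintro _ ⟨y, hy, rfl⟩
    by_contra hcon
    have h1 : fldW (fldSt Γ y : Set (EuclideanSpace ℝ (Fin n) ≃ᵢ EuclideanSpace ℝ (Fin n))) = ⊤ := by
      rw [eq_top_iff]
      rintro v - g hg
      rw [h.free y hcon g hg.1 hg.2, fldL_one]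
      rfl
    have h2 : finrank ℝ (fldW (fldSt Γ y : Set (EuclideanSpace ℝ (Fin n) ≃ᵢ
      EuclideanSpace ℝ (Fin n)))) ≤ n - 5 := hy
    rw [h1, finrank_top, hV] at h2
    omega
  · have h1 : LipschitzWith 1 F := LipschitzWith.mk_one hle
    exact (h1.dimH_image_le _).trans (h.dimH_bad _)
  · intro x hx
    obtain ⟨y, rfl⟩ := h.surj x
    exact h.model hn hV hS fun hy => hx ⟨y, hy, rfl⟩

end Pool.Agent.FEF
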